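import Mathlib

set_option autoImplicit false

namespace Pool.Agent.H11.Selberg

/-- The completed function `Q ^ s * ∏ j, Γ (lam j * s + mu j) * F s`. -/
noncomputable def completed (Q : ℝ) {r : ℕ} (lam : Fin r → ℝ) (mu : Fin r → ℂ) (F : ℂ → ℂ)
    (s : ℂ) : ℂ :=
  (Q : ℂ) ^ s * (∏ j, Complex.Gamma ((lam j : ℂ) * s + mu j)) * F s

/-- The pair `(a, F)` is an element of the Selberg class: `a` is the sequence of Dirichlet
coefficients and `F` is the meromorphic function they define (its value at the possible pole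
`s = 1` is irrelevant). -/
structure IsSelberg (a : ℕ → ℂ) (F : ℂ → ℂ) : Prop where
  /-- the first coefficient is one -/
  one : a 1 = 1
  /-- the Dirichlet series converges absolutely for `Re s > 1` -/
  summable : ∀ s : ℂ, 1 < s.re → LSeriesSummable a s
  /-- `F` is the sum of the Dirichlet series -/
  eq_LSeries : ∀ s : ℂ, 1 < s.re → F s = LSeries a s
  /-- `(s - 1) ^ m * F s` extends to an entire function of finite order -/
  continuation : ∃ m : ℕ, ∃ G : ℂ → ℂ, Differentiable ℂ G ∧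
    (∃ A C : ℝ, ∀ s, ‖G s‖ ≤ C * Real.exp (‖s‖ ^ A)) ∧
    ∀ s, s ≠ 1 → G s = (s - 1) ^ m * F s
  /-- the functional equation (stated in the critical strip, where no Gamma factor has a pole) -/
  functional : ∃ (Q : ℝ) (r : ℕ) (lam : Fin r → ℝ) (mu : Fin r → ℂ) (ε : ℂ),
    0 < Q ∧ (∀ j, 0 < lam j) ∧ (∀ j, 0 ≤ (mu j).re) ∧ ‖ε‖ = 1 ∧
    ∀ s : ℂ, 0 < s.re → s.re < 1 →
      completed Q lam mu F s =
        ε * (starRingEnd ℂ) (completed Q lam mu F (1 - (starRingEnd ℂ) s))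
  /-- the Ramanujan bound -/
  ramanujan : ∀ ε : ℝ, 0 < ε → ∃ C : ℝ, ∀ n : ℕ, 1 ≤ n → ‖a n‖ ≤ C * (n : ℝ) ^ ε
  /-- the Euler product -/
  euler : ∃ (b : ℕ → ℂ) (θ C : ℝ), θ < 1 / 2 ∧
    (∀ p : ℕ, p.Prime → ∀ l : ℕ, 1 ≤ l → ‖b (p ^ l)‖ ≤ C * ((p : ℝ) ^ l) ^ θ) ∧
    ∀ s : ℂ, 1 < s.re → HasProd
      (fun p : Nat.Primes => Complex.exp (∑' l : ℕ, b ((p : ℕ) ^ (l + 1)) *
        ((p : ℕ) : ℂ) ^ (-((l : ℂ) + 1) * s))) (F s)

/-- `S_F(x)`, the sum of `|a(p)| ^ 2 / p` over the primes `p ≤ x`. -/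
noncomputable def S (a : ℕ → ℂ) (x : ℝ) : ℝ :=
  ∑ p ∈ (Finset.Icc 1 ⌊x⌋₊).filter Nat.Prime, ‖a p‖ ^ 2 / (p : ℝ)

/-- The order of vanishing of `F` at the point `1 + i t` (minus the order of the pole if there
is a pole). -/
noncomputable def ord (F : ℂ → ℂ) (t : ℝ) : ℤ :=
  (meromorphicOrderAt F (1 + (t : ℂ) * Complex.I)).untop₀

end Pool.Agent.H11.Selberg
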