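import Mathlib
import Pool.Agent.H11.Selberg.Defs

set_option autoImplicit false

namespace Pool.Agent.H11.Selberg

open Complex

/-- `(p, k) ↦ p ^ (k + 2)` -/
def hp (x : Nat.Primes × ℕ) : ℕ := (x.1 : ℕ) ^ (x.2 + 2)

theorem hp_inj : Function.Injective hp := by
  intro x y h
  have h2 : Nat.Primes.prodNatEquiv (x.1, x.2 + 1) = Nat.Primes.prodNatEquiv (y.1, y.2 + 1) := by
    apply Subtype.ext
    rw [Nat.Primes.coe_prodNatEquiv_apply, Nat.Primes.coe_prodNatEquiv_apply]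
    exact h
  have h3 := Nat.Primes.prodNatEquiv.injective h2
  rw [Prod.mk.injEq] at h3
  exact Prod.ext h3.1 (by omega)

theorem hp_range (n : ℕ) (h : n ∉ Set.range hp) : ¬ (IsPrimePow n ∧ ¬ n.Prime) := by
  rintro ⟨h1, h2⟩
  apply h
  rw [isPrimePow_nat_iff] at h1
  obtain ⟨p, k, hp1, hk, rfl⟩ := h1
  have hk2 : 2 ≤ k := by
    rcases Nat.lt_or_ge k 2 with h3 | h3
    · exfalso
      have : k = 1 := by omega
      subst this
      rw [pow_one] at h2
      exact h2 hp1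
    · exact h3
  refine ⟨(⟨p, hp1⟩, k - 2), ?_⟩
  simp only [hp]
  congr 1
  omega

/-- summability of `p ^ ((k + 2) * (θ - 1))` -/
theorem summable_high (θ : ℝ) (hθ : θ < 1 / 2) :
    Summable (fun x : Nat.Primes × ℕ => (((hp x : ℕ) : ℝ) ^ θ) / (hp x : ℝ)) := by
  have h1 : Summable (fun p : Nat.Primes => ((p : ℕ) : ℝ) ^ (2 * (θ - 1))) :=
    Nat.Primes.summable_rpow.mpr (by linarith)
  have h2 : Summable (fun k : ℕ => ((2 : ℝ) ^ (θ - 1)) ^ k) := by
    apply summable_geometric_of_lt_one (by positivity)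
    exact Real.rpow_lt_one_of_one_lt_of_neg (by norm_num) (by linarith)
  have h3 := h1.mul_of_nonneg h2 (fun p => by positivity) (fun k => by positivity)
  refine Summable.of_nonneg_of_le (fun x => by positivity) (fun x => ?_) h3
  obtain ⟨p, k⟩ := x
  have hp0 : (0 : ℝ) < (p : ℕ) := by exact_mod_cast p.prop.pos
  have hp2 : (2 : ℝ) ≤ (p : ℕ) := by exact_mod_cast p.prop.two_le
  simp only [hp]
  push_cast
  have e1 : (((p : ℕ) : ℝ) ^ (k + 2)) ^ θ / ((p : ℕ) : ℝ) ^ (k + 2)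
      = ((p : ℕ) : ℝ) ^ (2 * (θ - 1)) * ((((p : ℕ) : ℝ) ^ (θ - 1)) ^ k) := by
    rw [← Real.rpow_natCast, ← Real.rpow_natCast, ← Real.rpow_mul hp0.le, ← Real.rpow_sub hp0,
      ← Real.rpow_mul hp0.le, ← Real.rpow_add hp0]
    congr 1
    push_cast
    ring
  rw [e1]
  apply mul_le_mul_of_nonneg_left _ (by positivity)
  apply pow_le_pow_left₀ (by positivity)
  apply Real.rpow_le_rpow_of_nonpos (by norm_num) hp2 (by linarith)

end Pool.Agent.H11.Selberg
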