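import Mathlib
import Pool.Agent.H11.Selberg.Log

set_option autoImplicit false

namespace Pool.Agent.H11.Selberg

open Complex Classical

/-- the prime part of the coefficients -/
noncomputable def b1 (a : ℕ → ℂ) (n : ℕ) : ℂ := if n.Prime then a n else 0

/-- the coefficients at the proper prime powers -/
noncomputable def b2 (b : ℕ → ℂ) (n : ℕ) : ℂ := if IsPrimePow n ∧ ¬ n.Prime then b n else 0

/-- the coefficients at all prime powers -/
noncomputable def bb (b : ℕ → ℂ) (n : ℕ) : ℂ := if IsPrimePow n then b n else 0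

theorem b2_summable (b : ℕ → ℂ) (θ C : ℝ) (hθ : θ < 1 / 2)
    (hb : ∀ p : ℕ, p.Prime → ∀ l : ℕ, 1 ≤ l → ‖b (p ^ l)‖ ≤ C * ((p : ℝ) ^ l) ^ θ) :
    Summable (fun n : ℕ => ‖b2 b n‖ / (n : ℝ)) := by
  have h1 : Function.support (fun n : ℕ => ‖b2 b n‖ / (n : ℝ)) ⊆ Set.range hp := by
    intro n hn
    by_contra hc
    apply hn
    have := hp_range n hc
    simp only [b2, if_neg this, norm_zero, zero_div]
  rw [← Function.Injective.summable_iff hp_inj (fun x hx => by
    by_contra hc
    exact hx (h1 hc))]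
  have h2 := (summable_high θ hθ).mul_left |C|
  refine Summable.of_nonneg_of_le (fun x => by simp only [Function.comp]; positivity)
    (fun x => ?_) h2
  simp only [Function.comp]
  rw [← mul_div_assoc]
  apply div_le_div_of_nonneg_right _ (by positivity)
  have h3 : ‖b2 b (hp x)‖ ≤ ‖b (hp x)‖ := by
    simp only [b2]
    split_ifs
    · exact le_refl _
    · rw [norm_zero]; positivity
  refine h3.trans ?_
  refine (hb x.1 x.1.prop (x.2 + 2) (by omega)).trans ?_
  simp only [hp]
  push_cast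
  exact mul_le_mul_of_nonneg_right (le_abs_self C) (by positivity)

theorem term_norm_le (f : ℕ → ℂ) (s : ℂ) (hs : 1 ≤ s.re) (n : ℕ) :
    ‖LSeries.term f s n‖ ≤ ‖f n‖ / (n : ℝ) := by
  rcases Nat.eq_zero_or_pos n with rfl | hn
  · simp
  · rw [LSeries.norm_term_eq, if_neg (by omega)]
    apply div_le_div_of_nonneg_left (by positivity) (by exact_mod_cast hn)
    have h1 : (1 : ℝ) ≤ n := by exact_mod_cast hn
    calc (n : ℝ) = (n : ℝ) ^ (1 : ℝ) := (Real.rpow_one _).symm
      _ ≤ (n : ℝ) ^ s.re := Real.rpow_le_rpow_of_exponent_le h1 hs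

theorem b2_LSeriesSummable (b : ℕ → ℂ) (hb : Summable (fun n : ℕ => ‖b2 b n‖ / (n : ℝ)))
    (s : ℂ) (hs : 1 ≤ s.re) : LSeriesSummable (b2 b) s :=
  Summable.of_norm_bounded hb (fun n => term_norm_le _ s hs n)

theorem b2_bound (b : ℕ → ℂ) (hb : Summable (fun n : ℕ => ‖b2 b n‖ / (n : ℝ)))
    (s : ℂ) (hs : 1 ≤ s.re) : ‖LSeries (b2 b) s‖ ≤ ∑' n : ℕ, ‖b2 b n‖ / (n : ℝ) := by
  unfold LSeries
  exact tsum_of_norm_bounded hb.hasSum (fun n => term_norm_le _ s hs n)

theorem b1_LSeriesSummable (a : ℕ → ℂ) (s : ℂ) (h : LSeriesSummable a s) :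
    LSeriesSummable (b1 a) s := by
  refine Summable.of_norm_bounded h.norm (fun n => ?_)
  rw [LSeries.norm_term_eq, LSeries.norm_term_eq]
  split_ifs
  · exact le_refl _
  · apply div_le_div_of_nonneg_right _ (by positivity)
    simp only [b1]
    split_ifs
    · exact le_refl _
    · rw [norm_zero]; positivity

/-- The Euler product and the Dirichlet series of the logarithm. -/
theorem exp_bb (b : ℕ → ℂ) (s : ℂ) (hs : LSeriesSummable (bb b) s) (v : ℂ)
    (hv : HasProd
      (fun p : Nat.Primes => Complex.exp (∑' l : ℕ, b ((p : ℕ) ^ (l + 1)) *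
        ((p : ℕ) : ℂ) ^ (-((l : ℂ) + 1) * s))) v) :
    v = Complex.exp (LSeries (bb b) s) := by
  let g : Nat.Primes × ℕ → ℕ := fun x => (x.1 : ℕ) ^ (x.2 + 1)
  have hg : Function.Injective g := by
    intro x y h
    have h2 : Nat.Primes.prodNatEquiv x = Nat.Primes.prodNatEquiv y := by
      apply Subtype.ext
      rw [Nat.Primes.coe_prodNatEquiv_apply, Nat.Primes.coe_prodNatEquiv_apply]
      exact h
    exact Nat.Primes.prodNatEquiv.injective h2
  have h1 : HasSum (LSeries.term (bb b) s) (LSeries (bb b) s) := hs.LSeriesHasSum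
  have hz : ∀ n, n ∉ Set.range g → LSeries.term (bb b) s n = 0 := by
    intro n hn
    have : ¬ IsPrimePow n := by
      intro hc
      apply hn
      exact ⟨Nat.Primes.prodNatEquiv.symm ⟨n, hc⟩, by
        have := Nat.Primes.prodNatEquiv.apply_symm_apply ⟨n, hc⟩
        exact congrArg Subtype.val this⟩
    simp [LSeries.term, bb, this]
  have h2 : HasSum (LSeries.term (bb b) s ∘ g) (LSeries (bb b) s) :=
    (Function.Injective.hasSum_iff hg hz).mpr h1
  have h3 := h2.prod_fiberwise (fun p => (h2.summable.prod_factor p).hasSum)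
  have h4 : (fun p : Nat.Primes => ∑' l : ℕ, (LSeries.term (bb b) s ∘ g) (p, l))
      = fun p : Nat.Primes => ∑' l : ℕ, b ((p : ℕ) ^ (l + 1)) *
        ((p : ℕ) : ℂ) ^ (-((l : ℂ) + 1) * s) := by
    funext p
    congr 1
    funext l
    have hp0 : ((p : ℕ) : ℂ) ≠ 0 := by exact_mod_cast p.prop.ne_zero
    have hpp : IsPrimePow ((p : ℕ) ^ (l + 1)) := p.prop.isPrimePow.pow (by omega)
    have hne : (p : ℕ) ^ (l + 1) ≠ 0 := pow_ne_zero _ p.prop.ne_zero
    simp only [Function.comp, g, LSeries.term_of_ne_zero hne, bb, if_pos hpp]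
    rw [div_eq_mul_inv]
    congr 1
    rw [neg_mul, Complex.cpow_neg]
    congr 1
    push_cast
    rw [← Complex.natCast_cpow_natCast_mul]
    push_cast
    rfl
  rw [h4] at h3
  exact hv.unique h3.cexp

end Pool.Agent.H11.Selberg
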