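import Mathlib
import Pool.Agent.H11.Selberg.Log2

set_option autoImplicit false

namespace Pool.Agent.H11.Selberg

open Complex Classical Filter

theorem abscissa_le_one (a : ℕ → ℂ) (h : ∀ s : ℂ, 1 < s.re → LSeriesSummable a s) :
    LSeries.abscissaOfAbsConv a ≤ 1 := by
  have := LSeries.abscissaOfAbsConv_le_of_forall_lt_LSeriesSummable (f := a) (x := 1)
    (fun y hy => h y (by simpa using hy))
  simpa using this

theorem bb_abscissa (b : ℕ → ℂ) (θ C : ℝ)
    (hb : ∀ p : ℕ, p.Prime → ∀ l : ℕ, 1 ≤ l → ‖b (p ^ l)‖ ≤ C * ((p : ℝ) ^ l) ^ θ) :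
    LSeries.abscissaOfAbsConv (bb b) ≤ (θ : EReal) + 1 := by
  apply LSeries.abscissaOfAbsConv_le_of_le_const_mul_rpow
  refine ⟨|C|, fun n hn => ?_⟩
  simp only [bb]
  split_ifs with h
  · rw [isPrimePow_nat_iff] at h
    obtain ⟨p, k, hp, hk, rfl⟩ := h
    refine (hb p hp k hk).trans ?_
    push_cast
    exact mul_le_mul_of_nonneg_right (le_abs_self C) (by positivity)
  · rw [norm_zero]; positivity

theorem sum_antidiag_prime (f g : ℕ → ℂ) (p : ℕ) (hp : p.Prime) :
    (∑ x ∈ p.divisorsAntidiagonal, f x.1 * g x.2) = f 1 * g p + f p * g 1 := by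
  rw [Nat.sum_divisorsAntidiagonal (fun i j => f i * g j), Nat.Prime.sum_divisors hp]
  rw [Nat.div_self hp.pos, Nat.div_one]
  ring

/-- The values of `b` at the primes are the Dirichlet coefficients. -/
theorem b_prime (a : ℕ → ℂ) (ha1 : a 1 = 1) (ha : ∀ s : ℂ, 1 < s.re → LSeriesSummable a s)
    (b : ℕ → ℂ) (θ C : ℝ) (hθ : θ < 1 / 2)
    (hb : ∀ p : ℕ, p.Prime → ∀ l : ℕ, 1 ≤ l → ‖b (p ^ l)‖ ≤ C * ((p : ℝ) ^ l) ^ θ)
    (hE : ∀ s : ℂ, 1 < s.re → HasProd
      (fun p : Nat.Primes => Complex.exp (∑' l : ℕ, b ((p : ℕ) ^ (l + 1)) *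
        ((p : ℕ) : ℂ) ^ (-((l : ℂ) + 1) * s))) (LSeries a s))
    (p : ℕ) (hp : p.Prime) : b p = a p := by
  have hab : LSeries.abscissaOfAbsConv (bb b) ≤ (θ : EReal) + 1 := bb_abscissa b θ C hb
  have haa := abscissa_le_one a ha
  have hθ2 : ∀ s : ℂ, 3 / 2 < s.re → LSeries.abscissaOfAbsConv (bb b) < s.re := by
    intro s hs
    refine lt_of_le_of_lt hab ?_
    have : ((θ : EReal) + 1) = ((θ + 1 : ℝ) : EReal) := by push_cast; rfl
    rw [this, EReal.coe_lt_coe_iff]
    linarith
  have ha2 : ∀ s : ℂ, 3 / 2 < s.re → LSeries.abscissaOfAbsConv a < s.re := by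
    intro s hs
    refine lt_of_le_of_lt haa ?_
    have : (1 : EReal) = ((1 : ℝ) : EReal) := by norm_num
    rw [this, EReal.coe_lt_coe_iff]
    linarith
  have key : ∀ s : ℂ, 3 / 2 < s.re → LSeries a s = Complex.exp (LSeries (bb b) s) := by
    intro s hs
    exact exp_bb b s (LSeriesSummable_of_abscissaOfAbsConv_lt_re (hθ2 s hs)) _
      (hE s (by linarith))
  have key2 : ∀ s : ℂ, 3 / 2 < s.re → LSeries (LSeries.logMul a) s
      = LSeries (LSeries.convolution a (LSeries.logMul (bb b))) s := by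
    intro s hs
    have h1 := LSeries_hasDerivAt (ha2 s hs)
    have h2 := (LSeries_hasDerivAt (hθ2 s hs)).cexp
    have h3 : (LSeries a) =ᶠ[nhds s] fun z => Complex.exp (LSeries (bb b) z) := by
      have : {z : ℂ | 3 / 2 < z.re} ∈ nhds s :=
        (isOpen_lt continuous_const Complex.continuous_re).mem_nhds hs
      filter_upwards [this] with z hz
      exact key z hz
    have h4 := (h1.congr_of_eventuallyEq h3.symm).unique h2
    rw [LSeries_convolution' (LSeriesSummable_of_abscissaOfAbsConv_lt_re (ha2 s hs))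
      (LSeriesSummable_logMul_of_lt_re (hθ2 s hs)), key s hs]
    linear_combination -h4
  have h5 : LSeries.logMul a p = (LSeries.convolution a (LSeries.logMul (bb b))) p := by
    apply LSeries.eq_of_LSeries_eventually_eq _ _ _ hp.ne_zero
    · rw [LSeries.abscissaOfAbsConv_logMul]
      exact (ha2 2 (by norm_num)).trans (EReal.coe_lt_top _)
    · refine lt_of_le_of_lt (LSeries.abscissaOfAbsConv_convolution_le _ _) ?_
      rw [LSeries.abscissaOfAbsConv_logMul]
      exact max_lt ((ha2 2 (by norm_num)).trans (EReal.coe_lt_top _))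
        ((hθ2 2 (by norm_num)).trans (EReal.coe_lt_top _))
    · filter_upwards [eventually_gt_atTop (3 / 2 : ℝ)] with x hx
      exact key2 x (by simpa using hx)
  rw [LSeries.convolution_def] at h5
  simp only at h5
  rw [sum_antidiag_prime _ _ p hp] at h5
  have hpp : IsPrimePow p := hp.isPrimePow
  have hl : Complex.log p ≠ 0 := by
    rw [← Complex.natCast_log]
    exact_mod_cast (Real.log_pos (by exact_mod_cast hp.one_lt)).ne'
  simp only [LSeries.logMul, bb, if_pos hpp, ha1] at h5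
  simp only [Nat.cast_one, Complex.log_one, zero_mul, mul_zero, add_zero, one_mul] at h5
  exact (mul_left_cancel₀ hl h5).symm

end Pool.Agent.H11.Selberg
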