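import Mathlib
import Pool.Agent.H11.Selberg.Log3

set_option autoImplicit false

namespace Pool.Agent.H11.Selberg

open Complex Classical Filter

/-- A function on `Re s > 1` whose logarithm is a Dirichlet series over the primes up to a
bounded function, with a polynomial growth bound. -/
structure LogData (c : ℕ → ℂ) (F R : ℂ → ℂ) : Prop where
  summable : ∀ s : ℂ, 1 < s.re → LSeriesSummable c s
  diff : ∀ s : ℂ, 1 < s.re → DifferentiableAt ℂ R s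
  bound : ∃ K : ℝ, 0 ≤ K ∧ ∀ s : ℂ, 1 < s.re → ‖R s‖ ≤ K
  exp_eq : ∀ s : ℂ, 1 < s.re → F s = Complex.exp (LSeries c s + R s)
  growth : ∃ (K : ℝ) (N : ℕ), 0 ≤ K ∧ ∀ δ τ : ℝ, 0 < δ → δ ≤ 1 →
    ‖LSeries c (1 + δ + τ * I)‖ ≤ K * (1 + |τ|) ^ N / δ ^ N

theorem LSeries_diff (c : ℕ → ℂ) (h : ∀ s : ℂ, 1 < s.re → LSeriesSummable c s) (s : ℂ)
    (hs : 1 < s.re) : DifferentiableAt ℂ (LSeries c) s := by
  apply (LSeries_hasDerivAt (f := c) _).differentiableAt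
  refine lt_of_le_of_lt (abscissa_le_one c h) ?_
  have : (1 : EReal) = ((1 : ℝ) : EReal) := by norm_num
  rw [this, EReal.coe_lt_coe_iff]
  exact hs

theorem b2_abscissa (b : ℕ → ℂ) (hb : Summable (fun n : ℕ => ‖b2 b n‖ / (n : ℝ))) (s : ℂ)
    (hs : 1 < s.re) : DifferentiableAt ℂ (LSeries (b2 b)) s :=
  LSeries_diff _ (fun s hs => b2_LSeriesSummable b hb s hs.le) s hs

/-- If the Euler product data are given then the logarithm has the required shape. -/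
theorem log_rep (a : ℕ → ℂ) (F : ℂ → ℂ) (ha1 : a 1 = 1)
    (ha : ∀ s : ℂ, 1 < s.re → LSeriesSummable a s)
    (hF : ∀ s : ℂ, 1 < s.re → F s = LSeries a s)
    (b : ℕ → ℂ) (θ C : ℝ) (hθ : θ < 1 / 2)
    (hb : ∀ p : ℕ, p.Prime → ∀ l : ℕ, 1 ≤ l → ‖b (p ^ l)‖ ≤ C * ((p : ℝ) ^ l) ^ θ)
    (hE : ∀ s : ℂ, 1 < s.re → HasProd
      (fun p : Nat.Primes => Complex.exp (∑' l : ℕ, b ((p : ℕ) ^ (l + 1)) *
        ((p : ℕ) : ℂ) ^ (-((l : ℂ) + 1) * s))) (F s)) :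
    (∀ s : ℂ, 1 < s.re → DifferentiableAt ℂ (LSeries (b2 b)) s) ∧
    (∃ K : ℝ, 0 ≤ K ∧ ∀ s : ℂ, 1 < s.re → ‖LSeries (b2 b) s‖ ≤ K) ∧
    (∀ s : ℂ, 1 < s.re → F s = Complex.exp (LSeries (b1 a) s + LSeries (b2 b) s)) := by
  have h1 := b2_summable b θ C hθ hb
  refine ⟨b2_abscissa b h1, ⟨∑' n : ℕ, ‖b2 b n‖ / (n : ℝ), ?_, fun s hs => b2_bound b h1 s hs.le⟩,
    ?_⟩
  · exact tsum_nonneg (fun n => by positivity)
  · intro s hs
    have hbp := b_prime a ha1 ha b θ C hθ hb (fun s hs => by rw [← hF s hs]; exact hE s hs)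
    have e1 : bb b = b1 a + b2 b := by
      funext n
      simp only [bb, b1, b2, Pi.add_apply]
      by_cases h2 : n.Prime
      · simp [h2, h2.isPrimePow, hbp n h2]
      · simp [h2]
    have s1 := b1_LSeriesSummable a s (ha s hs)
    have s2 := b2_LSeriesSummable b h1 s hs.le
    rw [← LSeries_add s1 s2, ← e1]
    exact exp_bb b s (by rw [e1]; exact s1.add s2) _ (hE s hs)

end Pool.Agent.H11.Selberg
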