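import Mathlib
import Pool.Agent.H11.Selberg.LogData

set_option autoImplicit false

namespace Pool.Agent.H11.Selberg

open Complex Filter Metric

theorem LSeries_norm_le (c : ℕ → ℂ) (s : ℂ) (hs : LSeriesSummable c (s.re : ℂ)) :
    ‖LSeries c s‖ ≤ ∑' n : ℕ, ‖LSeries.term c (s.re : ℂ) n‖ := by
  unfold LSeries
  apply tsum_of_norm_bounded hs.norm.hasSum
  intro n
  rw [LSeries.norm_term_eq, LSeries.norm_term_eq, Complex.ofReal_re]

theorem rpow_bound (A : ℝ) (x y : ℝ) (hx : 1 ≤ x) (hxy : x ≤ y) : x ^ A ≤ y ^ (⌈|A|⌉₊) := by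
  have h1 : x ^ A ≤ x ^ ((⌈|A|⌉₊ : ℕ) : ℝ) :=
    Real.rpow_le_rpow_of_exponent_le hx ((le_abs_self A).trans (Nat.le_ceil _))
  rw [Real.rpow_natCast] at h1
  exact h1.trans (pow_le_pow_left₀ (by linarith) hxy _)

theorem growth_of (c : ℕ → ℂ) (F R : ℂ → ℂ)
    (hc : ∀ s : ℂ, 1 < s.re → LSeriesSummable c s)
    (hR : ∀ s : ℂ, 1 < s.re → DifferentiableAt ℂ R s)
    (hK : ∃ K : ℝ, 0 ≤ K ∧ ∀ s : ℂ, 1 < s.re → ‖R s‖ ≤ K)
    (hF : ∀ s : ℂ, 1 < s.re → F s = Complex.exp (LSeries c s + R s))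
    (m : ℕ) (A C : ℝ)
    (hG : ∀ s : ℂ, 1 < s.re → ‖F s‖ ≤ C * Real.exp (‖s‖ ^ A) / ‖s - 1‖ ^ m) :
    ∃ (K : ℝ) (N : ℕ), 0 ≤ K ∧ ∀ δ τ : ℝ, 0 < δ → δ ≤ 1 →
      ‖LSeries c (1 + δ + τ * I)‖ ≤ K * (1 + |τ|) ^ N / δ ^ N := by
  obtain ⟨K, hK0, hK⟩ := hK
  set N1 : ℕ := ⌈|A|⌉₊ with hN1
  set C' : ℝ := max C 1 with hC'
  set K2 : ℝ := (∑' n : ℕ, ‖LSeries.term c ((2 : ℝ) : ℂ) n‖) + K with hK2
  have hC1 : 1 ≤ C' := le_max_right _ _
  have hlC : 0 ≤ Real.log C' := Real.log_nonneg hC1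
  have hK20 : 0 ≤ K2 := add_nonneg (tsum_nonneg (fun n => norm_nonneg _)) hK0
  refine ⟨4 * (Real.log C' + 3 ^ N1 + 2 * m) + 4 * K2 + K, N1 + 2, by positivity, ?_⟩
  intro δ τ hδ hδ1
  set z0 : ℂ := 2 + τ * I with hz0
  set f : ℂ → ℂ := fun z => LSeries c (z0 + z) + R (z0 + z) with hf
  set M : ℝ := Real.log C' + 3 ^ N1 * (1 + |τ|) ^ N1 + m * (2 / δ) with hM
  have hz0re : z0.re = 2 := by simp [hz0]
  have hre : ∀ z ∈ ball (0 : ℂ) (1 - δ / 2), 1 + δ / 2 < (z0 + z).re := by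
    intro z hz
    rw [mem_ball_zero_iff] at hz
    have := Complex.abs_re_le_norm z
    rw [Complex.add_re, hz0re]
    have h2 := neg_abs_le z.re
    linarith
  have hM0 : 0 < M := by
    have : (0 : ℝ) < 3 ^ N1 * (1 + |τ|) ^ N1 := by positivity
    have h2 : (0 : ℝ) ≤ m * (2 / δ) := by positivity
    linarith
  have hdiff : DifferentiableOn ℂ f (ball 0 (1 - δ / 2)) := by
    intro z hz
    apply DifferentiableAt.differentiableWithinAt
    have h1 : 1 < (z0 + z).re := by have := hre z hz; linarith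
    have e : DifferentiableAt ℂ (fun z : ℂ => z0 + z) z := by fun_prop
    exact ((LSeries_diff c hc _ h1).comp z e).add ((hR _ h1).comp z e)
  have hmaps : Set.MapsTo f (ball 0 (1 - δ / 2)) {z | z.re ≤ M} := by
    intro z hz
    simp only [Set.mem_setOf_eq]
    have h1 := hre z hz
    have h1' : 1 < (z0 + z).re := by linarith
    set w := z0 + z with hw
    have h2 := hF w h1'
    have h3 : ‖F w‖ = Real.exp (f z).re := by rw [h2, Complex.norm_exp]
    have h4 := hG w h1'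
    have hw1 : 1 ≤ ‖w‖ := by
      have := Complex.abs_re_le_norm w
      have h5 := le_abs_self w.re
      linarith
    have hw3 : ‖w‖ ≤ 3 * (1 + |τ|) := by
      have e1 : ‖w‖ ≤ ‖z0‖ + ‖z‖ := norm_add_le _ _
      have e2 : ‖z0‖ ≤ 2 + |τ| := by
        refine (norm_add_le _ _).trans ?_
        simp
      have e3 : ‖z‖ < 1 := by
        rw [mem_ball_zero_iff] at hz
        linarith
      have e4 := abs_nonneg τ
      linarith
    have hw4 : δ / 2 ≤ ‖w - 1‖ := by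
      have := Complex.abs_re_le_norm (w - 1)
      have h5 := le_abs_self (w - 1).re
      rw [Complex.sub_re, Complex.one_re] at h5
      rw [Complex.sub_re, Complex.one_re] at this
      linarith
    have h5 : ‖F w‖ ≤ C' * Real.exp (3 ^ N1 * (1 + |τ|) ^ N1) / (δ / 2) ^ m := by
      refine h4.trans ?_
      apply div_le_div₀ (by positivity) _ (by positivity)
        (pow_le_pow_left₀ (by positivity) hw4 m)
      apply mul_le_mul (le_max_left _ _) _ (by positivity) (by positivity)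
      apply Real.exp_le_exp.mpr
      rw [← mul_pow]
      exact rpow_bound A _ _ hw1 hw3
    rw [h3] at h5
    have h6 := Real.log_le_log (Real.exp_pos _) h5
    rw [Real.log_exp, Real.log_div (by positivity) (by positivity), Real.log_mul (by positivity)
      (by positivity), Real.log_exp, Real.log_pow] at h6
    have h7 : - Real.log (δ / 2) ≤ 2 / δ := by
      rw [← Real.log_inv, inv_div]
      have := Real.log_le_sub_one_of_pos (show 0 < 2 / δ by positivity)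
      linarith
    have h8 : -((m : ℝ) * Real.log (δ / 2)) ≤ m * (2 / δ) := by
      rw [← mul_neg]
      exact mul_le_mul_of_nonneg_left h7 (by positivity)
    linarith
  have hz : (-(1 - δ : ℝ) : ℂ) ∈ ball (0 : ℂ) (1 - δ / 2) := by
    rw [mem_ball_zero_iff, norm_neg, Complex.norm_real, Real.norm_eq_abs, abs_of_nonneg
      (by linarith)]
    linarith
  have hbc := Complex.borelCaratheodory hM0 hdiff hmaps (by linarith) hz
  have hnz : ‖(-(1 - δ : ℝ) : ℂ)‖ = 1 - δ := by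
    rw [norm_neg, Complex.norm_real, Real.norm_eq_abs, abs_of_nonneg (by linarith)]
  rw [hnz] at hbc
  have hf0 : ‖f 0‖ ≤ K2 := by
    simp only [hf, add_zero]
    refine (norm_add_le _ _).trans ?_
    rw [hK2]
    apply add_le_add
    · have := LSeries_norm_le c z0 (by rw [hz0re]; exact hc _ (by simp))
      rw [hz0re] at this
      exact this
    · exact hK z0 (by rw [hz0re]; norm_num)
  have hpt : z0 + (-(1 - δ : ℝ) : ℂ) = 1 + δ + τ * I := by
    rw [hz0]; push_cast; ring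
  have hfz : f (-(1 - δ : ℝ) : ℂ) = LSeries c (1 + δ + τ * I) + R (1 + δ + τ * I) := by
    simp only [hf, hpt]
  have hRb : ‖R (1 + δ + τ * I)‖ ≤ K := by
    apply hK
    simp
    exact hδ
  have h1 : ‖LSeries c (1 + δ + τ * I)‖ ≤ ‖f (-(1 - δ : ℝ) : ℂ)‖ + K := by
    have : LSeries c (1 + δ + τ * I) = f (-(1 - δ : ℝ) : ℂ) - R (1 + δ + τ * I) := by
      rw [hfz]; ring
    rw [this]
    exact (norm_sub_le _ _).trans (by linarith)
  have hden : (1 - δ / 2 - (1 - δ)) = δ / 2 := by ring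
  rw [hden] at hbc
  have h2 : ‖f (-(1 - δ : ℝ) : ℂ)‖ ≤ (4 * M + 4 * K2) / δ := by
    refine hbc.trans ?_
    have e1 : 2 * M * (1 - δ) / (δ / 2) ≤ 4 * M / δ := by
      rw [div_le_div_iff₀ (by positivity) hδ]
      nlinarith [mul_pos hM0 hδ]
    have e2 : ‖f 0‖ * (1 - δ / 2 + (1 - δ)) / (δ / 2) ≤ 4 * K2 / δ := by
      rw [div_le_div_iff₀ (by positivity) hδ]
      have : ‖f 0‖ * (1 - δ / 2 + (1 - δ)) ≤ K2 * 2 := by
        apply mul_le_mul hf0 (by linarith) (by linarith) hK20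
      nlinarith
    calc _ ≤ 4 * M / δ + 4 * K2 / δ := add_le_add e1 e2
      _ = _ := by ring
  refine h1.trans ?_
  have hT1 : (1 : ℝ) ≤ 1 + |τ| := by have := abs_nonneg τ; linarith
  have hT : (1 : ℝ) ≤ (1 + |τ|) ^ N1 := one_le_pow₀ hT1
  have hd1 : 1 ≤ 1 / δ := by rw [le_div_iff₀ hδ]; linarith
  have hMle : M ≤ (Real.log C' + 3 ^ N1 + 2 * m) * ((1 + |τ|) ^ N1 / δ) := by
    have e0 : (1 : ℝ) ≤ (1 + |τ|) ^ N1 / δ := by
      rw [le_div_iff₀ hδ]; nlinarith
    have e1 : Real.log C' ≤ Real.log C' * ((1 + |τ|) ^ N1 / δ) := le_mul_of_one_le_right hlC e0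
    have e2 : (3 : ℝ) ^ N1 * (1 + |τ|) ^ N1 ≤ 3 ^ N1 * ((1 + |τ|) ^ N1 / δ) := by
      apply mul_le_mul_of_nonneg_left _ (by positivity)
      rw [le_div_iff₀ hδ]
      nlinarith
    have e3 : (m : ℝ) * (2 / δ) ≤ 2 * m * ((1 + |τ|) ^ N1 / δ) := by
      rw [show (m : ℝ) * (2 / δ) = 2 * m * (1 / δ) by ring]
      apply mul_le_mul_of_nonneg_left _ (by positivity)
      apply div_le_div_of_nonneg_right hT hδ.le
    calc M ≤ Real.log C' * ((1 + |τ|) ^ N1 / δ) + 3 ^ N1 * ((1 + |τ|) ^ N1 / δ)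
        + 2 * m * ((1 + |τ|) ^ N1 / δ) := by
          rw [hM]; linarith
      _ = _ := by ring
  have hfin : (4 * M + 4 * K2) / δ + K ≤
      (4 * (Real.log C' + 3 ^ N1 + 2 * m) + 4 * K2 + K) * ((1 + |τ|) ^ N1 / δ ^ 2) := by
    have e0 : (1 : ℝ) ≤ 1 / δ ^ 2 := by
      rw [le_div_iff₀ (by positivity)]; nlinarith
    have e1 : 4 * M / δ ≤ 4 * (Real.log C' + 3 ^ N1 + 2 * m) * ((1 + |τ|) ^ N1 / δ ^ 2) := by
      calc 4 * M / δ ≤ 4 * ((Real.log C' + 3 ^ N1 + 2 * m) * ((1 + |τ|) ^ N1 / δ)) / δ := by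
            apply div_le_div_of_nonneg_right _ hδ.le
            linarith
        _ = _ := by field_simp
    have e2 : 1 / δ ≤ (1 + |τ|) ^ N1 / δ ^ 2 := by
      rw [div_le_div_iff₀ hδ (by positivity)]
      nlinarith
    have e3 : 4 * K2 / δ ≤ 4 * K2 * ((1 + |τ|) ^ N1 / δ ^ 2) := by
      rw [div_eq_mul_one_div]
      exact mul_le_mul_of_nonneg_left e2 (by positivity)
    have e4 : K ≤ K * ((1 + |τ|) ^ N1 / δ ^ 2) := by
      apply le_mul_of_one_le_right hK0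
      exact hd1.trans e2
    calc (4 * M + 4 * K2) / δ + K = 4 * M / δ + 4 * K2 / δ + K := by ring
      _ ≤ _ := by nlinarith
  refine (add_le_add_left h2 K).trans (hfin.trans ?_)
  rw [mul_div_assoc]
  apply mul_le_mul_of_nonneg_left _ (by positivity)
  apply div_le_div₀ (by positivity) _ (by positivity) _
  · exact pow_le_pow_right₀ hT1 (by omega)
  · exact pow_le_pow_of_le_one hδ.le hδ1 (by omega)

end Pool.Agent.H11.Selberg
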