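import Mathlib
import Pool.Agent.H11.Selberg.LogData

set_option autoImplicit false

namespace Pool.Agent.H11.Selberg

open Complex Filter Metric Topology

theorem local_log (c : ℕ → ℂ) (F R : ℂ → ℂ)
    (hc : ∀ s : ℂ, 1 < s.re → LSeriesSummable c s)
    (hR : ∀ s : ℂ, 1 < s.re → DifferentiableAt ℂ R s)
    (hF : ∀ s : ℂ, 1 < s.re → F s = Complex.exp (LSeries c s + R s))
    (s0 : ℂ) (hs0 : s0.re = 1) (m0 : ℤ) (g : ℂ → ℂ) (hg : AnalyticAt ℂ g s0) (hg0 : g s0 ≠ 0)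
    (hFg : ∀ᶠ s in 𝓝 s0, 1 < s.re → F s = (s - s0) ^ m0 * g s) :
    ∃ r : ℝ, 0 < r ∧ ∃ K : ℝ, 0 ≤ K ∧ ∀ s : ℂ, 1 < s.re → ‖s - s0‖ < r →
      ‖LSeries c s + R s - m0 * Complex.log (s - s0)‖ ≤ K := by
  obtain ⟨c0, hc0, hc0'⟩ : ∃ c0 : ℝ, 0 < c0 ∧ c0 < ‖g s0‖ :=
    ⟨‖g s0‖ / 2, by positivity, by have := norm_pos_iff.mpr hg0; linarith⟩
  obtain ⟨C0, hC0⟩ : ∃ C0 : ℝ, ‖deriv g s0‖ < C0 := exists_gt _
  have e1 : ∀ᶠ s in 𝓝 s0, c0 < ‖g s‖ :=
    hg.continuousAt.norm.eventually (lt_mem_nhds hc0')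
  have e2 : ∀ᶠ s in 𝓝 s0, ‖deriv g s‖ < C0 :=
    hg.deriv.continuousAt.norm.eventually (gt_mem_nhds hC0)
  have e3 : ∀ᶠ s in 𝓝 s0, DifferentiableAt ℂ g s := by
    filter_upwards [hg.eventually_analyticAt] with s hs
    exact hs.differentiableAt
  obtain ⟨r, hr, hball⟩ := Metric.eventually_nhds_iff_ball.mp (e1.and (e2.and (e3.and hFg)))
  set D : Set ℂ := ball s0 r ∩ {s : ℂ | 1 < s.re} with hD
  have hDc : Convex ℝ D := (convex_ball s0 r).inter (convex_halfSpace_re_gt 1)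
  set h : ℂ → ℂ := fun s => LSeries c s + R s - m0 * Complex.log (s - s0) with hh
  have hslit : ∀ s : ℂ, 1 < s.re → s - s0 ∈ slitPlane := by
    intro s hs
    left
    rw [Complex.sub_re, hs0]
    linarith
  have hdiff : ∀ s ∈ D, DifferentiableAt ℂ h s := by
    intro s hs
    have hs1 : 1 < s.re := hs.2
    have d1 := LSeries_diff c hc s hs1
    have d2 := hR s hs1
    have d3 : DifferentiableAt ℂ (fun z => Complex.log (z - s0)) s :=
      DifferentiableAt.clog (by fun_prop) (hslit s hs1)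
    exact (d1.add d2).sub (d3.const_mul _)
  have hexp : ∀ s ∈ D, Complex.exp (h s) = g s := by
    intro s hs
    have hs1 : 1 < s.re := hs.2
    have hne : s - s0 ≠ 0 := slitPlane_ne_zero (hslit s hs1)
    have h1 := (hball s hs.1).2.2.2 hs1
    rw [hF s hs1] at h1
    simp only [hh]
    rw [Complex.exp_sub, h1, Complex.exp_int_mul, Complex.exp_log hne]
    field_simp
  have hopen : IsOpen D := isOpen_ball.inter (isOpen_lt continuous_const Complex.continuous_re)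
  have hderiv : ∀ s ∈ D, ‖deriv h s‖ ≤ C0 / c0 := by
    intro s hs
    have h1 : HasDerivAt (fun z => Complex.exp (h z)) (Complex.exp (h s) * deriv h s) s :=
      (hdiff s hs).hasDerivAt.cexp
    have h2 : (fun z => Complex.exp (h z)) =ᶠ[𝓝 s] g := by
      filter_upwards [hopen.mem_nhds hs] with z hz
      exact hexp z hz
    have h3 : deriv g s = Complex.exp (h s) * deriv h s := by
      rw [← h2.deriv_eq]
      exact h1.deriv
    have hb := hball s hs.1
    have hg1 : c0 < ‖g s‖ := hb.1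
    have h4 : ‖deriv g s‖ = ‖g s‖ * ‖deriv h s‖ := by
      rw [h3, hexp s hs, norm_mul]
    have h5 : ‖g s‖ * ‖deriv h s‖ ≤ C0 := by
      rw [← h4]; exact hb.2.1.le
    rw [le_div_iff₀ hc0]
    have := norm_nonneg (deriv h s)
    nlinarith
  have hC00 : 0 ≤ C0 := (norm_nonneg _).trans hC0.le
  set s1 : ℂ := s0 + (r / 2 : ℝ) with hs1
  have hs1D : s1 ∈ D := by
    constructor
    · rw [mem_ball, dist_eq_norm, hs1, add_sub_cancel_left, Complex.norm_real, Real.norm_eq_abs,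
        abs_of_pos (by positivity)]
      linarith
    · show 1 < s1.re
      rw [hs1, Complex.add_re, hs0, Complex.ofReal_re]
      linarith
  refine ⟨r, hr, ‖h s1‖ + C0 / c0 * (2 * r), by positivity, ?_⟩
  intro s hs hsr
  have hsD : s ∈ D := ⟨by rw [mem_ball, dist_eq_norm]; exact hsr, hs⟩
  have h6 := hDc.norm_image_sub_le_of_norm_deriv_le hdiff hderiv hs1D hsD
  have h7 : ‖s - s1‖ ≤ 2 * r := by
    have a1 : ‖s1 - s0‖ < r := by
      have := hs1D.1
      rwa [mem_ball, dist_eq_norm] at this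
    calc ‖s - s1‖ = ‖(s - s0) - (s1 - s0)‖ := by congr 1; ring
      _ ≤ ‖s - s0‖ + ‖s1 - s0‖ := norm_sub_le _ _
      _ ≤ 2 * r := by linarith
  have h8 : ‖h s‖ ≤ ‖h s1‖ + ‖h s - h s1‖ := by
    have : h s = h s1 + (h s - h s1) := by ring
    conv_lhs => rw [this]
    exact norm_add_le _ _
  have h9 : C0 / c0 * ‖s - s1‖ ≤ C0 / c0 * (2 * r) :=
    mul_le_mul_of_nonneg_left h7 (by positivity)
  show ‖h s‖ ≤ _
  linarith

end Pool.Agent.H11.Selberg
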