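import Mathlib
import Pool.Agent.H11.Selberg.Local

set_option autoImplicit false

namespace Pool.Agent.H11.Selberg

open Complex Filter Metric Topology

/-- Uniform logarithmic behaviour on vertical lines approaching `1 + i t`. -/
def HasLog (c : ℕ → ℂ) (t : ℝ) (m0 : ℤ) : Prop :=
  ∃ (K : ℝ) (N : ℕ), 0 ≤ K ∧ ∀ δ ξ : ℝ, 0 < δ → δ ≤ 1 →
    ‖LSeries c (1 + t * I + δ * (1 - 2 * Real.pi * ξ * I)) - m0 * (Real.log δ : ℂ)‖
      ≤ K * (1 + |ξ|) ^ N

theorem hasLog_of (c : ℕ → ℂ) (F R : ℂ → ℂ) (hL : LogData c F R) (t : ℝ) (m0 : ℤ) (g : ℂ → ℂ)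
    (hg : AnalyticAt ℂ g (1 + t * I)) (hg0 : g (1 + t * I) ≠ 0)
    (hFg : ∀ᶠ s in 𝓝 (1 + t * I : ℂ), 1 < s.re → F s = (s - (1 + t * I)) ^ m0 * g s) :
    HasLog c t m0 := by
  obtain ⟨r, hr, K1, hK1, hloc⟩ := local_log c F R hL.summable hL.diff hL.exp_eq (1 + t * I)
    (by simp) m0 g hg hg0 hFg
  obtain ⟨K2, hK2, hRb⟩ := hL.bound
  obtain ⟨K3, N, hK3, hgr⟩ := hL.growth
  set m1 : ℝ := |(m0 : ℝ)| with hm1
  have hm10 : 0 ≤ m1 := abs_nonneg _
  have hnm : ‖(m0 : ℂ)‖ = m1 := by rw [hm1, Complex.norm_intCast]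
  have hpi := Real.pi_pos
  have hpi4 := Real.pi_lt_four
  have hpi3 : Real.pi < 3.15 := Real.pi_lt_d2
  refine ⟨(K1 + K2 + m1 * 8) + K3 * ((8 + |t|) * (8 / r)) ^ N + m1 * (8 / r), 2 * N + 1,
    by positivity, ?_⟩
  intro δ ξ hδ hδ1
  have hξ1 : (1 : ℝ) ≤ 1 + |ξ| := by have := abs_nonneg ξ; linarith
  have hξN : ∀ j : ℕ, j ≤ 2 * N + 1 → (1 + |ξ|) ^ j ≤ (1 + |ξ|) ^ (2 * N + 1) :=
    fun j hj => pow_le_pow_right₀ hξ1 hj
  set z : ℂ := 1 - 2 * Real.pi * ξ * I with hz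
  have hzre : z.re = 1 := by simp [hz]
  have hzim : z.im = -(2 * Real.pi * ξ) := by simp [hz]
  have hz1 : 1 ≤ ‖z‖ := by
    have := Complex.abs_re_le_norm z
    rw [hzre, abs_one] at this
    exact this
  have hz2 : ‖z‖ ≤ 1 + 7 * |ξ| := by
    have := Complex.norm_le_abs_re_add_abs_im z
    rw [hzre, hzim, abs_one, abs_neg, abs_mul, abs_mul, abs_two, abs_of_pos hpi] at this
    have h2 := abs_nonneg ξ
    nlinarith
  have hz0 : z ≠ 0 := by
    intro h
    rw [h, norm_zero] at hz1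
    linarith
  set s : ℂ := 1 + t * I + δ * z with hs
  have hsre : s.re = 1 + δ := by
    simp only [hs, Complex.add_re, Complex.mul_re, Complex.ofReal_re, Complex.ofReal_im, hzre]
    simp
  have hs1 : 1 < s.re := by rw [hsre]; linarith
  have hlogδ : |Real.log δ| ≤ 1 / δ := by
    rw [abs_of_nonpos (Real.log_nonpos hδ.le hδ1), ← Real.log_inv]
    have := Real.log_le_sub_one_of_pos (show 0 < δ⁻¹ by positivity)
    rw [one_div]; linarith
  rcases lt_or_ge (δ * ‖z‖) r with hcase | hcase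
  · have hdist : ‖s - (1 + t * I)‖ < r := by
      rw [hs, add_sub_cancel_left, norm_mul, Complex.norm_real, Real.norm_eq_abs, abs_of_pos hδ]
      exact hcase
    have h1 := hloc s hs1 hdist
    have h2 : Complex.log (s - (1 + t * I)) = (Real.log δ : ℂ) + Complex.log z := by
      rw [hs, add_sub_cancel_left, Complex.log_ofReal_mul hδ hz0]
    rw [h2] at h1
    have h3 : ‖Complex.log z‖ ≤ 8 * (1 + |ξ|) := by
      have e1 := Complex.norm_le_abs_re_add_abs_im (Complex.log z)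
      rw [Complex.log_re, Complex.log_im] at e1
      have e2 : |Real.log ‖z‖| ≤ 7 * |ξ| := by
        rw [abs_of_nonneg (Real.log_nonneg hz1)]
        have := Real.log_le_sub_one_of_pos (show 0 < ‖z‖ by linarith)
        linarith
      have e3 := Complex.abs_arg_le_pi z
      have e4 := abs_nonneg ξ
      linarith
    have h4 : LSeries c s - m0 * (Real.log δ : ℂ)
        = (LSeries c s + R s - m0 * ((Real.log δ : ℂ) + Complex.log z)) - R s
          + m0 * Complex.log z := by ring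
    rw [h4]
    have h5 : ‖(m0 : ℂ) * Complex.log z‖ ≤ m1 * (8 * (1 + |ξ|)) := by
      rw [norm_mul, hnm]
      exact mul_le_mul_of_nonneg_left h3 hm10
    have h6 := hRb s hs1
    have h7 : ‖(LSeries c s + R s - m0 * ((Real.log δ : ℂ) + Complex.log z)) - R s
          + m0 * Complex.log z‖ ≤ K1 + K2 + m1 * (8 * (1 + |ξ|)) :=
      (norm_add_le _ _).trans (add_le_add ((norm_sub_le _ _).trans (add_le_add h1 h6)) h5)
    refine h7.trans ?_
    have h8 : K1 + K2 + m1 * (8 * (1 + |ξ|)) ≤ (K1 + K2 + m1 * 8) * (1 + |ξ|) ^ 1 := by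
      rw [pow_one]; nlinarith
    refine h8.trans ?_
    have h9 := hξN 1 (by omega)
    have h10 : 0 ≤ K3 * ((8 + |t|) * (8 / r)) ^ N + m1 * (8 / r) := by positivity
    calc (K1 + K2 + m1 * 8) * (1 + |ξ|) ^ 1 ≤ (K1 + K2 + m1 * 8) * (1 + |ξ|) ^ (2 * N + 1) :=
          mul_le_mul_of_nonneg_left h9 (by positivity)
      _ ≤ _ := by
          apply mul_le_mul_of_nonneg_right _ (by positivity)
          linarith
  · have hinv : 1 / δ ≤ (8 / r) * (1 + |ξ|) := by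
      rw [div_mul_eq_mul_div, div_le_div_iff₀ hδ hr]
      have e1 : δ * ‖z‖ ≤ δ * (1 + 7 * |ξ|) := mul_le_mul_of_nonneg_left hz2 hδ.le
      have e2 := abs_nonneg ξ
      nlinarith [mul_nonneg hδ.le e2]
    set τ : ℝ := t - 2 * Real.pi * ξ * δ with hτ
    have hsτ : s = 1 + δ + τ * I := by
      rw [hs, hz, hτ]; push_cast; ring
    have h1 := hgr δ τ hδ hδ1
    rw [← hsτ] at h1
    have hτb : 1 + |τ| ≤ (8 + |t|) * (1 + |ξ|) := by
      have e1 : |τ| ≤ |t| + 7 * |ξ| := by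
        rw [hτ]
        refine (abs_sub _ _).trans ?_
        rw [abs_mul, abs_mul, abs_mul, abs_two, abs_of_pos hpi, abs_of_pos hδ]
        have e2 := abs_nonneg ξ
        have e3 : 2 * Real.pi * |ξ| * δ ≤ 2 * Real.pi * |ξ| * 1 :=
          mul_le_mul_of_nonneg_left hδ1 (by positivity)
        nlinarith
      have e2 := abs_nonneg ξ
      have e3 := abs_nonneg t
      nlinarith [mul_nonneg e2 e3]
    have h2 : K3 * (1 + |τ|) ^ N / δ ^ N ≤
        K3 * ((8 + |t|) * (8 / r)) ^ N * (1 + |ξ|) ^ (2 * N) := by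
      have e1 : (1 + |τ|) ^ N ≤ ((8 + |t|) * (1 + |ξ|)) ^ N :=
        pow_le_pow_left₀ (by positivity) hτb N
      have e2 : 1 / δ ^ N ≤ ((8 / r) * (1 + |ξ|)) ^ N := by
        rw [← one_div_pow]
        exact pow_le_pow_left₀ (by positivity) hinv N
      calc K3 * (1 + |τ|) ^ N / δ ^ N = K3 * ((1 + |τ|) ^ N * (1 / δ ^ N)) := by ring
        _ ≤ K3 * (((8 + |t|) * (1 + |ξ|)) ^ N * ((8 / r) * (1 + |ξ|)) ^ N) := by
            apply mul_le_mul_of_nonneg_left _ hK3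
            exact mul_le_mul e1 e2 (by positivity) (by positivity)
        _ = _ := by
            rw [two_mul, pow_add, mul_pow, mul_pow, mul_pow]; ring
    have h3 : ‖(m0 : ℂ) * (Real.log δ : ℂ)‖ ≤ m1 * (8 / r) * (1 + |ξ|) ^ 1 := by
      rw [norm_mul, hnm, Complex.norm_real, Real.norm_eq_abs, pow_one, mul_assoc]
      exact mul_le_mul_of_nonneg_left (hlogδ.trans hinv) hm10
    refine (norm_sub_le _ _).trans ?_
    have h4 := hξN (2 * N) (by omega)
    have h5 := hξN 1 (by omega)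
    have h6 : K3 * ((8 + |t|) * (8 / r)) ^ N * (1 + |ξ|) ^ (2 * N)
        ≤ K3 * ((8 + |t|) * (8 / r)) ^ N * (1 + |ξ|) ^ (2 * N + 1) :=
      mul_le_mul_of_nonneg_left h4 (by positivity)
    have h7 : m1 * (8 / r) * (1 + |ξ|) ^ 1 ≤ m1 * (8 / r) * (1 + |ξ|) ^ (2 * N + 1) :=
      mul_le_mul_of_nonneg_left h5 (by positivity)
    have h8 : 0 ≤ (K1 + K2 + m1 * 8) * (1 + |ξ|) ^ (2 * N + 1) := by positivity
    calc ‖LSeries c s‖ + ‖(m0 : ℂ) * (Real.log δ : ℂ)‖
        ≤ K3 * ((8 + |t|) * (8 / r)) ^ N * (1 + |ξ|) ^ (2 * N + 1)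
          + m1 * (8 / r) * (1 + |ξ|) ^ (2 * N + 1) := by
            linarith [h1.trans h2]
      _ ≤ _ := by nlinarith

end Pool.Agent.H11.Selberg
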