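import Mathlib
import Pool.Agent.H11.Selberg.HasLog
import Pool.Agent.H11.Selberg.Growth

set_option autoImplicit false

namespace Pool.Agent.H11.Selberg

open Complex Filter Topology

theorem selberg_logData (a : ℕ → ℂ) (F : ℂ → ℂ) (h : IsSelberg a F) :
    ∃ R : ℂ → ℂ, LogData (b1 a) F R := by
  obtain ⟨b, θ, C, hθ, hb, hE⟩ := h.euler
  have hl := log_rep a F h.one h.summable h.eq_LSeries b θ C hθ hb hE
  refine ⟨LSeries (b2 b), fun s hs => b1_LSeriesSummable _ s (h.summable s hs), hl.1, hl.2.1,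
    hl.2.2, ?_⟩
  obtain ⟨m, G, hG, ⟨A, C', hbd⟩, hGF⟩ := h.continuation
  apply growth_of (b1 a) F (LSeries (b2 b)) (fun s hs => b1_LSeriesSummable _ s (h.summable s hs))
    hl.1 hl.2.1 hl.2.2 m A C'
  intro s hs
  have hs1 : s ≠ 1 := by
    rintro rfl
    simp at hs
  have h1 := hGF s hs1
  have h2 : 0 < ‖s - 1‖ ^ m := by
    have : 0 < ‖s - 1‖ := norm_pos_iff.mpr (sub_ne_zero.mpr hs1)
    positivity
  rw [le_div_iff₀ h2]
  calc ‖F s‖ * ‖s - 1‖ ^ m = ‖G s‖ := by rw [h1, norm_mul, norm_pow, mul_comm]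
    _ ≤ _ := hbd s

theorem selberg_mer (a : ℕ → ℂ) (F : ℂ → ℂ) (h : IsSelberg a F) (s0 : ℂ) :
    MeromorphicAt F s0 := by
  obtain ⟨m, G, hG, -, hGF⟩ := h.continuation
  have h1 : MeromorphicAt (fun s => G s / (s - 1) ^ m) s0 := by
    apply MeromorphicAt.div
    · exact (hG.analyticAt s0).meromorphicAt
    · apply MeromorphicAt.pow
      exact (analyticAt_id.sub analyticAt_const).meromorphicAt
  apply h1.congr
  have h2 : ∀ᶠ s in 𝓝[≠] s0, s ≠ 1 := by
    rcases eq_or_ne s0 1 with rfl | hne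
    · exact self_mem_nhdsWithin
    · exact nhdsWithin_le_nhds (isOpen_ne.mem_nhds hne)
  filter_upwards [h2] with s hs
  rw [hGF s hs]
  have : (s - 1) ^ m ≠ 0 := pow_ne_zero _ (sub_ne_zero.mpr hs)
  field_simp

theorem selberg_hasLog (a : ℕ → ℂ) (F : ℂ → ℂ) (h : IsSelberg a F) (t : ℝ) :
    HasLog (b1 a) t (ord F t) := by
  obtain ⟨R, hR⟩ := selberg_logData a F h
  set s0 : ℂ := 1 + t * I with hs0
  have hmer := selberg_mer a F h s0
  have hre : s0.re = 1 := by simp [hs0]
  have hne : meromorphicOrderAt F s0 ≠ ⊤ := by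
    intro htop
    rw [meromorphicOrderAt_eq_top_iff, eventually_nhdsWithin_iff, Metric.eventually_nhds_iff]
      at htop
    obtain ⟨e, he, h1⟩ := htop
    have h2 := h1 (y := s0 + (e / 2 : ℝ)) (by
      rw [dist_eq_norm, add_sub_cancel_left, Complex.norm_real, Real.norm_eq_abs,
        abs_of_pos (by positivity)]
      linarith) (by
      simp only [Set.mem_compl_iff, Set.mem_singleton_iff, add_eq_left]
      exact_mod_cast (by positivity : e / 2 ≠ 0))
    have h3 := hR.exp_eq (s0 + (e / 2 : ℝ)) (by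
      rw [Complex.add_re, hre, Complex.ofReal_re]
      linarith)
    rw [h2] at h3
    exact (Complex.exp_ne_zero _) h3.symm
  obtain ⟨n, hn⟩ := WithTop.ne_top_iff_exists.mp hne
  have hord : ord F t = n := by
    unfold ord
    rw [← hs0, ← hn]
    rfl
  rw [hord]
  obtain ⟨g, hg, hg0, hgF⟩ := (meromorphicOrderAt_eq_int_iff hmer).mp hn.symm
  apply hasLog_of (b1 a) F R hR t n g hg hg0
  rw [eventually_nhdsWithin_iff] at hgF
  filter_upwards [hgF] with s hs hs1
  have hss : s ≠ s0 := by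
    rintro rfl
    rw [hre] at hs1
    exact lt_irrefl _ hs1
  have := hs hss
  rw [smul_eq_mul] at this
  exact this

end Pool.Agent.H11.Selberg
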