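import Mathlib

set_option autoImplicit false

namespace Pool.Agent.H11.Selberg

open Complex Filter MeasureTheory FourierTransform Real

/-- a smooth bump function on the line -/
noncomputable def bmp : ContDiffBump (0 : ℝ) := ⟨1 / 2, 1, by norm_num, by norm_num⟩

/-- the smooth cutoff `φ` -/
noncomputable def phi (u : ℝ) : ℝ := bmp u

theorem phi_nonneg (u : ℝ) : 0 ≤ phi u := bmp.nonneg

theorem phi_le_one (u : ℝ) : phi u ≤ 1 := bmp.le_one

theorem phi_one (u : ℝ) (h : |u| ≤ 1 / 2) : phi u = 1 := by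
  apply bmp.one_of_mem_closedBall
  rw [mem_closedBall_zero_iff]
  exact h

theorem phi_zero (u : ℝ) (h : 1 ≤ |u|) : phi u = 0 := by
  apply bmp.zero_of_le_dist
  rw [dist_zero_right]
  exact h

theorem exists_kernel : ∃ ψ : ℝ → ℂ, Continuous ψ ∧ Integrable ψ ∧
    (∀ N : ℕ, Integrable (fun ξ => ‖ψ ξ‖ * (1 + |ξ|) ^ N)) ∧
    ∀ u : ℝ, ∫ ξ, ψ ξ * Complex.exp (-(u * (1 - 2 * Real.pi * ξ * I))) = phi u := by
  let f : ℝ → ℂ := fun u => ((Real.exp u * phi u : ℝ) : ℂ)
  have hcs : HasCompactSupport f := by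
    have h1 : HasCompactSupport phi := bmp.hasCompactSupport
    have h2 : HasCompactSupport (fun u => Real.exp u * phi u) := h1.mul_left
    exact h2.comp_left (g := fun x : ℝ => (x : ℂ)) (by simp)
  have hsm : ContDiff ℝ (⊤ : ℕ∞) f := by
    have h1 : ContDiff ℝ (⊤ : ℕ∞) phi := bmp.contDiff
    have h2 : ContDiff ℝ (⊤ : ℕ∞) (fun u => Real.exp u * phi u) := Real.contDiff_exp.mul h1
    exact Complex.ofRealCLM.contDiff.comp h2
  let Ψ : SchwartzMap ℝ ℂ := hcs.toSchwartzMap hsm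
  let ψ : SchwartzMap ℝ ℂ := 𝓕 Ψ
  have hψ : (ψ : ℝ → ℂ) = 𝓕 f := rfl
  have hinv : 𝓕⁻ (𝓕 f) = f := by
    apply Continuous.fourierInv_fourier_eq hsm.continuous
    · exact Ψ.integrable
    · rw [← hψ]; exact ψ.integrable
  refine ⟨ψ, ψ.continuous, ψ.integrable, ?_, ?_⟩
  · intro N
    have h1 : ∀ ξ : ℝ, (1 + |ξ|) ^ N ≤ 2 ^ N * (1 + |ξ| ^ N) := by
      intro ξ
      have h0 := abs_nonneg ξ
      rcases le_total |ξ| 1 with h | h
      · calc (1 + |ξ|) ^ N ≤ 2 ^ N := pow_le_pow_left₀ (by positivity) (by linarith) N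
          _ ≤ 2 ^ N * (1 + |ξ| ^ N) := by
            apply le_mul_of_one_le_right (by positivity)
            have : 0 ≤ |ξ| ^ N := by positivity
            linarith
      · calc (1 + |ξ|) ^ N ≤ (2 * |ξ|) ^ N := pow_le_pow_left₀ (by positivity) (by linarith) N
          _ = 2 ^ N * |ξ| ^ N := mul_pow _ _ _
          _ ≤ _ := by
            apply mul_le_mul_of_nonneg_left _ (by positivity)
            linarith
    have h2 : Integrable (fun ξ : ℝ => 2 ^ N * (‖ξ‖ ^ 0 * ‖ψ ξ‖ + ‖ξ‖ ^ N * ‖ψ ξ‖)) :=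
      ((ψ.integrable_pow_mul volume 0).add (ψ.integrable_pow_mul volume N)).const_mul _
    refine h2.mono' ?_ ?_
    · exact (ψ.continuous.norm.mul ((continuous_const.add continuous_abs).pow N)).aestronglyMeasurable
    · refine Eventually.of_forall (fun ξ => ?_)
      rw [Real.norm_eq_abs, abs_of_nonneg (by positivity), pow_zero, Real.norm_eq_abs]
      have := h1 ξ
      have h3 : 0 ≤ ‖ψ ξ‖ := norm_nonneg _
      calc ‖ψ ξ‖ * (1 + |ξ|) ^ N ≤ ‖ψ ξ‖ * (2 ^ N * (1 + |ξ| ^ N)) :=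
            mul_le_mul_of_nonneg_left this h3
        _ = _ := by ring
  · intro u
    have h1 : (𝓕⁻ (𝓕 f)) u = f u := by rw [hinv]
    rw [Real.fourierInv_eq'] at h1
    have h2 : ∀ ξ : ℝ, ψ ξ * Complex.exp (-(u * (1 - 2 * Real.pi * ξ * I)))
        = Complex.exp (-u) * (Complex.exp ((2 * Real.pi * inner ℝ ξ u : ℝ) * I) • (𝓕 f) ξ) := by
      intro ξ
      have hi : (inner ℝ ξ u : ℝ) = u * ξ := by simp [inner]
      rw [hψ, smul_eq_mul, ← mul_assoc, ← Complex.exp_add, mul_comm, hi]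
      congr 2
      push_cast
      ring
    simp_rw [h2]
    rw [MeasureTheory.integral_const_mul]
    have h3 : (∫ ξ : ℝ, Complex.exp ((2 * Real.pi * inner ℝ ξ u : ℝ) * I) • (𝓕 f) ξ) = f u := h1
    rw [h3]
    simp only [f]
    push_cast
    rw [← mul_assoc, ← Complex.exp_add]
    simp

end Pool.Agent.H11.Selberg
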