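import Mathlib
import Pool.Agent.H11.Selberg.HasLog
import Pool.Agent.H11.Selberg.Bump

set_option autoImplicit false

namespace Pool.Agent.H11.Selberg

open Complex Filter MeasureTheory

/-- the smooth partial sum of `c n * n ^ (-1 - i t)` over `n ≤ exp (1 / δ)` -/
noncomputable def Sm (c : ℕ → ℂ) (t δ : ℝ) : ℂ :=
  ∑' n : ℕ, LSeries.term c (1 + t * I) n * (phi (δ * Real.log n) : ℂ)

theorem term_shift (c : ℕ → ℂ) (s w : ℂ) (n : ℕ) :
    LSeries.term c (s + w) n = LSeries.term c s n * Complex.exp (-(Real.log n * w)) := by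
  rcases Nat.eq_zero_or_pos n with rfl | hn
  · simp
  · rw [LSeries.term_of_ne_zero (by omega), LSeries.term_of_ne_zero (by omega)]
    have hn0 : (n : ℂ) ≠ 0 := by exact_mod_cast (by omega : n ≠ 0)
    rw [Complex.cpow_add _ _ hn0, Complex.exp_neg, ← div_eq_mul_inv, div_div]
    congr 2
    rw [Complex.cpow_def_of_ne_zero hn0, ← Complex.natCast_log]

theorem smooth_eq (c : ℕ → ℂ) (hc : ∀ s : ℂ, 1 < s.re → LSeriesSummable c s) (ψ : ℝ → ℂ)
    (hψc : Continuous ψ) (hψ : Integrable ψ)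
    (hψ3 : ∀ u : ℝ, ∫ ξ, ψ ξ * Complex.exp (-(u * (1 - 2 * Real.pi * ξ * I))) = phi u)
    (t δ : ℝ) (hδ : 0 < δ) :
    Sm c t δ = ∫ ξ, ψ ξ * LSeries c (1 + t * I + δ * (1 - 2 * Real.pi * ξ * I)) := by
  have hn : ∀ (n : ℕ) (ξ : ℝ), ‖LSeries.term c (1 + t * I + δ * (1 - 2 * Real.pi * ξ * I)) n‖
      = ‖LSeries.term c ((1 + δ : ℝ) : ℂ) n‖ := by
    intro n ξ
    rw [LSeries.norm_term_eq, LSeries.norm_term_eq]
    congr 3
    simp
  have hint : ∀ n : ℕ, Integrable (fun ξ : ℝ =>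
      ψ ξ * LSeries.term c (1 + t * I + δ * (1 - 2 * Real.pi * ξ * I)) n) := by
    intro n
    have h1 : Integrable (fun ξ : ℝ => ‖ψ ξ‖ * ‖LSeries.term c ((1 + δ : ℝ) : ℂ) n‖) :=
      hψ.norm.mul_const _
    refine h1.mono' ?_ ?_
    · apply Continuous.aestronglyMeasurable
      apply hψc.mul
      simp_rw [term_shift]
      fun_prop
    · refine Eventually.of_forall (fun ξ => ?_)
      rw [norm_mul, hn]
  have hsum : Summable (fun n : ℕ => ∫ ξ : ℝ,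
      ‖ψ ξ * LSeries.term c (1 + t * I + δ * (1 - 2 * Real.pi * ξ * I)) n‖) := by
    have h1 : ∀ n : ℕ, (∫ ξ : ℝ, ‖ψ ξ * LSeries.term c (1 + t * I + δ * (1 - 2 * Real.pi * ξ * I)) n‖)
        = (∫ ξ : ℝ, ‖ψ ξ‖) * ‖LSeries.term c ((1 + δ : ℝ) : ℂ) n‖ := by
      intro n
      rw [← integral_mul_const]
      congr 1
      funext ξ
      rw [norm_mul, hn]
    simp_rw [h1]
    apply Summable.mul_left
    exact (hc ((1 + δ : ℝ) : ℂ) (by simp [hδ])).norm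
  have h2 := hasSum_integral_of_summable_integral_norm hint hsum
  have h3 : (∫ ξ : ℝ, ∑' n : ℕ, ψ ξ * LSeries.term c (1 + t * I + δ * (1 - 2 * Real.pi * ξ * I)) n)
      = ∫ ξ, ψ ξ * LSeries c (1 + t * I + δ * (1 - 2 * Real.pi * ξ * I)) := by
    congr 1
    funext ξ
    rw [tsum_mul_left]
    rfl
  rw [← h3, ← h2.tsum_eq]
  unfold Sm
  congr 1
  funext n
  have h4 : ∀ ξ : ℝ, ψ ξ * LSeries.term c (1 + t * I + δ * (1 - 2 * Real.pi * ξ * I)) n
      = LSeries.term c (1 + t * I) n * (ψ ξ *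
        Complex.exp (-(((δ * Real.log n : ℝ) : ℂ) * (1 - 2 * Real.pi * ξ * I)))) := by
    intro ξ
    rw [term_shift]
    rw [show (Real.log n : ℂ) * (δ * (1 - 2 * Real.pi * ξ * I))
      = ((δ * Real.log n : ℝ) : ℂ) * (1 - 2 * Real.pi * ξ * I) by push_cast; ring]
    ring
  simp_rw [h4]
  rw [integral_const_mul, hψ3]

theorem smooth_asymp (c : ℕ → ℂ) (hc : ∀ s : ℂ, 1 < s.re → LSeriesSummable c s) (t : ℝ) (m0 : ℤ)
    (h : HasLog c t m0) :
    ∃ K : ℝ, 0 ≤ K ∧ ∀ δ : ℝ, 0 < δ → δ ≤ 1 → ‖Sm c t δ - m0 * (Real.log δ : ℂ)‖ ≤ K := by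
  obtain ⟨ψ, hψc, hψ, hψN, hψ3⟩ := exists_kernel
  obtain ⟨K, N, hK, hb⟩ := h
  have hψ0 : ∫ ξ, ψ ξ = 1 := by
    have := hψ3 0
    simpa [phi_one 0 (by norm_num)] using this
  refine ⟨∫ ξ, K * (‖ψ ξ‖ * (1 + |ξ|) ^ N), integral_nonneg (fun ξ => by positivity), ?_⟩
  intro δ hδ hδ1
  rw [smooth_eq c hc ψ hψc hψ hψ3 t δ hδ]
  have hdiffcont : Continuous (fun ξ : ℝ =>
      LSeries c (1 + t * I + δ * (1 - 2 * Real.pi * ξ * I))) := by
    rw [continuous_iff_continuousAt]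
    intro ξ
    have h1 : 1 < (1 + t * I + δ * (1 - 2 * Real.pi * ξ * I) : ℂ).re := by simp [hδ]
    exact ContinuousAt.comp (f := fun ξ : ℝ => (1 + t * I + δ * (1 - 2 * Real.pi * ξ * I) : ℂ))
      (LSeries_diff c hc _ h1).continuousAt (by fun_prop)
  have hI : Integrable (fun ξ => K * (‖ψ ξ‖ * (1 + |ξ|) ^ N)) := (hψN N).const_mul K
  have hI2 : Integrable (fun ξ : ℝ => ψ ξ *
      (LSeries c (1 + t * I + δ * (1 - 2 * Real.pi * ξ * I)) - m0 * (Real.log δ : ℂ))) := by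
    refine hI.mono' ?_ ?_
    · exact (hψc.mul (hdiffcont.sub continuous_const)).aestronglyMeasurable
    · refine Eventually.of_forall (fun ξ => ?_)
      rw [norm_mul]
      calc _ ≤ ‖ψ ξ‖ * (K * (1 + |ξ|) ^ N) :=
            mul_le_mul_of_nonneg_left (hb δ ξ hδ hδ1) (norm_nonneg _)
        _ = _ := by ring
  have hI3 : Integrable (fun ξ : ℝ => ψ ξ * (m0 * (Real.log δ : ℂ))) := hψ.mul_const _
  have h1 : (∫ ξ, ψ ξ * LSeries c (1 + t * I + δ * (1 - 2 * Real.pi * ξ * I)))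
      - m0 * (Real.log δ : ℂ) = ∫ ξ : ℝ, ψ ξ *
      (LSeries c (1 + t * I + δ * (1 - 2 * Real.pi * ξ * I)) - m0 * (Real.log δ : ℂ)) := by
    have h2 : (∫ ξ, ψ ξ * LSeries c (1 + t * I + δ * (1 - 2 * Real.pi * ξ * I)))
        = ∫ ξ : ℝ, (ψ ξ *
      (LSeries c (1 + t * I + δ * (1 - 2 * Real.pi * ξ * I)) - m0 * (Real.log δ : ℂ))
        + ψ ξ * (m0 * (Real.log δ : ℂ))) := by
      congr 1
      funext ξ
      ring
    rw [h2, integral_add hI2 hI3, integral_mul_const, hψ0, one_mul]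
    ring
  rw [h1]
  refine (norm_integral_le_integral_norm _).trans ?_
  apply integral_mono hI2.norm hI
  intro ξ
  simp only
  rw [norm_mul]
  calc _ ≤ ‖ψ ξ‖ * (K * (1 + |ξ|) ^ N) :=
        mul_le_mul_of_nonneg_left (hb δ ξ hδ hδ1) (norm_nonneg _)
    _ = _ := by ring

end Pool.Agent.H11.Selberg
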