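import Mathlib
import Pool.Agent.H11.Selberg.HasLog

set_option autoImplicit false

namespace Pool.Agent.H11.Selberg

open Complex Filter Topology

/-- the constant sequence one -/
def one1 : ℕ → ℂ := fun _ => 1

noncomputable def bz (n : ℕ) : ℂ := 1 / (ArithmeticFunction.cardFactors n : ℂ)

theorem bz_pow (p : ℕ) (hp : p.Prime) (l : ℕ) : bz (p ^ l) = 1 / (l : ℂ) := by
  rw [bz, ArithmeticFunction.cardFactors_apply_prime_pow hp]

theorem one_summable (s : ℂ) (hs : 1 < s.re) : LSeriesSummable one1 s :=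
  LSeriesSummable_one_iff.mpr hs

theorem zeta_eq (s : ℂ) (hs : 1 < s.re) : riemannZeta s = LSeries one1 s :=
  (LSeries_one_eq_riemannZeta hs).symm

theorem zeta_euler (s : ℂ) (hs : 1 < s.re) : HasProd
      (fun p : Nat.Primes => Complex.exp (∑' l : ℕ, bz ((p : ℕ) ^ (l + 1)) *
        ((p : ℕ) : ℂ) ^ (-((l : ℂ) + 1) * s))) (riemannZeta s) := by
  have h1 := riemannZeta_eulerProduct_hasProd hs
  convert h1 using 1
  funext p
  have hp0 : ((p : ℕ) : ℂ) ≠ 0 := by exact_mod_cast p.prop.ne_zero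
  set z : ℂ := ((p : ℕ) : ℂ) ^ (-s) with hz
  have hz1 : ‖z‖ < 1 := by
    rw [hz, Complex.norm_natCast_cpow_of_pos p.prop.pos]
    apply Real.rpow_lt_one_of_one_lt_of_neg
    · exact_mod_cast p.prop.one_lt
    · simp; linarith
  have h2 := Complex.hasSum_taylorSeries_neg_log hz1
  rw [← hasSum_nat_add_iff' 1] at h2
  simp only [Finset.range_one, Finset.sum_singleton, Nat.cast_zero, div_zero, sub_zero] at h2
  have h3 : (fun l : ℕ => bz ((p : ℕ) ^ (l + 1)) * ((p : ℕ) : ℂ) ^ (-((l : ℂ) + 1) * s))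
      = fun n : ℕ => z ^ (n + 1) / ((n + 1 : ℕ) : ℂ) := by
    funext l
    rw [bz_pow _ p.prop, hz, ← Complex.cpow_nat_mul]
    push_cast
    rw [show ((l : ℂ) + 1) * -s = -((l : ℂ) + 1) * s by ring]
    ring
  rw [h3, h2.tsum_eq, Complex.exp_neg, Complex.exp_log]
  intro h
  rw [sub_eq_zero] at h
  rw [← h, norm_one] at hz1
  exact lt_irrefl _ hz1

theorem tsum_rpow_bound : ∃ K : ℝ, 0 ≤ K ∧ ∀ δ : ℝ, 0 < δ → δ ≤ 1 →
    ∑' n : ℕ, 1 / (n : ℝ) ^ (1 + δ) ≤ K / δ := by
  have h1 := tendsto_sub_mul_tsum_nat_rpow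
  have h2 : ∀ᶠ s : ℝ in 𝓝[>] 1, (s - 1) * ∑' n : ℕ, 1 / (n : ℝ) ^ s < 2 :=
    h1.eventually (gt_mem_nhds (by norm_num))
  rw [eventually_nhdsWithin_iff, Metric.eventually_nhds_iff] at h2
  obtain ⟨e, he, h2⟩ := h2
  set δ0 : ℝ := min (e / 2) 1 with hδ0
  have hδ00 : 0 < δ0 := lt_min (by positivity) one_pos
  have hS : ∀ δ : ℝ, 0 < δ → Summable (fun n : ℕ => 1 / (n : ℝ) ^ (1 + δ)) := fun δ hδ =>
    Real.summable_one_div_nat_rpow.mpr (by linarith)
  refine ⟨2 + ∑' n : ℕ, 1 / (n : ℝ) ^ (1 + δ0), add_nonneg (by norm_num)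
    (tsum_nonneg (fun n => by positivity)), ?_⟩
  intro δ hδ hδ1
  have hpos : 0 ≤ ∑' n : ℕ, 1 / (n : ℝ) ^ (1 + δ0) := tsum_nonneg (fun n => by positivity)
  rcases lt_or_ge δ δ0 with h3 | h3
  · have h4 := h2 (y := 1 + δ) (by
      rw [Real.dist_eq, add_sub_cancel_left, abs_of_pos hδ]
      have := min_le_left (e / 2) 1
      linarith) (by simp [hδ])
    rw [add_sub_cancel_left] at h4
    rw [le_div_iff₀ hδ]
    linarith
  · have h4 : ∑' n : ℕ, 1 / (n : ℝ) ^ (1 + δ) ≤ ∑' n : ℕ, 1 / (n : ℝ) ^ (1 + δ0) := by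
      apply (hS δ hδ).tsum_le_tsum _ (hS δ0 hδ00)
      intro n
      rcases Nat.eq_zero_or_pos n with rfl | hn
      · rw [Nat.cast_zero, Real.zero_rpow (by linarith), Real.zero_rpow (by linarith)]
      · apply one_div_le_one_div_of_le (by positivity)
        apply Real.rpow_le_rpow_of_exponent_le (by exact_mod_cast hn) (by linarith)
    rw [le_div_iff₀ hδ]
    nlinarith

theorem zeta_growth : ∃ (K : ℝ) (N : ℕ), 0 ≤ K ∧ ∀ δ τ : ℝ, 0 < δ → δ ≤ 1 →
      ‖LSeries (b1 one1) (1 + δ + τ * I)‖ ≤ K * (1 + |τ|) ^ N / δ ^ N := by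
  obtain ⟨K, hK, h⟩ := tsum_rpow_bound
  refine ⟨K, 1, hK, ?_⟩
  intro δ τ hδ hδ1
  have h1 : ‖LSeries (b1 one1) (1 + δ + τ * I)‖ ≤ ∑' n : ℕ, 1 / (n : ℝ) ^ (1 + δ) := by
    unfold LSeries
    apply tsum_of_norm_bounded (Summable.hasSum
      (Real.summable_one_div_nat_rpow.mpr (by linarith)))
    intro n
    rw [LSeries.norm_term_eq]
    split_ifs with hn
    · subst hn
      rw [Nat.cast_zero, Real.zero_rpow (by linarith)]
      simp
    · have : (1 + δ + τ * I : ℂ).re = 1 + δ := by simp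
      rw [this]
      apply div_le_div_of_nonneg_right _ (by positivity)
      simp only [b1, one1]
      split_ifs <;> simp
  refine h1.trans ((h δ hδ hδ1).trans ?_)
  rw [pow_one, pow_one]
  apply div_le_div_of_nonneg_right _ hδ.le
  have := abs_nonneg τ
  nlinarith

theorem zeta_logData : LogData (b1 one1) riemannZeta (LSeries (b2 bz)) := by
  have h := log_rep one1 riemannZeta rfl one_summable zeta_eq bz 0 1 (by norm_num) (by
    intro p hp l hl
    rw [bz_pow p hp, Real.rpow_zero, mul_one, norm_div, norm_one, Complex.norm_natCast]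
    rw [div_le_one (by exact_mod_cast hl)]
    exact_mod_cast hl) zeta_euler
  exact ⟨fun s hs => b1_LSeriesSummable _ s (one_summable s hs), h.1, h.2.1, h.2.2, zeta_growth⟩

theorem zeta_hasLog_zero : HasLog (b1 one1) 0 (-1) := by
  set g : ℂ → ℂ := Function.update (fun s => (s - 1) * riemannZeta s) 1 1 with hg
  have hcont : ContinuousAt g 1 := by
    rw [hg, continuousAt_update_same]
    exact riemannZeta_residue_one
  have hd : ∀ᶠ z in 𝓝[≠] (1 : ℂ), DifferentiableAt ℂ g z := by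
    filter_upwards [self_mem_nhdsWithin] with z hz
    have hz1 : z ≠ 1 := hz
    have h1 : DifferentiableAt ℂ (fun s => (s - 1) * riemannZeta s) z :=
      (by fun_prop : DifferentiableAt ℂ (fun s : ℂ => s - 1) z).mul (differentiableAt_riemannZeta hz1)
    apply h1.congr_of_eventuallyEq
    filter_upwards [isOpen_ne.mem_nhds hz1] with w hw
    rw [hg, Function.update_of_ne hw]
  have hga : AnalyticAt ℂ g 1 :=
    Complex.analyticAt_of_differentiable_on_punctured_nhds_of_continuousAt hd hcont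
  have e0 : (1 + ((0 : ℝ) : ℂ) * I) = 1 := by simp
  apply hasLog_of (b1 one1) riemannZeta _ zeta_logData 0 (-1) g
  · rw [e0]; exact hga
  · rw [e0, hg]; simp
  · refine Eventually.of_forall (fun s hs => ?_)
    have hs1 : s ≠ 1 := by
      rintro rfl
      simp at hs
    rw [e0, hg, Function.update_of_ne hs1]
    have : s - 1 ≠ 0 := sub_ne_zero.mpr hs1
    rw [zpow_neg_one]
    field_simp

theorem zeta_hasLog (t : ℝ) (ht : t ≠ 0) : HasLog (b1 one1) t 0 := by
  have hne : (1 + (t : ℂ) * I) ≠ 1 := by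
    intro h
    have := congrArg Complex.im h
    simp at this
    exact ht this
  apply hasLog_of (b1 one1) riemannZeta _ zeta_logData t 0 riemannZeta
  · have : ∀ᶠ z in 𝓝 (1 + (t : ℂ) * I), DifferentiableAt ℂ riemannZeta z := by
      filter_upwards [isOpen_ne.mem_nhds hne] with z hz
      exact differentiableAt_riemannZeta hz
    exact Complex.analyticAt_iff_eventually_differentiableAt.mpr this
  · apply riemannZeta_ne_zero_of_one_le_re
    simp
  · refine Eventually.of_forall (fun s hs => ?_)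
    rw [zpow_zero, one_mul]

end Pool.Agent.H11.Selberg
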