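import Mathlib
import Pool.Agent.H11.Selberg.Mer
import Pool.Agent.H11.Selberg.Smooth
import Pool.Agent.H11.Selberg.Zeta

set_option autoImplicit false

namespace Pool.Agent.H11.Selberg

open Complex Filter Topology

/-- the primes up to `x` -/
noncomputable def P (x : ℝ) : Finset ℕ := (Finset.Icc 1 ⌊x⌋₊).filter Nat.Prime

theorem mem_P (x : ℝ) (p : ℕ) : p ∈ P x ↔ p.Prime ∧ (p : ℝ) ≤ x := by
  unfold P
  rw [Finset.mem_filter, Finset.mem_Icc]
  constructor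
  · rintro ⟨⟨h1, h2⟩, h3⟩
    exact ⟨h3, (Nat.le_floor_iff' h3.ne_zero).mp h2⟩
  · rintro ⟨h1, h2⟩
    exact ⟨⟨h1.one_le, Nat.le_floor h2⟩, h1⟩

/-- the smooth weight at the prime `p` -/
noncomputable def w (δ : ℝ) (p : ℕ) : ℝ := phi (δ * Real.log p) / p

theorem w_nonneg (δ : ℝ) (p : ℕ) : 0 ≤ w δ p := div_nonneg (phi_nonneg _) (Nat.cast_nonneg _)

theorem w_le (δ : ℝ) (p : ℕ) : w δ p ≤ 1 / p :=
  div_le_div_of_nonneg_right (phi_le_one _) (Nat.cast_nonneg _)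

theorem w_eq (δ x : ℝ) (hδ : 0 < δ) (hx : δ * Real.log x ≤ 1 / 2) (p : ℕ) (hp : p ∈ P x) :
    w δ p = 1 / p := by
  rw [mem_P] at hp
  unfold w
  rw [phi_one]
  have h1 : (1 : ℝ) ≤ p := by exact_mod_cast hp.1.one_le
  have h2 : 0 ≤ Real.log p := Real.log_nonneg h1
  rw [abs_of_nonneg (by positivity)]
  have h3 : Real.log p ≤ Real.log x := Real.log_le_log (by linarith) hp.2
  nlinarith

theorem phi_out (δ : ℝ) (hδ : 0 < δ) (n : ℕ) (hn : n.Prime) (h : n ∉ P (Real.exp (1 / δ))) :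
    phi (δ * Real.log n) = 0 := by
  apply phi_zero
  have h1 : ¬ ((n : ℝ) ≤ Real.exp (1 / δ)) := fun hc => h ((mem_P _ _).mpr ⟨hn, hc⟩)
  push Not at h1
  have h2 : 1 / δ < Real.log n := by
    rw [Real.lt_log_iff_exp_lt (by exact_mod_cast hn.pos)]
    exact h1
  rw [div_lt_iff₀ hδ] at h2
  rw [abs_of_pos (by nlinarith)]
  nlinarith

/-- `p ^ (i t)` -/
noncomputable def y (t : ℝ) (p : ℕ) : ℂ := (p : ℂ) ^ ((t : ℂ) * I)

theorem y_conj (t : ℝ) (p : ℕ) (hp : p.Prime) : (starRingEnd ℂ) (y t p) = y (-t) p := by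
  unfold y
  have hp0 : (p : ℂ) ≠ 0 := by exact_mod_cast hp.ne_zero
  rw [Complex.cpow_def_of_ne_zero hp0, Complex.cpow_def_of_ne_zero hp0, ← Complex.exp_conj,
    ← Complex.natCast_log]
  congr 1
  simp only [map_mul, Complex.conj_ofReal, Complex.conj_I]
  push_cast
  ring

theorem y_mul (t u : ℝ) (p : ℕ) (hp : p.Prime) : y t p * y u p = y (t + u) p := by
  unfold y
  have hp0 : (p : ℂ) ≠ 0 := by exact_mod_cast hp.ne_zero
  rw [← Complex.cpow_add _ _ hp0]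
  congr 1
  push_cast
  ring

theorem term_b1 (c : ℕ → ℂ) (t : ℝ) (p : ℕ) (hp : p.Prime) :
    LSeries.term (b1 c) (1 + t * I) p = c p * y (-t) p / p := by
  have hp0 : (p : ℂ) ≠ 0 := by exact_mod_cast hp.ne_zero
  rw [LSeries.term_of_ne_zero hp.ne_zero]
  simp only [b1, if_pos hp]
  rw [Complex.cpow_add _ _ hp0, Complex.cpow_one]
  have : y (-t) p = ((p : ℂ) ^ ((t : ℂ) * I))⁻¹ := by
    unfold y
    rw [← Complex.cpow_neg]
    congr 1
    push_cast
    ring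
  rw [this]
  have h2 : (p : ℂ) ^ ((t : ℂ) * I) ≠ 0 := by
    rw [Complex.cpow_def_of_ne_zero hp0]; exact Complex.exp_ne_zero _
  field_simp

theorem Sm_eq (c : ℕ → ℂ) (t δ : ℝ) (hδ : 0 < δ) :
    Sm (b1 c) t δ = ∑ p ∈ P (Real.exp (1 / δ)), (w δ p : ℂ) * (c p * y (-t) p) := by
  unfold Sm
  rw [tsum_eq_sum (s := P (Real.exp (1 / δ)))]
  · apply Finset.sum_congr rfl
    intro p hp
    have hpp := ((mem_P _ _).mp hp).1
    rw [term_b1 c t p hpp]
    unfold w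
    push_cast
    ring
  · intro n hn
    by_cases hp : n.Prime
    · rw [phi_out δ hδ n hp hn]
      simp
    · rcases Nat.eq_zero_or_pos n with rfl | h0
      · simp
      · rw [LSeries.term_of_ne_zero (by omega)]
        simp [b1, hp]

/-- the pointwise expansion of the square -/
theorem expand (T : Finset ℝ) (m : ℝ → ℤ) (α : ℂ) (p : ℕ) (hp : p.Prime) :
    ((‖α + ∑ t ∈ T, (m t : ℂ) * y t p‖ ^ 2 : ℝ) : ℂ)
      = ((‖α‖ ^ 2 : ℝ) : ℂ) + ∑ t ∈ T, (m t : ℂ) * (α * y (-t) p)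
        + ∑ t ∈ T, (m t : ℂ) * (starRingEnd ℂ) (α * y (-t) p)
        + ∑ t ∈ T, ∑ u ∈ T, (m t : ℂ) * (m u : ℂ) * (1 * y (-(u - t)) p) := by
  have h1 : ∀ z : ℂ, ((‖z‖ ^ 2 : ℝ) : ℂ) = z * (starRingEnd ℂ) z := by
    intro z
    rw [Complex.mul_conj, Complex.normSq_eq_norm_sq]
  rw [h1, h1, map_add, map_sum, add_mul, mul_add, mul_add, Finset.mul_sum, Finset.sum_mul,
    Finset.sum_mul_sum]
  have e1 : ∀ t ∈ T, α * (starRingEnd ℂ) ((m t : ℂ) * y t p) = (m t : ℂ) * (α * y (-t) p) := by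
    intro t _
    rw [map_mul, y_conj t p hp, map_intCast]
    ring
  have e2 : ∀ t ∈ T, (m t : ℂ) * y t p * (starRingEnd ℂ) α
      = (m t : ℂ) * (starRingEnd ℂ) (α * y (-t) p) := by
    intro t _
    rw [map_mul, y_conj (-t) p hp, neg_neg]
    ring
  have e3 : ∀ t ∈ T, ∀ u ∈ T, (m t : ℂ) * y t p * (starRingEnd ℂ) ((m u : ℂ) * y u p)
      = (m t : ℂ) * (m u : ℂ) * (1 * y (-(u - t)) p) := by
    intro t _ u _
    rw [map_mul, y_conj u p hp, map_intCast, one_mul,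
      show -(u - t) = t + -u by ring, ← y_mul t (-u) p hp]
    ring
  rw [Finset.sum_congr rfl e1, Finset.sum_congr rfl e2,
    Finset.sum_congr rfl (fun t ht => Finset.sum_congr rfl (e3 t ht))]
  ring

/-- the weighted sums -/
noncomputable def AA (a : ℕ → ℂ) (δ : ℝ) : ℝ :=
  ∑ p ∈ P (Real.exp (1 / δ)), w δ p * ‖a p‖ ^ 2

theorem expand_sum (a : ℕ → ℂ) (T : Finset ℝ) (m : ℝ → ℤ) (δ : ℝ) (hδ : 0 < δ) :
    ((AA (fun p => a p + ∑ t ∈ T, (m t : ℂ) * y t p) δ : ℝ) : ℂ)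
      = (AA a δ : ℂ) + ∑ t ∈ T, (m t : ℂ) * Sm (b1 a) t δ
        + ∑ t ∈ T, (m t : ℂ) * (starRingEnd ℂ) (Sm (b1 a) t δ)
        + ∑ t ∈ T, ∑ u ∈ T, (m t : ℂ) * (m u : ℂ) * Sm (b1 one1) (u - t) δ := by
  have h1 : ∀ p ∈ P (Real.exp (1 / δ)),
      ((w δ p * ‖a p + ∑ t ∈ T, (m t : ℂ) * y t p‖ ^ 2 : ℝ) : ℂ)
      = ((w δ p * ‖a p‖ ^ 2 : ℝ) : ℂ) + ∑ t ∈ T, (m t : ℂ) * ((w δ p : ℂ) * (a p * y (-t) p))
        + ∑ t ∈ T, (m t : ℂ) * (starRingEnd ℂ) ((w δ p : ℂ) * (a p * y (-t) p))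
        + ∑ t ∈ T, ∑ u ∈ T, (m t : ℂ) * (m u : ℂ) * ((w δ p : ℂ) * (one1 p * y (-(u - t)) p)) := by
    intro p hp
    have hpp := ((mem_P _ _).mp hp).1
    rw [Complex.ofReal_mul, expand T m (a p) p hpp, Complex.ofReal_mul]
    rw [mul_add, mul_add, mul_add, Finset.mul_sum, Finset.mul_sum, Finset.mul_sum]
    congr 1
    · congr 1
      · congr 1
        apply Finset.sum_congr rfl
        intro t _
        ring
      · apply Finset.sum_congr rfl
        intro t _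
        rw [map_mul (starRingEnd ℂ) (w δ p : ℂ), Complex.conj_ofReal]
        ring
    · apply Finset.sum_congr rfl
      intro t _
      rw [Finset.mul_sum]
      apply Finset.sum_congr rfl
      intro u _
      simp only [one1]
      ring
  unfold AA
  rw [Complex.ofReal_sum, Finset.sum_congr rfl h1, Finset.sum_add_distrib, Finset.sum_add_distrib,
    Finset.sum_add_distrib, Complex.ofReal_sum]
  congr 1
  · congr 1
    · congr 1
      rw [Finset.sum_comm]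
      apply Finset.sum_congr rfl
      intro t _
      rw [Sm_eq a t δ hδ, Finset.mul_sum]
    · rw [Finset.sum_comm]
      apply Finset.sum_congr rfl
      intro t _
      rw [Sm_eq a t δ hδ, map_sum, Finset.mul_sum]
  · rw [Finset.sum_comm]
    apply Finset.sum_congr rfl
    intro t _
    rw [Finset.sum_comm]
    apply Finset.sum_congr rfl
    intro u _
    rw [Sm_eq one1 (u - t) δ hδ, Finset.mul_sum]

end Pool.Agent.H11.Selberg
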