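import Mathlib
import Pool.Agent.H11.Selberg.Bessel

set_option autoImplicit false

namespace Pool.Agent.H11.Selberg

open Complex Filter Topology

/-- Pythagoras on the line `Re s = 1`. -/
theorem pythagoras (a : ℕ → ℂ) (ha : ∀ s : ℂ, 1 < s.re → LSeriesSummable (b1 a) s)
    (T : Finset ℝ) (m : ℝ → ℤ) (hm : ∀ t ∈ T, HasLog (b1 a) t (m t)) :
    ∃ K : ℝ, 0 ≤ K ∧ ∀ δ : ℝ, 0 < δ → δ ≤ 1 →
      |AA (fun p => a p + ∑ t ∈ T, (m t : ℂ) * y t p) δ - AA a δ
        - (∑ t ∈ T, (m t : ℝ) ^ 2) * Real.log δ| ≤ K := by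
  classical
  have h1 : ∀ t : ℝ, ∃ K : ℝ, 0 ≤ K ∧ (t ∈ T → ∀ δ : ℝ, 0 < δ → δ ≤ 1 →
      ‖Sm (b1 a) t δ - m t * (Real.log δ : ℂ)‖ ≤ K) := by
    intro t
    by_cases ht : t ∈ T
    · obtain ⟨K, hK, h⟩ := smooth_asymp (b1 a) ha t (m t) (hm t ht)
      exact ⟨K, hK, fun _ => h⟩
    · exact ⟨0, le_refl _, fun h => absurd h ht⟩
  have h2 : ∀ u : ℝ, ∃ K : ℝ, 0 ≤ K ∧ ∀ δ : ℝ, 0 < δ → δ ≤ 1 →
      ‖Sm (b1 one1) u δ - (if u = 0 then (-1 : ℤ) else 0 : ℤ) * (Real.log δ : ℂ)‖ ≤ K := by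
    intro u
    have hs : ∀ s : ℂ, 1 < s.re → LSeriesSummable (b1 one1) s := fun s hs =>
      b1_LSeriesSummable _ s (one_summable s hs)
    by_cases hu : u = 0
    · rw [if_pos hu, hu]
      exact smooth_asymp (b1 one1) hs 0 (-1) zeta_hasLog_zero
    · rw [if_neg hu]
      exact smooth_asymp (b1 one1) hs u 0 (zeta_hasLog u hu)
  choose K1 hK10 hK1 using h1
  choose K2 hK20 hK2 using h2
  set K : ℝ := ∑ t ∈ T, |(m t : ℝ)| * K1 t + ∑ t ∈ T, |(m t : ℝ)| * K1 t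
    + ∑ t ∈ T, ∑ u ∈ T, |(m t : ℝ)| * |(m u : ℝ)| * K2 (u - t) with hK
  refine ⟨K, ?_, ?_⟩
  · apply add_nonneg (add_nonneg _ _) _
    · exact Finset.sum_nonneg (fun t _ => mul_nonneg (abs_nonneg _) (hK10 t))
    · exact Finset.sum_nonneg (fun t _ => mul_nonneg (abs_nonneg _) (hK10 t))
    · exact Finset.sum_nonneg (fun t _ => Finset.sum_nonneg (fun u _ =>
        mul_nonneg (by positivity) (hK20 _)))
  · intro δ hδ hδ1
    set L : ℂ := (Real.log δ : ℂ) with hL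
    have hexp := expand_sum a T m δ hδ
    have hLc : (starRingEnd ℂ) L = L := Complex.conj_ofReal _
    have hkey : (((AA (fun p => a p + ∑ t ∈ T, (m t : ℂ) * y t p) δ - AA a δ
        - (∑ t ∈ T, (m t : ℝ) ^ 2) * Real.log δ : ℝ)) : ℂ)
        = ∑ t ∈ T, (m t : ℂ) * (Sm (b1 a) t δ - m t * L)
        + ∑ t ∈ T, (m t : ℂ) * (starRingEnd ℂ) (Sm (b1 a) t δ - m t * L)
        + ∑ t ∈ T, ∑ u ∈ T, (m t : ℂ) * (m u : ℂ) *
          (Sm (b1 one1) (u - t) δ - (if u - t = 0 then (-1 : ℤ) else 0 : ℤ) * L) := by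
      have e3 : ∀ t ∈ T, (∑ u ∈ T, (m t : ℂ) * (m u : ℂ) *
          (Sm (b1 one1) (u - t) δ - (if u - t = 0 then (-1 : ℤ) else 0 : ℤ) * L))
          = (∑ u ∈ T, (m t : ℂ) * (m u : ℂ) * Sm (b1 one1) (u - t) δ) + (m t : ℂ) ^ 2 * L := by
        intro t ht
        have e4 : ∀ u ∈ T, (m t : ℂ) * (m u : ℂ) *
            (Sm (b1 one1) (u - t) δ - (if u - t = 0 then (-1 : ℤ) else 0 : ℤ) * L)
            = (m t : ℂ) * (m u : ℂ) * Sm (b1 one1) (u - t) δ
              + (if u = t then (m t : ℂ) ^ 2 * L else 0) := by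
          intro u _
          by_cases hut : u = t
          · subst hut
            simp only [sub_self, if_true]
            push_cast
            ring
          · rw [if_neg (sub_ne_zero.mpr hut), if_neg hut]
            push_cast
            ring
        rw [Finset.sum_congr rfl e4, Finset.sum_add_distrib, Finset.sum_ite_eq' T t, if_pos ht]
      rw [Finset.sum_congr rfl e3, Finset.sum_add_distrib]
      simp_rw [mul_sub, map_sub, map_mul, map_intCast, hLc, mul_sub]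
      rw [Finset.sum_sub_distrib, Finset.sum_sub_distrib]
      push_cast
      rw [hexp]
      have e5 : (∑ t ∈ T, (m t : ℂ) * ((m t : ℂ) * L)) = (∑ t ∈ T, (m t : ℂ) ^ 2) * L := by
        rw [Finset.sum_mul]
        exact Finset.sum_congr rfl (fun t _ => by ring)
      rw [e5, ← Finset.sum_mul]
      ring
    have hnorm : |AA (fun p => a p + ∑ t ∈ T, (m t : ℂ) * y t p) δ - AA a δ
        - (∑ t ∈ T, (m t : ℝ) ^ 2) * Real.log δ|
        = ‖(((AA (fun p => a p + ∑ t ∈ T, (m t : ℂ) * y t p) δ - AA a δ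
        - (∑ t ∈ T, (m t : ℝ) ^ 2) * Real.log δ : ℝ)) : ℂ)‖ := by
      rw [Complex.norm_real, Real.norm_eq_abs]
    rw [hnorm, hkey, hK]
    refine (norm_add_le _ _).trans (add_le_add ((norm_add_le _ _).trans (add_le_add ?_ ?_)) ?_)
    · refine (norm_sum_le _ _).trans (Finset.sum_le_sum (fun t ht => ?_))
      rw [norm_mul, Complex.norm_intCast]
      exact mul_le_mul_of_nonneg_left (hK1 t ht δ hδ hδ1) (abs_nonneg _)
    · refine (norm_sum_le _ _).trans (Finset.sum_le_sum (fun t ht => ?_))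
      rw [norm_mul, Complex.norm_intCast, RCLike.norm_conj]
      exact mul_le_mul_of_nonneg_left (hK1 t ht δ hδ hδ1) (abs_nonneg _)
    · refine (norm_sum_le _ _).trans (Finset.sum_le_sum (fun t ht => ?_))
      refine (norm_sum_le _ _).trans (Finset.sum_le_sum (fun u hu => ?_))
      rw [norm_mul, norm_mul, Complex.norm_intCast, Complex.norm_intCast]
      exact mul_le_mul_of_nonneg_left (hK2 (u - t) δ hδ hδ1) (by positivity)

theorem AA_nonneg (a : ℕ → ℂ) (δ : ℝ) : 0 ≤ AA a δ :=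
  Finset.sum_nonneg (fun p _ => mul_nonneg (w_nonneg δ p) (by positivity))

theorem S_eq (a : ℕ → ℂ) (x : ℝ) : S a x = ∑ p ∈ P x, ‖a p‖ ^ 2 / p := rfl

theorem S_mono (a : ℕ → ℂ) (x z : ℝ) (h : x ≤ z) : S a x ≤ S a z := by
  rw [S_eq, S_eq]
  apply Finset.sum_le_sum_of_subset_of_nonneg
  · intro p hp
    rw [mem_P] at hp ⊢
    exact ⟨hp.1, hp.2.trans h⟩
  · intro p _ _
    positivity

theorem S_nonneg (a : ℕ → ℂ) (x : ℝ) : 0 ≤ S a x :=
  Finset.sum_nonneg (fun p _ => by positivity)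

theorem AA_le_S (a : ℕ → ℂ) (x : ℝ) (hx : 1 < x) : AA a (1 / Real.log x) ≤ S a x := by
  have h0 : 0 < Real.log x := Real.log_pos hx
  unfold AA
  rw [S_eq]
  rw [one_div_one_div, Real.exp_log (by linarith)]
  apply Finset.sum_le_sum
  intro p _
  calc w (1 / Real.log x) p * ‖a p‖ ^ 2 ≤ (1 / p) * ‖a p‖ ^ 2 :=
        mul_le_mul_of_nonneg_right (w_le _ _) (by positivity)
    _ = _ := by ring

theorem S_le_AA (a : ℕ → ℂ) (x : ℝ) (hx : 1 < x) : S a x ≤ AA a (1 / (2 * Real.log x)) := by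
  have h0 : 0 < Real.log x := Real.log_pos hx
  unfold AA
  rw [S_eq]
  rw [one_div_one_div]
  have hsub : P x ⊆ P (Real.exp (2 * Real.log x)) := by
    intro p hp
    rw [mem_P] at hp ⊢
    refine ⟨hp.1, hp.2.trans ?_⟩
    calc x = Real.exp (Real.log x) := (Real.exp_log (by linarith)).symm
      _ ≤ _ := Real.exp_le_exp.mpr (by linarith)
  refine le_trans ?_ (Finset.sum_le_sum_of_subset_of_nonneg hsub
    (fun p _ _ => mul_nonneg (w_nonneg _ p) (by positivity)))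
  apply Finset.sum_le_sum
  intro p hp
  rw [w_eq (1 / (2 * Real.log x)) x (by positivity) (by
    rw [one_div, mul_comm 2, mul_inv, mul_comm (Real.log x)⁻¹, mul_assoc,
      inv_mul_cancel₀ h0.ne']
    norm_num) p hp]
  rw [one_div_mul_eq_div]

end Pool.Agent.H11.Selberg
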