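import Mathlib
import Pool.Agent.H11.Selberg.Line

set_option autoImplicit false

namespace Pool.Agent.H11.Selberg

open Complex Filter Topology

theorem line_bound (a : ℕ → ℂ) (F : ℂ → ℂ) (h : IsSelberg a F) (T : Finset ℝ) :
    (∃ C : ℝ, ∀ x : ℝ, 2 ≤ x →
      (∑ t ∈ T, (ord F t : ℝ) ^ 2) * Real.log (Real.log x) - C ≤ S a x) ∧
    ((∃ C : ℝ, ∀ x : ℝ, 2 ≤ x →
      |S a x - (∑ t ∈ T, (ord F t : ℝ) ^ 2) * Real.log (Real.log x)| ≤ C) ↔
      Summable (fun p : Nat.Primes =>
        ‖a p + ∑ t ∈ T, (ord F t : ℂ) * ((p : ℕ) : ℂ) ^ ((t : ℂ) * I)‖ ^ 2 / ((p : ℕ) : ℝ))) := by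
  set M : ℝ := ∑ t ∈ T, (ord F t : ℝ) ^ 2 with hM
  have hM0 : 0 ≤ M := Finset.sum_nonneg (fun t _ => by positivity)
  set E : ℕ → ℂ := fun p => a p + ∑ t ∈ T, (ord F t : ℂ) * y t p with hE
  obtain ⟨K, hK0, hK⟩ := pythagoras a (fun s hs => b1_LSeriesSummable _ s (h.summable s hs)) T
    (ord F) (fun t _ => selberg_hasLog a F h t)
  -- comparison of the logarithms
  have hlog : ∀ x : ℝ, Real.exp 1 ≤ x → 1 ≤ Real.log x := by
    intro x hx
    rw [Real.le_log_iff_exp_le (lt_of_lt_of_le (Real.exp_pos _) hx)]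
    exact hx
  have hx1 : ∀ x : ℝ, Real.exp 1 ≤ x → 1 < x := by
    intro x hx
    exact lt_of_lt_of_le (by rw [Real.one_lt_exp_iff]; norm_num) hx
  have key1 : ∀ x : ℝ, Real.exp 1 ≤ x →
      |AA E (1 / Real.log x) - AA a (1 / Real.log x) + M * Real.log (Real.log x)| ≤ K := by
    intro x hx
    have h1 := hlog x hx
    have h2 := hK (1 / Real.log x) (by positivity) (by rw [div_le_one (by linarith)]; exact h1)
    rw [one_div, Real.log_inv] at h2
    rw [one_div]
    calc |AA E (Real.log x)⁻¹ - AA a (Real.log x)⁻¹ + M * Real.log (Real.log x)|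
        = |AA E (Real.log x)⁻¹ - AA a (Real.log x)⁻¹ - M * -Real.log (Real.log x)| := by
          congr 1; ring
      _ ≤ K := h2
  have key2 : ∀ x : ℝ, Real.exp 1 ≤ x →
      |AA E (1 / (2 * Real.log x)) - AA a (1 / (2 * Real.log x))
        + M * (Real.log (Real.log x) + Real.log 2)| ≤ K := by
    intro x hx
    have h1 := hlog x hx
    have h2 := hK (1 / (2 * Real.log x)) (by positivity)
      (by rw [div_le_one (by linarith)]; linarith)
    rw [one_div, Real.log_inv, Real.log_mul (by norm_num) (by positivity)] at h2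
    rw [one_div]
    calc |AA E (2 * Real.log x)⁻¹ - AA a (2 * Real.log x)⁻¹
        + M * (Real.log (Real.log x) + Real.log 2)|
        = |AA E (2 * Real.log x)⁻¹ - AA a (2 * Real.log x)⁻¹
          - M * -(Real.log 2 + Real.log (Real.log x))| := by
          congr 1; ring
      _ ≤ K := h2
  -- small x
  have hsmall : ∀ x : ℝ, 2 ≤ x → x < Real.exp 1 →
      |M * Real.log (Real.log x)| ≤ M * |Real.log (Real.log 2)| := by
    intro x hx hxe
    have hlx0 : 0 < Real.log 2 := Real.log_pos (by norm_num)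
    have h1 : Real.log 2 ≤ Real.log x := Real.log_le_log (by norm_num) hx
    have h2 : Real.log x < 1 := by
      rw [Real.log_lt_iff_lt_exp (by linarith)]
      exact hxe
    have h3 : Real.log (Real.log 2) ≤ Real.log (Real.log x) := Real.log_le_log hlx0 h1
    have h4 : Real.log (Real.log x) ≤ 0 := Real.log_nonpos (by linarith) h2.le
    rw [abs_mul, abs_of_nonneg hM0]
    apply mul_le_mul_of_nonneg_left _ hM0
    rw [abs_of_nonpos h4, abs_of_nonpos (h3.trans h4)]
    linarith
  have hlow : ∀ x : ℝ, 2 ≤ x →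
      M * Real.log (Real.log x) - (K + M * |Real.log (Real.log 2)|) ≤ S a x := by
    intro x hx
    have hnn : 0 ≤ M * |Real.log (Real.log 2)| := by positivity
    rcases lt_or_ge x (Real.exp 1) with h1 | h1
    · have h2 := hsmall x hx h1
      have h3 := le_abs_self (M * Real.log (Real.log x))
      have h4 := S_nonneg a x
      linarith
    · have h2 := AA_le_S a x (hx1 x h1)
      have h3 := (abs_le.mp (key1 x h1)).2
      have h4 := AA_nonneg E (1 / Real.log x)
      linarith
  refine ⟨⟨_, hlow⟩, ?_, ?_⟩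
  · rintro ⟨C, hC⟩
    have hbdd : ∀ x : ℝ, Real.exp 1 ≤ x → AA E (1 / (2 * Real.log x)) ≤ C + K := by
      intro x hx
      have h0 := hlog x hx
      have h1 : AA a (1 / (2 * Real.log x)) ≤ S a (x ^ 2) := by
        have := AA_le_S a (x ^ 2) (one_lt_pow₀ (hx1 x hx) (by norm_num))
        rw [Real.log_pow] at this
        exact_mod_cast this
      have hx2 : Real.exp 1 ≤ x ^ 2 := by nlinarith [hx1 x hx]
      have h2 := (abs_le.mp (hC (x ^ 2) (by nlinarith [Real.add_one_le_exp 1]))).2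
      rw [Real.log_pow, Real.log_mul (by norm_num) (by positivity)] at h2
      have h3 := (abs_le.mp (key2 x hx)).2
      push_cast at h2
      have e : M * (Real.log 2 + Real.log (Real.log x))
        = M * (Real.log (Real.log x) + Real.log 2) := by ring
      rw [e] at h2
      linarith
    apply summable_of_sum_le (c := C + K) (fun p => by positivity)
    intro u
    obtain ⟨B, hB⟩ : ∃ B : ℝ, ∀ p ∈ u, (((p : Nat.Primes) : ℕ) : ℝ) ≤ B := by
      refine ⟨∑ p ∈ u, (((p : Nat.Primes) : ℕ) : ℝ), fun p hp => ?_⟩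
      exact Finset.single_le_sum (f := fun p : Nat.Primes => (((p : Nat.Primes) : ℕ) : ℝ))
        (fun _ _ => Nat.cast_nonneg _) hp
    set x : ℝ := max B (Real.exp 1) with hx
    have hxe : Real.exp 1 ≤ x := le_max_right _ _
    have h1 : (∑ p ∈ u, ‖E p‖ ^ 2 / ((p : ℕ) : ℝ)) ≤ S E x := by
      rw [S_eq, ← Finset.sum_image (f := fun p : ℕ => ‖E p‖ ^ 2 / (p : ℝ))
        (g := fun p : Nat.Primes => (p : ℕ)) (s := u) (fun p _ q _ hpq => Subtype.ext hpq)]
      apply Finset.sum_le_sum_of_subset_of_nonneg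
      · intro q hq
        rw [Finset.mem_image] at hq
        obtain ⟨p, hp, rfl⟩ := hq
        rw [mem_P]
        exact ⟨p.prop, (hB p hp).trans (le_max_left _ _)⟩
      · intro p _ _
        positivity
    have h2 := S_le_AA E x (hx1 x hxe)
    have h3 := hbdd x hxe
    exact (h1.trans h2).trans h3
  · intro hsum
    have hEb : ∀ δ : ℝ, AA E δ ≤ ∑' p : Nat.Primes, ‖E p‖ ^ 2 / ((p : ℕ) : ℝ) := by
      intro δ
      have h1 : AA E δ ≤ ∑ p ∈ P (Real.exp (1 / δ)), ‖E p‖ ^ 2 / (p : ℝ) := by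
        apply Finset.sum_le_sum
        intro p _
        calc w δ p * ‖E p‖ ^ 2 ≤ (1 / p) * ‖E p‖ ^ 2 :=
              mul_le_mul_of_nonneg_right (w_le _ _) (by positivity)
          _ = _ := by ring
      refine h1.trans ?_
      have h2 : ∀ p ∈ P (Real.exp (1 / δ)), p.Prime := fun p hp => ((mem_P _ _).mp hp).1
      have h3 : (∑ p ∈ P (Real.exp (1 / δ)), ‖E p‖ ^ 2 / (p : ℝ))
          = ∑ p ∈ (P (Real.exp (1 / δ))).subtype Nat.Prime, ‖E (p : ℕ)‖ ^ 2 / ((p : ℕ) : ℝ) := by
        rw [Finset.sum_subtype_of_mem (p := Nat.Prime) (fun p : ℕ => ‖E p‖ ^ 2 / (p : ℝ)) h2]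
      rw [h3]
      exact Summable.sum_le_tsum (f := fun p : Nat.Primes => ‖E p‖ ^ 2 / ((p : ℕ) : ℝ))
        ((P (Real.exp (1 / δ))).subtype Nat.Prime) (fun p _ => by positivity) hsum
    set D : ℝ := ∑' p : Nat.Primes, ‖E p‖ ^ 2 / ((p : ℕ) : ℝ) with hD
    have hD0 : 0 ≤ D := tsum_nonneg (fun p => by positivity)
    refine ⟨K + M * |Real.log (Real.log 2)| + (D + M * Real.log 2)
      + S a (Real.exp 1), ?_⟩
    intro x hx
    have hnn : 0 ≤ M * |Real.log (Real.log 2)| := by positivity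
    have hl2 : 0 < Real.log 2 := Real.log_pos (by norm_num)
    have hSe := S_nonneg a (Real.exp 1)
    have hMl : 0 ≤ M * Real.log 2 := by positivity
    rw [abs_le]
    constructor
    · have := hlow x hx
      linarith
    · rcases lt_or_ge x (Real.exp 1) with h1 | h1
      · have h2 := (abs_le.mp (hsmall x hx h1)).1
        have h3 := S_mono a x (Real.exp 1) h1.le
        linarith
      · have h2 := S_le_AA a x (hx1 x h1)
        have h3 := (abs_le.mp (key2 x h1)).1
        have h4 := hEb (1 / (2 * Real.log x))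
        have e : M * (Real.log (Real.log x) + Real.log 2)
          = M * Real.log (Real.log x) + M * Real.log 2 := by ring
        rw [e] at h3
        linarith

end Pool.Agent.H11.Selberg
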