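import Mathlib

set_option autoImplicit false

namespace Pool.Agent.H11.Selberg

/-- `b` is a sequence of coefficients for the Euler product of `F`:
`|b(p^l)| ≤ C p^(lθ)` for some `θ < 1/2`, and `F(s) = ∏ exp (∑ b(p^l) p^(-ls))` for `Re s > 1`. -/
def EulerCoeff (b : ℕ → ℂ) (F : ℂ → ℂ) : Prop :=
  ∃ θ C : ℝ, θ < 1 / 2 ∧
    (∀ p : ℕ, p.Prime → ∀ l : ℕ, 1 ≤ l → ‖b (p ^ l)‖ ≤ C * ((p : ℝ) ^ l) ^ θ) ∧
    ∀ s : ℂ, 1 < s.re → HasProd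
      (fun p : Nat.Primes => Complex.exp (∑' l : ℕ, b ((p : ℕ) ^ (l + 1)) *
        ((p : ℕ) : ℂ) ^ (-((l : ℂ) + 1) * s))) (F s)

/-- The value at the real point `σ` of the function `F ⊗ conj F`, that is the product over all
primes of `exp (∑ l |b(p^l)|^2 p^(-lσ))`. -/
noncomputable def tensorSquare (b : ℕ → ℂ) (σ : ℝ) : ℝ :=
  ∏' p : Nat.Primes, Real.exp (∑' l : ℕ, ((l : ℝ) + 1) * ‖b ((p : ℕ) ^ (l + 1))‖ ^ 2 *
    ((p : ℕ) : ℝ) ^ (-((l : ℝ) + 1) * σ))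

end Pool.Agent.H11.Selberg
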