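import Mathlib
import Pool.Agent.H11.Selberg.Log3

set_option autoImplicit false

namespace Pool.Agent.H11.Selberg

open Complex Classical Filter

/-- the recursion between the coefficients and the coefficients of the logarithm -/
theorem conv_rec (a : ℕ → ℂ) (ha : ∀ s : ℂ, 1 < s.re → LSeriesSummable a s)
    (b : ℕ → ℂ) (θ C : ℝ) (hθ : θ < 1 / 2)
    (hb : ∀ p : ℕ, p.Prime → ∀ l : ℕ, 1 ≤ l → ‖b (p ^ l)‖ ≤ C * ((p : ℝ) ^ l) ^ θ)
    (hE : ∀ s : ℂ, 1 < s.re → HasProd
      (fun p : Nat.Primes => Complex.exp (∑' l : ℕ, b ((p : ℕ) ^ (l + 1)) *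
        ((p : ℕ) : ℂ) ^ (-((l : ℂ) + 1) * s))) (LSeries a s))
    (n : ℕ) (hn : n ≠ 0) :
    (Real.log n : ℂ) * a n = ∑ q ∈ n.divisors, a (n / q) * ((Real.log q : ℂ) * bb b q) := by
  have hab : LSeries.abscissaOfAbsConv (bb b) ≤ (θ : EReal) + 1 := bb_abscissa b θ C hb
  have haa := abscissa_le_one a ha
  have hθ2 : ∀ s : ℂ, 3 / 2 < s.re → LSeries.abscissaOfAbsConv (bb b) < s.re := by
    intro s hs
    refine lt_of_le_of_lt hab ?_
    have : ((θ : EReal) + 1) = ((θ + 1 : ℝ) : EReal) := by push_cast; rfl
    rw [this, EReal.coe_lt_coe_iff]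
    linarith
  have ha2 : ∀ s : ℂ, 3 / 2 < s.re → LSeries.abscissaOfAbsConv a < s.re := by
    intro s hs
    refine lt_of_le_of_lt haa ?_
    have : (1 : EReal) = ((1 : ℝ) : EReal) := by norm_num
    rw [this, EReal.coe_lt_coe_iff]
    linarith
  have key : ∀ s : ℂ, 3 / 2 < s.re → LSeries a s = Complex.exp (LSeries (bb b) s) := by
    intro s hs
    exact exp_bb b s (LSeriesSummable_of_abscissaOfAbsConv_lt_re (hθ2 s hs)) _
      (hE s (by linarith))
  have key2 : ∀ s : ℂ, 3 / 2 < s.re → LSeries (LSeries.logMul a) s
      = LSeries (LSeries.convolution a (LSeries.logMul (bb b))) s := by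
    intro s hs
    have h1 := LSeries_hasDerivAt (ha2 s hs)
    have h2 := (LSeries_hasDerivAt (hθ2 s hs)).cexp
    have h3 : (LSeries a) =ᶠ[nhds s] fun z => Complex.exp (LSeries (bb b) z) := by
      have : {z : ℂ | 3 / 2 < z.re} ∈ nhds s :=
        (isOpen_lt continuous_const Complex.continuous_re).mem_nhds hs
      filter_upwards [this] with z hz
      exact key z hz
    have h4 := (h1.congr_of_eventuallyEq h3.symm).unique h2
    rw [LSeries_convolution' (LSeriesSummable_of_abscissaOfAbsConv_lt_re (ha2 s hs))
      (LSeriesSummable_logMul_of_lt_re (hθ2 s hs)), key s hs]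
    linear_combination -h4
  have h5 : LSeries.logMul a n = (LSeries.convolution a (LSeries.logMul (bb b))) n := by
    apply LSeries.eq_of_LSeries_eventually_eq _ _ _ hn
    · rw [LSeries.abscissaOfAbsConv_logMul]
      exact (ha2 2 (by norm_num)).trans (EReal.coe_lt_top _)
    · refine lt_of_le_of_lt (LSeries.abscissaOfAbsConv_convolution_le _ _) ?_
      rw [LSeries.abscissaOfAbsConv_logMul]
      exact max_lt ((ha2 2 (by norm_num)).trans (EReal.coe_lt_top _))
        ((hθ2 2 (by norm_num)).trans (EReal.coe_lt_top _))
    · filter_upwards [eventually_gt_atTop (3 / 2 : ℝ)] with x hx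
      exact key2 x (by simpa using hx)
  rw [LSeries.convolution_def] at h5
  simp only [LSeries.logMul] at h5
  rw [Complex.natCast_log, h5, Nat.sum_divisorsAntidiagonal'
    (fun i j => a i * (Complex.log j * bb b j))]
  apply Finset.sum_congr rfl
  intro q _
  rw [Complex.natCast_log]

/-- a sequence with such a recursion is multiplicative -/
theorem mult_of_rec (a g : ℕ → ℂ) (ha1 : a 1 = 1) (hg : ∀ q, ¬ IsPrimePow q → g q = 0)
    (hrec : ∀ n : ℕ, n ≠ 0 → (Real.log n : ℂ) * a n = ∑ q ∈ n.divisors, a (n / q) * g q) :
    ∀ N m n : ℕ, m * n = N → N ≠ 0 → Nat.Coprime m n → a (m * n) = a m * a n := by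
  intro N
  induction N using Nat.strong_induction_on with
  | _ N ih =>
    intro m n hN hN0 hcop
    have hm0 : m ≠ 0 := by rintro rfl; simp at hN; omega
    have hn0 : n ≠ 0 := by rintro rfl; simp at hN; omega
    rcases Nat.lt_or_ge N 2 with h1 | h1
    · have hm1 : m = 1 := by
        have := Nat.eq_one_of_mul_eq_one_right (m := m) (n := n) (by omega)
        exact this
      subst hm1
      rw [one_mul, ha1, one_mul]
    · have e1 : (Real.log (m * n : ℕ) : ℂ) * a (m * n) = ((Real.log m : ℂ) + Real.log n) *
          (a m * a n) := by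
        rw [hrec (m * n) (by rw [hN]; exact hN0)]
        have e2 : ∀ k : ℕ, (∑ q ∈ k.divisors, a (k / q) * g q)
            = ∑ q ∈ k.divisors.filter IsPrimePow, a (k / q) * g q := by
          intro k
          rw [Finset.sum_filter]
          apply Finset.sum_congr rfl
          intro q _
          split_ifs with hq
          · rfl
          · rw [hg q hq, mul_zero]
        have e2' : (∑ q ∈ (m * n).divisors, a (m * n / q) * g q)
            = ∑ q ∈ (m * n).divisors.filter IsPrimePow, a (m * n / q) * g q := e2 (m * n)
        rw [e2', Nat.mul_divisors_filter_prime_pow hcop, Finset.filter_union,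
          Finset.sum_union]
        · have e3 : (∑ q ∈ m.divisors.filter IsPrimePow, a (m * n / q) * g q)
              = (Real.log m : ℂ) * a m * a n := by
            rw [hrec m hm0, e2 m, Finset.sum_mul]
            apply Finset.sum_congr rfl
            intro q hq
            rw [Finset.mem_filter, Nat.mem_divisors] at hq
            obtain ⟨⟨⟨c, rfl⟩, _⟩, hqp⟩ := hq
            have hq1 := hqp.one_lt
            have hc0 : 0 < c := Nat.pos_of_ne_zero (by rintro rfl; simp at hm0)
            rw [mul_assoc q c n, Nat.mul_div_cancel_left _ (by omega : 0 < q),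
              Nat.mul_div_cancel_left _ (by omega : 0 < q)]
            rw [ih (c * n) (by
                rw [← hN, mul_assoc]
                have : 0 < c * n := Nat.mul_pos hc0 (Nat.pos_of_ne_zero hn0)
                nlinarith) c n rfl (Nat.mul_ne_zero (by omega) hn0)
              (Nat.Coprime.coprime_mul_left hcop)]
            ring
          have e4 : (∑ q ∈ n.divisors.filter IsPrimePow, a (m * n / q) * g q)
              = (Real.log n : ℂ) * a n * a m := by
            rw [hrec n hn0, e2 n, Finset.sum_mul]
            apply Finset.sum_congr rfl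
            intro q hq
            rw [Finset.mem_filter, Nat.mem_divisors] at hq
            obtain ⟨⟨⟨c, rfl⟩, _⟩, hqp⟩ := hq
            have hq1 := hqp.one_lt
            have hc0 : 0 < c := Nat.pos_of_ne_zero (by rintro rfl; simp at hn0)
            have e5 : m * (q * c) / q = m * c := by
              rw [show m * (q * c) = q * (m * c) by ring, Nat.mul_div_cancel_left _ (by omega : 0 < q)]
            rw [e5, Nat.mul_div_cancel_left _ (by omega : 0 < q)]
            rw [ih (m * c) (by
                rw [← hN]
                have : 0 < m * c := Nat.mul_pos (Nat.pos_of_ne_zero hm0) hc0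
                have e6 : m * (q * c) = q * (m * c) := by ring
                rw [e6]
                nlinarith) m c rfl (Nat.mul_ne_zero hm0 (by omega))
              (Nat.Coprime.coprime_mul_left_right hcop)]
            ring
          rw [e3, e4]
          ring
        · rw [Finset.disjoint_left]
          intro q hq1 hq2
          rw [Finset.mem_filter, Nat.mem_divisors] at hq1 hq2
          have h2 : q ∣ Nat.gcd m n := Nat.dvd_gcd hq1.1.1 hq2.1.1
          rw [hcop] at h2
          have h3 := hq1.2.one_lt
          have h4 := Nat.le_of_dvd one_pos h2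
          omega
      have e7 : (Real.log (m * n : ℕ) : ℂ) = (Real.log m : ℂ) + Real.log n := by
        rw [← Complex.ofReal_add, Nat.cast_mul,
          Real.log_mul (by exact_mod_cast hm0) (by exact_mod_cast hn0)]
      rw [e7] at e1
      have e8 : ((Real.log m : ℂ) + Real.log n) ≠ 0 := by
        rw [← e7]
        norm_cast
        apply (Real.log_pos _).ne'
        rw [hN]
        exact_mod_cast (by omega : 1 < N)
      exact mul_left_cancel₀ e8 e1

end Pool.Agent.H11.Selberg
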