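import Mathlib

set_option autoImplicit false

namespace Pool.Agent.H11.Selberg

open Finset

/-- partial sums up to `x` -/
noncomputable def Sc (c : ℕ → ℝ) (x : ℝ) : ℝ := ∑ n ∈ Icc 1 ⌊x⌋₊, c n

/-- the Dirichlet series of `c` at the real point `δ` -/
noncomputable def Gc (c : ℕ → ℝ) (δ : ℝ) : ℝ := ∑' n : ℕ, c n * (n : ℝ) ^ (-δ)

structure Adm (c : ℕ → ℝ) : Prop where
  nonneg : ∀ n, 0 ≤ c n
  zero : c 0 = 0
  summable : ∀ δ : ℝ, 0 < δ → Summable (fun n : ℕ => c n * (n : ℝ) ^ (-δ))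

theorem mem_Icc_floor (x : ℝ) (n : ℕ) (hn : 1 ≤ n) : n ∈ Icc 1 ⌊x⌋₊ ↔ (n : ℝ) ≤ x := by
  rw [mem_Icc]
  constructor
  · rintro ⟨_, h⟩
    exact (Nat.le_floor_iff' (by omega)).mp h
  · intro h
    exact ⟨hn, Nat.le_floor h⟩

theorem Sc_mono (c : ℕ → ℝ) (hc : Adm c) (x z : ℝ) (h : x ≤ z) : Sc c x ≤ Sc c z := by
  apply sum_le_sum_of_subset_of_nonneg
  · exact Icc_subset_Icc_right (Nat.floor_mono h)
  · intro i _ _
    exact hc.nonneg i

theorem Sc_nonneg (c : ℕ → ℝ) (hc : Adm c) (x : ℝ) : 0 ≤ Sc c x :=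
  sum_nonneg (fun i _ => hc.nonneg i)

theorem rpow_eq (n : ℕ) (hn : 1 ≤ n) (δ : ℝ) : (n : ℝ) ^ (-δ) = Real.exp (-(δ * Real.log n)) := by
  have h0 : (0 : ℝ) < n := by exact_mod_cast hn
  rw [Real.rpow_def_of_pos h0]
  congr 1
  ring

/-- comparison of the Dirichlet series with the partial sum -/
theorem compare (c : ℕ → ℝ) (hc : Adm c) (δ : ℝ) (hδ : 0 < δ) :
    |Sc c (Real.exp (1 / δ)) - Gc c δ| ≤ 3 * (Gc c δ - Gc c (2 * δ))
      + 2 * (Gc c (δ / 2) - Gc c δ) := by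
  have s1 := hc.summable δ hδ
  have s2 := hc.summable (2 * δ) (by positivity)
  have s3 := hc.summable (δ / 2) (by positivity)
  have hS : HasSum (fun n : ℕ => if n ∈ Icc 1 ⌊Real.exp (1 / δ)⌋₊ then c n else 0)
      (Sc c (Real.exp (1 / δ))) := by
    unfold Sc
    have : HasSum (fun n : ℕ => if n ∈ Icc 1 ⌊Real.exp (1 / δ)⌋₊ then c n else 0)
        (∑ n ∈ Icc 1 ⌊Real.exp (1 / δ)⌋₊,
          if n ∈ Icc 1 ⌊Real.exp (1 / δ)⌋₊ then c n else 0) :=
      hasSum_sum_of_ne_finset_zero (fun n hn => if_neg hn)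
    rw [sum_congr rfl (fun n hn => if_pos hn)] at this
    exact this
  have hD := hS.sub s1.hasSum
  have hR := ((s1.hasSum.sub s2.hasSum).mul_left 3).add ((s3.hasSum.sub s1.hasSum).mul_left 2)
  have hpt : ∀ n : ℕ, |(if n ∈ Icc 1 ⌊Real.exp (1 / δ)⌋₊ then c n else 0) - c n * (n : ℝ) ^ (-δ)|
      ≤ 3 * (c n * (n : ℝ) ^ (-δ) - c n * (n : ℝ) ^ (-(2 * δ)))
        + 2 * (c n * (n : ℝ) ^ (-(δ / 2)) - c n * (n : ℝ) ^ (-δ)) := by
    intro n
    rcases Nat.eq_zero_or_pos n with rfl | hn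
    · simp [hc.zero]
    · rw [rpow_eq n hn, rpow_eq n hn, rpow_eq n hn]
      set u : ℝ := δ * Real.log n with hu
      have hn1 : (1 : ℝ) ≤ n := by exact_mod_cast hn
      have hu0 : 0 ≤ u := by have := Real.log_nonneg hn1; positivity
      have e2 : Real.exp (-(2 * δ * Real.log n)) = Real.exp (-u) ^ 2 := by
        rw [← Real.exp_nat_mul]; congr 1; rw [hu]; push_cast; ring
      set v : ℝ := Real.exp (-(δ / 2 * Real.log n)) with hv
      have e3 : Real.exp (-u) = v ^ 2 := by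
        rw [hv, ← Real.exp_nat_mul]; congr 1; rw [hu]; push_cast; ring
      have hv0 : 0 < v := Real.exp_pos _
      have hv1 : v ≤ 1 := by
        rw [hv, Real.exp_le_one_iff]
        have := Real.log_nonneg hn1
        have : 0 ≤ δ / 2 * Real.log n := by positivity
        linarith
      rw [e2, e3]
      have hcn := hc.nonneg n
      have hcase : n ∈ Icc 1 ⌊Real.exp (1 / δ)⌋₊ ↔ u ≤ 1 := by
        rw [mem_Icc_floor _ n hn, ← Real.log_le_iff_le_exp (by linarith), hu, le_div_iff₀ hδ]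
        rw [mul_comm]
      have a1 : 0 ≤ v ^ 2 - (v ^ 2) ^ 2 := by
        have : v ^ 2 ≤ 1 := by nlinarith
        nlinarith [sq_nonneg v]
      have a2 : 0 ≤ v - v ^ 2 := by nlinarith
      by_cases h1 : u ≤ 1
      · rw [if_pos (hcase.mpr h1)]
        have h2 : Real.exp (-1) ≤ v ^ 2 := by
          rw [← e3]
          exact Real.exp_le_exp.mpr (by linarith)
        have h3 : (1 / 3 : ℝ) ≤ Real.exp (-1) := by
          rw [Real.exp_neg, ← one_div]
          apply one_div_le_one_div_of_le (Real.exp_pos _)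
          linarith [Real.exp_one_lt_d9]
        have h4 : 0 ≤ 1 - v ^ 2 := by nlinarith
        have h5 : c n - c n * v ^ 2 = c n * (1 - v ^ 2) := by ring
        rw [h5, abs_of_nonneg (mul_nonneg hcn h4)]
        have h6 : 1 - v ^ 2 ≤ 3 * (v ^ 2 - (v ^ 2) ^ 2) := by nlinarith
        have h7 := mul_le_mul_of_nonneg_left h6 hcn
        have h8 := mul_nonneg hcn a2
        nlinarith
      · rw [if_neg (fun h => h1 (hcase.mp h))]
        push Not at h1
        have h2 : v ^ 2 < Real.exp (-1) := by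
          rw [← e3]
          exact Real.exp_lt_exp.mpr (by linarith)
        have h3 : Real.exp (-1) ≤ (4 / 9 : ℝ) := by
          rw [Real.exp_neg, ← one_div, div_le_div_iff₀ (Real.exp_pos _) (by norm_num)]
          linarith [Real.exp_one_gt_d9]
        have h4 : v ≤ 2 / 3 := by nlinarith
        rw [zero_sub, abs_neg, abs_of_nonneg (by positivity)]
        have h6 : v ^ 2 ≤ 2 * (v - v ^ 2) := by nlinarith
        have h7 := mul_le_mul_of_nonneg_left h6 hcn
        have h8 := mul_nonneg hcn a1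
        nlinarith
  have h1 : |∑' n : ℕ, ((if n ∈ Icc 1 ⌊Real.exp (1 / δ)⌋₊ then c n else 0)
      - c n * (n : ℝ) ^ (-δ))| ≤ ∑' n : ℕ, (3 * (c n * (n : ℝ) ^ (-δ) - c n * (n : ℝ) ^ (-(2 * δ)))
        + 2 * (c n * (n : ℝ) ^ (-(δ / 2)) - c n * (n : ℝ) ^ (-δ))) := by
    rw [← Real.norm_eq_abs]
    exact tsum_of_norm_bounded hR.summable.hasSum (fun n => by
      rw [Real.norm_eq_abs]; exact hpt n)
  rw [hD.tsum_eq, hR.tsum_eq] at h1
  exact h1

end Pool.Agent.H11.Selberg
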