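import Mathlib
import Pool.Agent.H11.Selberg.Taub

set_option autoImplicit false

namespace Pool.Agent.H11.Selberg

open Finset

theorem sum_geo_half (K : ℕ) : ∑ k ∈ range K, (1 / 2 : ℝ) ^ (k + 1) = 1 - (1 / 2 : ℝ) ^ K := by
  induction K with
  | zero => simp
  | succ n ih =>
    rw [sum_range_succ, ih]
    ring

theorem sum_geo_lin (K : ℕ) : ∑ k ∈ range K, ((k : ℝ) + 1) * (1 / 2 : ℝ) ^ (k + 1) ≤ 2 := by
  have h : ∀ K : ℕ, ∑ k ∈ range K, ((k : ℝ) + 1) * (1 / 2 : ℝ) ^ (k + 1)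
      = 2 - ((K : ℝ) + 2) * (1 / 2) ^ K := by
    intro K
    induction K with
    | zero => norm_num
    | succ n ih =>
      rw [sum_range_succ, ih]
      push_cast
      ring
  rw [h]
  have : 0 ≤ ((K : ℝ) + 2) * (1 / 2) ^ K := by positivity
  linarith

/-- the pointwise lower bound -/
theorem pt_lower (u : ℝ) (hu : 0 ≤ u) (K : ℕ) :
    ∑ k ∈ range K, (if u ≤ (1 / 2 : ℝ) ^ (k + 1) then (1 / 2 : ℝ) ^ (k + 1) else 0) ≤ 1 - u
      ∨ 1 / 2 < u ∨ u = 0 := by
  by_cases h0 : u = 0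
  · exact Or.inr (Or.inr h0)
  by_cases h1 : 1 / 2 < u
  · exact Or.inr (Or.inl h1)
  left
  push Not at h1
  have hupos : 0 < u := lt_of_le_of_ne hu (Ne.symm h0)
  obtain ⟨m, hm1, hm2⟩ : ∃ m : ℕ, u ≤ (1 / 2 : ℝ) ^ m ∧ (1 / 2 : ℝ) ^ (m + 1) < u := by
    have h2 : ∃ n : ℕ, (1 / 2 : ℝ) ^ n < u := exists_pow_lt_of_lt_one hupos (by norm_num)
    classical
    have h3 := Nat.find_spec h2
    have h4 : Nat.find h2 ≠ 0 := by
      intro h
      rw [h, pow_zero] at h3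
      linarith
    refine ⟨Nat.find h2 - 1, ?_, ?_⟩
    · have := Nat.find_min h2 (m := Nat.find h2 - 1) (by omega)
      push Not at this
      exact this
    · rw [Nat.sub_add_cancel (by omega)]
      exact h3
  calc ∑ k ∈ range K, (if u ≤ (1 / 2 : ℝ) ^ (k + 1) then (1 / 2 : ℝ) ^ (k + 1) else 0)
      ≤ ∑ k ∈ range m, (1 / 2 : ℝ) ^ (k + 1) := by
        rw [← sum_filter]
        apply sum_le_sum_of_subset_of_nonneg
        · intro k hk
          rw [mem_filter] at hk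
          rw [mem_range]
          by_contra hc
          push Not at hc
          have : (1 / 2 : ℝ) ^ (k + 1) ≤ (1 / 2 : ℝ) ^ (m + 1) :=
            pow_le_pow_of_le_one (by norm_num) (by norm_num) (by omega)
          linarith [hk.2]
        · intro k _ _
          positivity
    _ = 1 - (1 / 2 : ℝ) ^ m := sum_geo_half m
    _ ≤ 1 - u := by linarith

theorem pt_lower' (u : ℝ) (hu : 0 ≤ u) (K : ℕ) :
    ∑ k ∈ range K, (if u ≤ (1 / 2 : ℝ) ^ (k + 1) then (1 / 2 : ℝ) ^ (k + 1) else 0)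
      ≤ Real.exp (-u) := by
  rcases pt_lower u hu K with h | h | h
  · exact h.trans (by linarith [Real.add_one_le_exp (-u)])
  · have : ∑ k ∈ range K, (if u ≤ (1 / 2 : ℝ) ^ (k + 1) then (1 / 2 : ℝ) ^ (k + 1) else 0) = 0 := by
      apply sum_eq_zero
      intro k _
      rw [if_neg]
      intro hc
      have : (1 / 2 : ℝ) ^ (k + 1) ≤ (1 / 2 : ℝ) ^ 1 :=
        pow_le_pow_of_le_one (by norm_num) (by norm_num) (by omega)
      rw [pow_one] at this
      linarith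
    rw [this]
    exact (Real.exp_pos _).le
  · subst h
    rw [neg_zero, Real.exp_zero]
    have h1 : ∑ k ∈ range K, (if (0 : ℝ) ≤ (1 / 2 : ℝ) ^ (k + 1) then (1 / 2 : ℝ) ^ (k + 1) else 0)
        = ∑ k ∈ range K, (1 / 2 : ℝ) ^ (k + 1) :=
      sum_congr rfl (fun k _ => if_pos (by positivity))
    rw [h1, sum_geo_half]
    have : (0 : ℝ) ≤ (1 / 2 : ℝ) ^ K := by positivity
    linarith

/-- a lower bound for the Dirichlet series by partial sums -/
theorem Gc_lower (c : ℕ → ℝ) (hc : Adm c) (δ : ℝ) (hδ : 0 < δ) (K : ℕ) :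
    ∑ k ∈ range K, (1 / 2 : ℝ) ^ (k + 1) * Sc c (Real.exp ((1 / 2 : ℝ) ^ (k + 1) / δ))
      ≤ Gc c δ := by
  have s1 := hc.summable δ hδ
  set N : ℕ := ⌊Real.exp (1 / δ)⌋₊ with hN
  have h1 : ∑ n ∈ Icc 1 N, c n * (n : ℝ) ^ (-δ) ≤ Gc c δ := by
    apply s1.sum_le_tsum
    intro n _
    exact mul_nonneg (hc.nonneg n) (by positivity)
  refine le_trans ?_ h1
  have h2 : ∀ k ∈ range K, (1 / 2 : ℝ) ^ (k + 1) * Sc c (Real.exp ((1 / 2 : ℝ) ^ (k + 1) / δ))
      = ∑ n ∈ Icc 1 N, c n * (if δ * Real.log n ≤ (1 / 2 : ℝ) ^ (k + 1)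
        then (1 / 2 : ℝ) ^ (k + 1) else 0) := by
    intro k _
    have hle : (1 / 2 : ℝ) ^ (k + 1) / δ ≤ 1 / δ := by
      apply div_le_div_of_nonneg_right _ hδ.le
      exact pow_le_one₀ (by norm_num) (by norm_num)
    unfold Sc
    rw [mul_sum]
    have hsub : Icc 1 ⌊Real.exp ((1 / 2 : ℝ) ^ (k + 1) / δ)⌋₊ ⊆ Icc 1 N :=
      Icc_subset_Icc_right (Nat.floor_mono (Real.exp_le_exp.mpr hle))
    rw [← sum_subset hsub]
    · apply sum_congr rfl
      intro n hn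
      have hn1 : 1 ≤ n := (mem_Icc.mp hn).1
      rw [mem_Icc_floor _ n hn1] at hn
      have hn0 : (0 : ℝ) < n := by exact_mod_cast hn1
      rw [← Real.log_le_iff_le_exp hn0, le_div_iff₀ hδ] at hn
      rw [if_pos (by linarith)]
      ring
    · intro n hn hn'
      have hn1 : 1 ≤ n := (mem_Icc.mp hn).1
      rw [mem_Icc_floor _ n hn1] at hn'
      have hn0 : (0 : ℝ) < n := by exact_mod_cast hn1
      rw [← Real.log_le_iff_le_exp hn0, le_div_iff₀ hδ] at hn'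
      rw [if_neg (by intro h; exact hn' (by linarith)), mul_zero]
  rw [sum_congr rfl h2, sum_comm]
  apply sum_le_sum
  intro n hn
  rw [← mul_sum]
  apply mul_le_mul_of_nonneg_left _ (hc.nonneg n)
  have hn1 : 1 ≤ n := (mem_Icc.mp hn).1
  rw [rpow_eq n hn1]
  have h3 : 0 ≤ δ * Real.log n := by
    have : (1 : ℝ) ≤ n := by exact_mod_cast hn1
    have := Real.log_nonneg this
    positivity
  exact pt_lower' _ h3 K

/-- an upper bound for the Dirichlet series by partial sums -/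
theorem Gc_upper (c : ℕ → ℝ) (hc : Adm c) (δ : ℝ) (hδ : 0 < δ) (B : ℕ → ℝ)
    (hB : ∀ j : ℕ, 1 ≤ j → Sc c (Real.exp ((j + 1) / δ)) - Sc c (Real.exp (j / δ)) ≤ B j)
    (hBs : Summable (fun j : ℕ => Real.exp (-((j : ℝ) + 1)) * B (j + 1))) (hB0 : ∀ j, 0 ≤ B j) :
    Gc c δ ≤ Sc c (Real.exp (1 / δ)) + ∑' j : ℕ, Real.exp (-((j : ℝ) + 1)) * B (j + 1) := by
  have s1 := hc.summable δ hδ
  have hstep : ∀ J : ℕ, ∑ n ∈ Icc 1 ⌊Real.exp ((J + 1) / δ)⌋₊, c n * (n : ℝ) ^ (-δ)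
      ≤ Sc c (Real.exp (1 / δ)) + ∑ j ∈ range J, Real.exp (-((j : ℝ) + 1)) * B (j + 1) := by
    intro J
    induction J with
    | zero =>
      simp only [Nat.cast_zero, zero_add, range_zero, sum_empty, add_zero]
      unfold Sc
      apply sum_le_sum
      intro n hn
      have hn1 : 1 ≤ n := (mem_Icc.mp hn).1
      rw [rpow_eq n hn1]
      have h3 : 0 ≤ δ * Real.log n := by
        have : (1 : ℝ) ≤ n := by exact_mod_cast hn1
        have := Real.log_nonneg this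
        positivity
      have h4 : Real.exp (-(δ * Real.log n)) ≤ 1 := by
        rw [Real.exp_le_one_iff]; linarith
      calc c n * Real.exp (-(δ * Real.log n)) ≤ c n * 1 :=
            mul_le_mul_of_nonneg_left h4 (hc.nonneg n)
        _ = c n := mul_one _
    | succ J ih =>
      have hle : ((J : ℝ) + 1) / δ ≤ ((J + 1 : ℕ) + 1) / δ := by
        apply div_le_div_of_nonneg_right _ hδ.le
        push_cast; linarith
      have hsub : Icc 1 ⌊Real.exp (((J : ℝ) + 1) / δ)⌋₊ ⊆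
          Icc 1 ⌊Real.exp (((J + 1 : ℕ) + 1) / δ)⌋₊ :=
        Icc_subset_Icc_right (Nat.floor_mono (Real.exp_le_exp.mpr hle))
      rw [← sum_sdiff hsub, sum_range_succ]
      have h5 : ∑ n ∈ Icc 1 ⌊Real.exp (((J + 1 : ℕ) + 1) / δ)⌋₊ \
          Icc 1 ⌊Real.exp (((J : ℝ) + 1) / δ)⌋₊, c n * (n : ℝ) ^ (-δ)
          ≤ Real.exp (-((J : ℝ) + 1)) * B (J + 1) := by
        have h6 : ∑ n ∈ Icc 1 ⌊Real.exp (((J + 1 : ℕ) + 1) / δ)⌋₊ \
          Icc 1 ⌊Real.exp (((J : ℝ) + 1) / δ)⌋₊, c n * (n : ℝ) ^ (-δ)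
          ≤ ∑ n ∈ Icc 1 ⌊Real.exp (((J + 1 : ℕ) + 1) / δ)⌋₊ \
          Icc 1 ⌊Real.exp (((J : ℝ) + 1) / δ)⌋₊, Real.exp (-((J : ℝ) + 1)) * c n := by
          apply sum_le_sum
          intro n hn
          rw [mem_sdiff] at hn
          have hn1 : 1 ≤ n := (mem_Icc.mp hn.1).1
          have hn2 := hn.2
          rw [mem_Icc_floor _ n hn1] at hn2
          push Not at hn2
          have hn0 : (0 : ℝ) < n := by exact_mod_cast hn1
          rw [← Real.lt_log_iff_exp_lt hn0, div_lt_iff₀ hδ] at hn2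
          rw [rpow_eq n hn1, mul_comm]
          apply mul_le_mul_of_nonneg_right _ (hc.nonneg n)
          apply Real.exp_le_exp.mpr
          linarith
        refine h6.trans ?_
        rw [← mul_sum]
        apply mul_le_mul_of_nonneg_left _ (Real.exp_pos _).le
        have h7 := hB (J + 1) (by omega)
        have h8 : ∑ n ∈ Icc 1 ⌊Real.exp (((J + 1 : ℕ) + 1) / δ)⌋₊ \
            Icc 1 ⌊Real.exp (((J : ℝ) + 1) / δ)⌋₊, c n
            = Sc c (Real.exp (((J + 1 : ℕ) + 1) / δ)) - Sc c (Real.exp ((J + 1 : ℕ) / δ)) := by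
          unfold Sc
          rw [eq_sub_iff_add_eq]
          have := sum_sdiff (f := c) hsub
          push_cast at this ⊢
          exact this
        rw [h8]
        exact h7
      linarith
  have hfin : ∀ J : ℕ, ∑ j ∈ range J, Real.exp (-((j : ℝ) + 1)) * B (j + 1)
      ≤ ∑' j : ℕ, Real.exp (-((j : ℝ) + 1)) * B (j + 1) := fun J =>
    hBs.sum_le_tsum _ (fun j _ => mul_nonneg (Real.exp_pos _).le (hB0 _))
  unfold Gc
  apply s1.tsum_le_of_sum_le
  intro s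
  obtain ⟨M, hM⟩ : ∃ M : ℕ, ∀ n ∈ s, n ≤ M := ⟨s.sup id, fun n hn => le_sup (f := id) hn⟩
  obtain ⟨J, hJ⟩ : ∃ J : ℕ, (M : ℝ) ≤ Real.exp ((J + 1) / δ) := by
    obtain ⟨J, hJ⟩ := exists_nat_gt (M * δ : ℝ)
    refine ⟨J, ?_⟩
    have : (M : ℝ) ≤ (J + 1) / δ := by
      rw [le_div_iff₀ hδ]; linarith
    linarith [Real.add_one_le_exp (((J : ℝ) + 1) / δ)]
  have h9 : ∑ n ∈ s, c n * (n : ℝ) ^ (-δ)
      ≤ ∑ n ∈ Icc 1 ⌊Real.exp ((J + 1) / δ)⌋₊, c n * (n : ℝ) ^ (-δ) := by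
    have h10 : ∑ n ∈ s, c n * (n : ℝ) ^ (-δ) = ∑ n ∈ s.filter (fun n => n ≠ 0),
        c n * (n : ℝ) ^ (-δ) := by
      rw [sum_filter]
      apply sum_congr rfl
      intro n _
      split_ifs with h
      · rfl
      · push Not at h
        rw [h, hc.zero, zero_mul]
    rw [h10]
    apply sum_le_sum_of_subset_of_nonneg
    · intro n hn
      rw [mem_filter] at hn
      have hn1 : 1 ≤ n := by omega
      rw [mem_Icc_floor _ n hn1]
      have : (n : ℝ) ≤ M := by exact_mod_cast hM n hn.1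
      linarith
    · intro n _ _
      exact mul_nonneg (hc.nonneg n) (by positivity)
  exact h9.trans ((hstep J).trans (by have := hfin J; linarith))

end Pool.Agent.H11.Selberg
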