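import Mathlib
import Pool.Agent.H11.Selberg.Taub2

set_option autoImplicit false

namespace Pool.Agent.H11.Selberg

open Finset

theorem summable_exp_lin : Summable (fun j : ℕ => Real.exp (-((j : ℝ) + 1))) := by
  have h1 : Summable (fun j : ℕ => (Real.exp (-1)) ^ j) := by
    apply summable_geometric_of_lt_one (Real.exp_pos _).le
    rw [Real.exp_lt_one_iff]; norm_num
  have h2 := h1.mul_left (Real.exp (-1))
  refine h2.congr (fun j => ?_)
  rw [← Real.exp_nat_mul, ← Real.exp_add]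
  congr 1
  ring

theorem taub_log_mp (c : ℕ → ℝ) (hc : Adm c) (κ : ℝ) (hκ : 0 ≤ κ)
    (h : ∃ C : ℝ, ∀ x : ℝ, 2 ≤ x → |Sc c x - κ * Real.log (Real.log x)| ≤ C) :
    ∃ C : ℝ, ∀ δ : ℝ, 0 < δ → δ ≤ 1 → |Gc c δ + κ * Real.log δ| ≤ C := by
  obtain ⟨C, hC⟩ := h
  have hC0 : 0 ≤ C := (abs_nonneg _).trans (hC 2 le_rfl)
  have he2 : (2 : ℝ) ≤ Real.exp 1 := by linarith [Real.exp_one_gt_d9]
  have hSv : ∀ v : ℝ, 1 ≤ v → |Sc c (Real.exp v) - κ * Real.log v| ≤ C := by
    intro v hv
    have := hC (Real.exp v) (he2.trans (Real.exp_le_exp.mpr hv))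
    rwa [Real.log_exp] at this
  have hSl : ∀ v : ℝ, 0 < v → κ * Real.log v - C ≤ Sc c (Real.exp v) := by
    intro v hv
    rcases lt_or_ge v 1 with h1 | h1
    · have h2 : Real.log v ≤ 0 := Real.log_nonpos hv.le h1.le
      have h3 := Sc_nonneg c hc (Real.exp v)
      nlinarith
    · have := (abs_le.mp (hSv v h1)).1
      linarith
  set D : ℝ := ∑' j : ℕ, Real.exp (-((j : ℝ) + 1)) * (κ + 2 * C) with hD
  have hDs : Summable (fun j : ℕ => Real.exp (-((j : ℝ) + 1)) * (κ + 2 * C)) :=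
    summable_exp_lin.mul_right _
  have hD0 : 0 ≤ D := tsum_nonneg (fun j => by positivity)
  refine ⟨C + D + (1 + 2 * κ * Real.log 2), ?_⟩
  intro δ hδ hδ1
  have hl2 : 0 < Real.log 2 := Real.log_pos (by norm_num)
  have hup : Gc c δ ≤ Sc c (Real.exp (1 / δ)) + D := by
    apply Gc_upper c hc δ hδ (fun _ => κ + 2 * C) _ hDs (fun _ => by positivity)
    intro j hj
    have hj1 : (1 : ℝ) ≤ j := by exact_mod_cast hj
    have hjδ : 1 ≤ (j : ℝ) / δ := by
      rw [le_div_iff₀ hδ]; linarith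
    have hjδ2 : 1 ≤ ((j : ℝ) + 1) / δ := by
      rw [le_div_iff₀ hδ]; linarith
    have h1 := (abs_le.mp (hSv _ hjδ2)).2
    have h2 := (abs_le.mp (hSv _ hjδ)).1
    have h3 : Real.log (((j : ℝ) + 1) / δ) - Real.log ((j : ℝ) / δ) ≤ 1 := by
      rw [← Real.log_div (by positivity) (by positivity)]
      have h4 : ((j : ℝ) + 1) / δ / ((j : ℝ) / δ) = 1 + 1 / j := by
        field_simp
      rw [h4]
      have h5 := Real.log_le_sub_one_of_pos (show (0 : ℝ) < 1 + 1 / j by positivity)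
      have h6 : (1 : ℝ) / j ≤ 1 := by rw [div_le_one (by linarith)]; exact hj1
      linarith
    have h7 := mul_le_mul_of_nonneg_left h3 hκ
    nlinarith
  have h8 : 1 ≤ 1 / δ := by rw [le_div_iff₀ hδ]; linarith
  have h9 := hSv (1 / δ) h8
  rw [one_div, Real.log_inv] at h9
  rw [one_div] at hup
  have h10 := (abs_le.mp h9).2
  have hlδ : Real.log δ ≤ 0 := Real.log_nonpos hδ.le hδ1
  rw [abs_le]
  constructor
  · -- lower bound
    obtain ⟨K, hK⟩ : ∃ K : ℕ, κ * (-Real.log δ) * (1 / 2 : ℝ) ^ K ≤ 1 := by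
      have hX : 0 ≤ κ * (-Real.log δ) := mul_nonneg hκ (by linarith)
      obtain ⟨K, hK⟩ := exists_pow_lt_of_lt_one
        (show (0 : ℝ) < 1 / (κ * (-Real.log δ) + 1) by positivity) (show (1 / 2 : ℝ) < 1 by norm_num)
      refine ⟨K, ?_⟩
      rw [lt_div_iff₀ (by positivity)] at hK
      have : 0 < (1 / 2 : ℝ) ^ K := by positivity
      nlinarith
    have h11 := Gc_lower c hc δ hδ K
    have h12 : ∑ k ∈ range K, (1 / 2 : ℝ) ^ (k + 1) * (κ * (-Real.log δ - ((k : ℝ) + 1) * Real.log 2)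
        - C) ≤ ∑ k ∈ range K, (1 / 2 : ℝ) ^ (k + 1) *
          Sc c (Real.exp ((1 / 2 : ℝ) ^ (k + 1) / δ)) := by
      apply sum_le_sum
      intro k _
      apply mul_le_mul_of_nonneg_left _ (by positivity)
      have h13 := hSl ((1 / 2 : ℝ) ^ (k + 1) / δ) (by positivity)
      rw [Real.log_div (by positivity) hδ.ne', Real.log_pow] at h13
      have h14 : Real.log (1 / 2) = -Real.log 2 := by rw [one_div, Real.log_inv]
      rw [h14] at h13
      push_cast at h13
      linarith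
    have h15 : ∑ k ∈ range K, (1 / 2 : ℝ) ^ (k + 1) * (κ * (-Real.log δ - ((k : ℝ) + 1) * Real.log 2)
        - C) = (κ * (-Real.log δ) - C) * (∑ k ∈ range K, (1 / 2 : ℝ) ^ (k + 1))
          - κ * Real.log 2 * ∑ k ∈ range K, ((k : ℝ) + 1) * (1 / 2 : ℝ) ^ (k + 1) := by
      rw [mul_sum, mul_sum, ← sum_sub_distrib]
      apply sum_congr rfl
      intro k _
      ring
    rw [h15, sum_geo_half] at h12
    have h16 := sum_geo_lin K
    have h17 : κ * Real.log 2 * ∑ k ∈ range K, ((k : ℝ) + 1) * (1 / 2 : ℝ) ^ (k + 1)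
        ≤ κ * Real.log 2 * 2 := mul_le_mul_of_nonneg_left h16 (by positivity)
    have h18 : 0 < (1 / 2 : ℝ) ^ K := by positivity
    have h19 : (κ * (-Real.log δ) - C) * (1 - (1 / 2 : ℝ) ^ K)
        ≥ κ * (-Real.log δ) - C - 1 := by
      have : 0 ≤ C * (1 / 2 : ℝ) ^ K := by positivity
      nlinarith
    have h20 := h12.trans h11
    nlinarith
  · have h21 : 0 ≤ 1 + 2 * κ * Real.log 2 := by positivity
    linarith

theorem taub_log_mpr (c : ℕ → ℝ) (hc : Adm c) (κ : ℝ) (hκ : 0 ≤ κ)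
    (h : ∃ C : ℝ, ∀ δ : ℝ, 0 < δ → δ ≤ 1 → |Gc c δ + κ * Real.log δ| ≤ C) :
    ∃ C : ℝ, ∀ x : ℝ, 2 ≤ x → |Sc c x - κ * Real.log (Real.log x)| ≤ C := by
  obtain ⟨C, hC⟩ := h
  have hC0 : 0 ≤ C := (abs_nonneg _).trans (hC 1 one_pos le_rfl)
  have hl2 : 0 < Real.log 2 := Real.log_pos (by norm_num)
  refine ⟨C + 5 * (κ * Real.log 2 + 2 * C) + Sc c (Real.exp 2)
    + κ * (|Real.log (Real.log 2)| + Real.log 2), ?_⟩
  intro x hx
  have hS2 := Sc_nonneg c hc (Real.exp 2)
  have hnn : 0 ≤ κ * (|Real.log (Real.log 2)| + Real.log 2) := by positivity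
  have hnn2 : 0 ≤ 5 * (κ * Real.log 2 + 2 * C) := by positivity
  rcases lt_or_ge x (Real.exp 2) with h1 | h1
  · have h2 := Sc_mono c hc x (Real.exp 2) h1.le
    have h3 := Sc_nonneg c hc x
    have h4 : |κ * Real.log (Real.log x)| ≤ κ * (|Real.log (Real.log 2)| + Real.log 2) := by
      rw [abs_mul, abs_of_nonneg hκ]
      apply mul_le_mul_of_nonneg_left _ hκ
      have h5 : Real.log 2 ≤ Real.log x := Real.log_le_log (by norm_num) hx
      have h6 : Real.log x < 2 := by
        rw [Real.log_lt_iff_lt_exp (by linarith)]; exact h1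
      have h7 : Real.log (Real.log 2) ≤ Real.log (Real.log x) := Real.log_le_log hl2 h5
      have h8 : Real.log (Real.log x) ≤ Real.log 2 := Real.log_le_log (by linarith) h6.le
      rw [abs_le]
      have h9 := neg_abs_le (Real.log (Real.log 2))
      have h10 := abs_nonneg (Real.log (Real.log 2))
      constructor <;> linarith
    rw [abs_le] at h4 ⊢
    constructor <;> linarith [h4.1, h4.2]
  · have hlx : 2 ≤ Real.log x := by
      rw [Real.le_log_iff_exp_le (by linarith)]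
      exact h1
    set δ : ℝ := 1 / Real.log x with hδd
    have hδ : 0 < δ := by positivity
    have hδ2 : δ ≤ 1 / 2 := by
      rw [hδd]
      exact one_div_le_one_div_of_le (by norm_num) hlx
    have hx' : Real.exp (1 / δ) = x := by
      rw [hδd, one_div_one_div, Real.exp_log (by linarith)]
    have hcmp := compare c hc δ hδ
    rw [hx'] at hcmp
    have g1 := abs_le.mp (hC δ hδ (by linarith))
    have g2 := abs_le.mp (hC (2 * δ) (by positivity) (by linarith))
    have g3 := abs_le.mp (hC (δ / 2) (by positivity) (by linarith))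
    rw [Real.log_mul (by norm_num) hδ.ne'] at g2
    rw [Real.log_div hδ.ne' (by norm_num)] at g3
    have e1 : κ * (Real.log 2 + Real.log δ) = κ * Real.log 2 + κ * Real.log δ := by ring
    have e2 : κ * (Real.log δ - Real.log 2) = κ * Real.log δ - κ * Real.log 2 := by ring
    rw [e1] at g2
    rw [e2] at g3
    have e3 : Real.log δ = -Real.log (Real.log x) := by
      rw [hδd, one_div, Real.log_inv]
    have e4 : κ * Real.log δ = -(κ * Real.log (Real.log x)) := by rw [e3]; ring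
    rw [e4] at g1 g2 g3
    have h5 := abs_le.mp hcmp
    rw [abs_le]
    constructor <;> linarith [h5.1, h5.2, g1.1, g1.2, g2.1, g2.2, g3.1, g3.2]

end Pool.Agent.H11.Selberg
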