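import Mathlib
import Pool.Agent.H11.Selberg.Taub3

set_option autoImplicit false

namespace Pool.Agent.H11.Selberg

open Finset

theorem summable_exp_rpow (κ : ℝ) (hκ : 0 ≤ κ) :
    Summable (fun j : ℕ => Real.exp (-((j : ℝ) + 1)) * ((j : ℝ) + 2) ^ κ) := by
  set k : ℕ := ⌈κ⌉₊ with hk
  have h1 : Summable (fun j : ℕ => ((j : ℝ)) ^ k * (Real.exp (-1)) ^ j) :=
    summable_pow_mul_geometric_of_norm_lt_one k (by
      rw [Real.norm_eq_abs, abs_of_pos (Real.exp_pos _), Real.exp_lt_one_iff]; norm_num)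
  have h2 := ((summable_nat_add_iff 2).mpr h1).mul_left (Real.exp 1)
  refine Summable.of_nonneg_of_le (fun j => by positivity) (fun j => ?_) h2
  have h3 : Real.exp 1 * (((j + 2 : ℕ) : ℝ) ^ k * (Real.exp (-1)) ^ (j + 2))
      = Real.exp (-((j : ℝ) + 1)) * ((j : ℝ) + 2) ^ k := by
    rw [← Real.exp_nat_mul]
    push_cast
    rw [mul_comm (((j : ℝ) + 2) ^ k), ← mul_assoc, ← Real.exp_add]
    congr 2
    ring
  rw [h3]
  apply mul_le_mul_of_nonneg_left _ (Real.exp_pos _).le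
  rw [← Real.rpow_natCast]
  apply Real.rpow_le_rpow_of_exponent_le _ (Nat.le_ceil κ)
  have : (0 : ℝ) ≤ j := Nat.cast_nonneg j
  linarith

theorem taub_pow_mp (c : ℕ → ℝ) (hc : Adm c) (κ : ℝ) (hκ : 0 ≤ κ)
    (h : ∃ c0 C : ℝ, 0 < c0 ∧ ∀ x : ℝ, 2 ≤ x →
      c0 * (Real.log x) ^ κ ≤ Sc c x ∧ Sc c x ≤ C * (Real.log x) ^ κ) :
    ∃ c0 C : ℝ, 0 < c0 ∧ ∀ δ : ℝ, 0 < δ → δ ≤ 1 →
      c0 * δ ^ (-κ) ≤ Gc c δ ∧ Gc c δ ≤ C * δ ^ (-κ) := by
  obtain ⟨c0, C, hc0, hC⟩ := h
  have he2 : (2 : ℝ) ≤ Real.exp 1 := by linarith [Real.exp_one_gt_d9]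
  have hSv : ∀ v : ℝ, 1 ≤ v → c0 * v ^ κ ≤ Sc c (Real.exp v) ∧ Sc c (Real.exp v) ≤ C * v ^ κ := by
    intro v hv
    have := hC (Real.exp v) (he2.trans (Real.exp_le_exp.mpr hv))
    rwa [Real.log_exp] at this
  have hC0 : 0 ≤ C := by
    have h1 := (hSv 1 le_rfl)
    rw [Real.one_rpow] at h1
    linarith [h1.1, h1.2]
  set D : ℝ := ∑' j : ℕ, Real.exp (-((j : ℝ) + 1)) * ((j : ℝ) + 2) ^ κ with hD
  have hDs := summable_exp_rpow κ hκ
  refine ⟨Real.exp (-1) * c0, C + C * D, by positivity, ?_⟩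
  intro δ hδ hδ1
  have s1 := hc.summable δ hδ
  have h8 : 1 ≤ 1 / δ := by rw [le_div_iff₀ hδ]; linarith
  have hpow : (1 / δ) ^ κ = δ ^ (-κ) := by
    rw [one_div, Real.inv_rpow hδ.le, ← Real.rpow_neg hδ.le]
  constructor
  · have h1 : Real.exp (-1) * Sc c (Real.exp (1 / δ)) ≤ Gc c δ := by
      have h2 : ∑ n ∈ Icc 1 ⌊Real.exp (1 / δ)⌋₊, c n * (n : ℝ) ^ (-δ) ≤ Gc c δ := by
        apply s1.sum_le_tsum
        intro n _
        exact mul_nonneg (hc.nonneg n) (by positivity)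
      refine le_trans ?_ h2
      unfold Sc
      rw [mul_sum]
      apply sum_le_sum
      intro n hn
      have hn1 : 1 ≤ n := (mem_Icc.mp hn).1
      rw [mem_Icc_floor _ n hn1] at hn
      have hn0 : (0 : ℝ) < n := by exact_mod_cast hn1
      rw [← Real.log_le_iff_le_exp hn0, le_div_iff₀ hδ] at hn
      rw [rpow_eq n hn1, mul_comm]
      apply mul_le_mul_of_nonneg_left _ (hc.nonneg n)
      apply Real.exp_le_exp.mpr
      linarith
    have h3 := (hSv (1 / δ) h8).1
    rw [hpow] at h3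
    calc Real.exp (-1) * c0 * δ ^ (-κ) = Real.exp (-1) * (c0 * δ ^ (-κ)) := by ring
      _ ≤ Real.exp (-1) * Sc c (Real.exp (1 / δ)) :=
          mul_le_mul_of_nonneg_left h3 (Real.exp_pos _).le
      _ ≤ _ := h1
  · have hB : ∀ j : ℕ, 0 ≤ C * (((j : ℝ) + 1) / δ) ^ κ := fun j => by positivity
    have hterm : ∀ j : ℕ, Real.exp (-((j : ℝ) + 1)) * (C * ((((j + 1 : ℕ) : ℝ) + 1) / δ) ^ κ)
        = C * δ ^ (-κ) * (Real.exp (-((j : ℝ) + 1)) * ((j : ℝ) + 2) ^ κ) := by
      intro j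
      have : ((((j + 1 : ℕ) : ℝ) + 1) / δ) ^ κ = ((j : ℝ) + 2) ^ κ * δ ^ (-κ) := by
        rw [Real.div_rpow (by positivity) hδ.le, Real.rpow_neg hδ.le, div_eq_mul_inv]
        congr 2
        push_cast
        ring
      rw [this]
      ring
    have hBs : Summable (fun j : ℕ => Real.exp (-((j : ℝ) + 1)) *
        (C * ((((j + 1 : ℕ) : ℝ) + 1) / δ) ^ κ)) := by
      simp_rw [hterm]
      exact hDs.mul_left _
    have h1 := Gc_upper c hc δ hδ (fun j => C * (((j : ℝ) + 1) / δ) ^ κ) (by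
      intro j hj
      have hj1 : (1 : ℝ) ≤ j := by exact_mod_cast hj
      have hjδ2 : 1 ≤ ((j : ℝ) + 1) / δ := by
        rw [le_div_iff₀ hδ]; linarith
      have h2 := (hSv _ hjδ2).2
      have h3 := Sc_nonneg c hc (Real.exp (j / δ))
      linarith) hBs hB
    have h2 := (hSv (1 / δ) h8).2
    rw [hpow] at h2
    simp_rw [hterm] at h1
    rw [tsum_mul_left] at h1
    calc Gc c δ ≤ C * δ ^ (-κ) + C * δ ^ (-κ) * D := h1.trans (by linarith)
      _ = _ := by ring

theorem taub_pow_mpr (c : ℕ → ℝ) (hc : Adm c) (hc1 : c 1 = 1) (κ : ℝ) (hκ : 0 ≤ κ)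
    (h : ∃ c0 C : ℝ, 0 < c0 ∧ ∀ δ : ℝ, 0 < δ → δ ≤ 1 →
      c0 * δ ^ (-κ) ≤ Gc c δ ∧ Gc c δ ≤ C * δ ^ (-κ)) :
    ∃ c0 C : ℝ, 0 < c0 ∧ ∀ x : ℝ, 2 ≤ x →
      c0 * (Real.log x) ^ κ ≤ Sc c x ∧ Sc c x ≤ C * (Real.log x) ^ κ := by
  obtain ⟨c0, C, hc0, hC⟩ := h
  have hl2 : 0 < Real.log 2 := Real.log_pos (by norm_num)
  have hC0 : 0 < C := by
    have h1 := hC 1 one_pos le_rfl
    rw [Real.one_rpow] at h1
    linarith [h1.1, h1.2]
  -- choice of A
  obtain ⟨A, hA1, hA⟩ : ∃ A : ℝ, 1 ≤ A ∧ Real.exp (-(A / 2)) * (C * 2 ^ κ) ≤ c0 / 2 := by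
    have h2 : 0 < c0 / (2 * (C * 2 ^ κ)) := by positivity
    refine ⟨max 1 (-2 * Real.log (c0 / (2 * (C * 2 ^ κ)))), le_max_left _ _, ?_⟩
    have h3 := le_max_right 1 (-2 * Real.log (c0 / (2 * (C * 2 ^ κ))))
    have h4 : Real.exp (-(max 1 (-2 * Real.log (c0 / (2 * (C * 2 ^ κ)))) / 2))
        ≤ c0 / (2 * (C * 2 ^ κ)) := by
      calc _ ≤ Real.exp (Real.log (c0 / (2 * (C * 2 ^ κ)))) := by
            apply Real.exp_le_exp.mpr
            linarith
        _ = _ := Real.exp_log h2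
    calc _ ≤ c0 / (2 * (C * 2 ^ κ)) * (C * 2 ^ κ) :=
          mul_le_mul_of_nonneg_right h4 (by positivity)
      _ = c0 / 2 := by
          field_simp
  have hS1 : ∀ x : ℝ, 2 ≤ x → 1 ≤ Sc c x := by
    intro x hx
    have h2 : ({1} : Finset ℕ) ⊆ Icc 1 ⌊x⌋₊ := by
      intro n hn
      rw [mem_singleton] at hn
      subst hn
      rw [mem_Icc_floor x 1 le_rfl]
      push_cast; linarith
    have h3 := sum_le_sum_of_subset_of_nonneg (f := c) h2 (fun i _ _ => hc.nonneg i)
    rw [sum_singleton, hc1] at h3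
    exact h3
  have hA0 : 0 < A := by linarith
  refine ⟨min (c0 / 2 * A ^ (-κ)) (A ^ (-κ)), Real.exp 1 * C / (Real.log 2) ^ κ
    + Real.exp 1 * C, lt_min (by positivity) (by positivity), ?_⟩
  intro x hx
  have hx0 : 0 < x := by linarith
  have hlx2 : Real.log 2 ≤ Real.log x := Real.log_le_log (by norm_num) hx
  have hlx : 0 < Real.log x := by linarith
  have hpl : 0 < (Real.log x) ^ κ := Real.rpow_pos_of_pos hlx κ
  have hup : ∀ z : ℝ, Real.exp 1 ≤ z → Sc c z ≤ Real.exp 1 * C * (Real.log z) ^ κ := by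
    intro z hz
    have hz0 : 0 < z := lt_of_lt_of_le (Real.exp_pos _) hz
    have hlz : 1 ≤ Real.log z := by rwa [Real.le_log_iff_exp_le hz0]
    set δ : ℝ := 1 / Real.log z with hδd
    have hδ : 0 < δ := by positivity
    have hδ1 : δ ≤ 1 := by rw [hδd, div_le_one (by linarith)]; exact hlz
    have s1 := hc.summable δ hδ
    have h1 : Real.exp (-1) * Sc c z ≤ Gc c δ := by
      have h2 : ∑ n ∈ Icc 1 ⌊z⌋₊, c n * (n : ℝ) ^ (-δ) ≤ Gc c δ := by
        apply s1.sum_le_tsum
        intro n _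
        exact mul_nonneg (hc.nonneg n) (by positivity)
      refine le_trans ?_ h2
      unfold Sc
      rw [mul_sum]
      apply sum_le_sum
      intro n hn
      have hn1 : 1 ≤ n := (mem_Icc.mp hn).1
      rw [mem_Icc_floor _ n hn1] at hn
      have hn0 : (0 : ℝ) < n := by exact_mod_cast hn1
      have hln : Real.log n ≤ Real.log z := Real.log_le_log hn0 hn
      rw [rpow_eq n hn1, mul_comm]
      apply mul_le_mul_of_nonneg_left _ (hc.nonneg n)
      apply Real.exp_le_exp.mpr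
      have : δ * Real.log n ≤ 1 := by
        rw [hδd, one_div_mul_eq_div, div_le_one (by linarith)]
        exact hln
      linarith
    have h3 := (hC δ hδ hδ1).2
    have h4 : δ ^ (-κ) = (Real.log z) ^ κ := by
      rw [hδd, one_div, Real.inv_rpow (by linarith), Real.rpow_neg (by linarith), inv_inv]
    rw [h4] at h3
    have h5 : Sc c z = Real.exp 1 * (Real.exp (-1) * Sc c z) := by
      rw [← mul_assoc, ← Real.exp_add]; simp
    rw [h5, mul_assoc]
    exact mul_le_mul_of_nonneg_left (h1.trans h3) (Real.exp_pos _).le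
  constructor
  · -- lower bound
    rcases lt_or_ge (Real.log x) A with h1 | h1
    · have h2 : (Real.log x) ^ κ ≤ A ^ κ := Real.rpow_le_rpow hlx.le h1.le hκ
      calc min (c0 / 2 * A ^ (-κ)) (A ^ (-κ)) * (Real.log x) ^ κ
          ≤ A ^ (-κ) * A ^ κ := by
            apply mul_le_mul (min_le_right _ _) h2 hpl.le (by positivity)
        _ = 1 := by rw [← Real.rpow_add hA0]; simp
        _ ≤ _ := hS1 x hx
    · set δ : ℝ := A / Real.log x with hδd
      have hδ : 0 < δ := by positivity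
      have hδ1 : δ ≤ 1 := by rw [hδd, div_le_one hlx]; exact h1
      have s1 := hc.summable δ hδ
      have s2 := hc.summable (δ / 2) (by positivity)
      have h2 : Gc c δ ≤ Sc c x + Real.exp (-(A / 2)) * Gc c (δ / 2) := by
        have hS : HasSum (fun n : ℕ => if n ∈ Icc 1 ⌊x⌋₊ then c n else 0) (Sc c x) := by
          unfold Sc
          have : HasSum (fun n : ℕ => if n ∈ Icc 1 ⌊x⌋₊ then c n else 0)
              (∑ n ∈ Icc 1 ⌊x⌋₊, if n ∈ Icc 1 ⌊x⌋₊ then c n else 0) :=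
            hasSum_sum_of_ne_finset_zero (fun n hn => if_neg hn)
          rw [sum_congr rfl (fun n hn => if_pos hn)] at this
          exact this
        have hR := hS.add (s2.hasSum.mul_left (Real.exp (-(A / 2))))
        unfold Gc
        apply hasSum_le _ s1.hasSum hR
        intro n
        rcases Nat.eq_zero_or_pos n with rfl | hn
        · simp [hc.zero]
        · have hcn := hc.nonneg n
          by_cases h3 : n ∈ Icc 1 ⌊x⌋₊
          · simp only [if_pos h3]
            have h4 : (n : ℝ) ^ (-δ) ≤ 1 := by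
              rw [rpow_eq n hn, Real.exp_le_one_iff]
              have : (1 : ℝ) ≤ n := by exact_mod_cast hn
              have := Real.log_nonneg this
              have : 0 ≤ δ * Real.log n := by positivity
              linarith
            have h5 : 0 ≤ Real.exp (-(A / 2)) * (c n * (n : ℝ) ^ (-(δ / 2))) := by positivity
            nlinarith
          · simp only [if_neg h3, zero_add]
            rw [mem_Icc_floor x n hn] at h3
            push Not at h3
            have hn0 : (0 : ℝ) < n := by exact_mod_cast hn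
            have h4 : Real.log x ≤ Real.log n := Real.log_le_log hx0 h3.le
            rw [rpow_eq n hn, rpow_eq n hn]
            have h5 : Real.exp (-(δ * Real.log n)) ≤ Real.exp (-(A / 2)) *
                Real.exp (-(δ / 2 * Real.log n)) := by
              rw [← Real.exp_add]
              apply Real.exp_le_exp.mpr
              have h6 : A ≤ δ * Real.log n := by
                calc A = δ * Real.log x := by rw [hδd]; field_simp
                  _ ≤ _ := mul_le_mul_of_nonneg_left h4 hδ.le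
              linarith
            calc c n * Real.exp (-(δ * Real.log n)) ≤ c n * (Real.exp (-(A / 2)) *
                Real.exp (-(δ / 2 * Real.log n))) := mul_le_mul_of_nonneg_left h5 hcn
              _ = _ := by ring
      have h3 := (hC δ hδ hδ1).1
      have h4 := (hC (δ / 2) (by positivity) (by linarith)).2
      have h5 : (δ / 2) ^ (-κ) = 2 ^ κ * δ ^ (-κ) := by
        rw [Real.div_rpow hδ.le (by norm_num), Real.rpow_neg (by norm_num : (0 : ℝ) ≤ 2),
          div_inv_eq_mul, mul_comm]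
      rw [h5] at h4
      have hpd : 0 < δ ^ (-κ) := Real.rpow_pos_of_pos hδ _
      have h6 : Real.exp (-(A / 2)) * Gc c (δ / 2) ≤ c0 / 2 * δ ^ (-κ) := by
        calc Real.exp (-(A / 2)) * Gc c (δ / 2) ≤ Real.exp (-(A / 2)) * (C * (2 ^ κ * δ ^ (-κ))) :=
              mul_le_mul_of_nonneg_left h4 (Real.exp_pos _).le
          _ = (Real.exp (-(A / 2)) * (C * 2 ^ κ)) * δ ^ (-κ) := by ring
          _ ≤ _ := mul_le_mul_of_nonneg_right hA hpd.le
      have h7 : c0 / 2 * δ ^ (-κ) ≤ Sc c x := by linarith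
      have h8 : δ ^ (-κ) = A ^ (-κ) * (Real.log x) ^ κ := by
        rw [hδd, Real.div_rpow hA0.le hlx.le, Real.rpow_neg hlx.le, div_inv_eq_mul]
      rw [h8] at h7
      calc min (c0 / 2 * A ^ (-κ)) (A ^ (-κ)) * (Real.log x) ^ κ
          ≤ c0 / 2 * A ^ (-κ) * (Real.log x) ^ κ :=
            mul_le_mul_of_nonneg_right (min_le_left _ _) hpl.le
        _ = c0 / 2 * (A ^ (-κ) * (Real.log x) ^ κ) := by ring
        _ ≤ _ := h7
  · rcases lt_or_ge x (Real.exp 1) with h1 | h1
    · have h2 := hup (Real.exp 1) le_rfl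
      rw [Real.log_exp, Real.one_rpow, mul_one] at h2
      have h3 := (Sc_mono c hc x _ h1.le).trans h2
      have h4 : (Real.log 2) ^ κ ≤ (Real.log x) ^ κ := Real.rpow_le_rpow hl2.le hlx2 hκ
      have hp2 : 0 < (Real.log 2) ^ κ := Real.rpow_pos_of_pos hl2 κ
      have h5 : Real.exp 1 * C ≤ Real.exp 1 * C / (Real.log 2) ^ κ * (Real.log x) ^ κ := by
        rw [div_mul_eq_mul_div, le_div_iff₀ hp2]
        exact mul_le_mul_of_nonneg_left h4 (by positivity)
      have h6 : 0 ≤ Real.exp 1 * C * (Real.log x) ^ κ := by positivity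
      nlinarith
    · have h2 := hup x h1
      have h3 : 0 ≤ Real.exp 1 * C / (Real.log 2) ^ κ * (Real.log x) ^ κ := by positivity
      nlinarith

end Pool.Agent.H11.Selberg
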