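import Mathlib
import Pool.Agent.H11.Selberg.Taub4
import Pool.Agent.H11.Selberg.Mult

set_option autoImplicit false

namespace Pool.Agent.H11.Selberg

open Finset Classical

/-- `‖a p‖ ^ 2 / p` at the primes -/
noncomputable def c1 (a : ℕ → ℂ) (n : ℕ) : ℝ := if n.Prime then ‖a n‖ ^ 2 / n else 0

/-- `‖a n‖ ^ 2 / n` -/
noncomputable def c2 (a : ℕ → ℂ) (n : ℕ) : ℝ := ‖a n‖ ^ 2 / n

theorem c1_le (a : ℕ → ℂ) (n : ℕ) : c1 a n ≤ c2 a n := by
  unfold c1 c2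
  split_ifs
  · exact le_rfl
  · positivity

theorem c1_nonneg (a : ℕ → ℂ) (n : ℕ) : 0 ≤ c1 a n := by
  unfold c1
  split_ifs
  · positivity
  · exact le_rfl

theorem c2_nonneg (a : ℕ → ℂ) (n : ℕ) : 0 ≤ c2 a n := by
  unfold c2
  positivity

theorem c2_adm (a : ℕ → ℂ)
    (hR : ∀ ε : ℝ, 0 < ε → ∃ C : ℝ, ∀ n : ℕ, 1 ≤ n → ‖a n‖ ≤ C * (n : ℝ) ^ ε) : Adm (c2 a) := by
  refine ⟨c2_nonneg a, by simp [c2], ?_⟩
  intro δ hδ
  obtain ⟨C, hC⟩ := hR (δ / 4) (by positivity)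
  have hs : Summable (fun n : ℕ => C ^ 2 * (1 / (n : ℝ) ^ (1 + δ / 2))) :=
    (Real.summable_one_div_nat_rpow.mpr (by linarith)).mul_left _
  refine Summable.of_nonneg_of_le (fun n => mul_nonneg (c2_nonneg a n) (by positivity))
    (fun n => ?_) hs
  rcases Nat.eq_zero_or_pos n with rfl | hn
  · simp only [c2, Nat.cast_zero, div_zero, zero_mul]
    positivity
  · have hn0 : (0 : ℝ) < n := by exact_mod_cast hn
    have h1 := hC n hn
    have h2 : ‖a n‖ ^ 2 ≤ C ^ 2 * (n : ℝ) ^ (δ / 2) := by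
      calc ‖a n‖ ^ 2 ≤ (C * (n : ℝ) ^ (δ / 4)) ^ 2 := pow_le_pow_left₀ (norm_nonneg _) h1 2
        _ = _ := by
          rw [mul_pow, ← Real.rpow_natCast ((n : ℝ) ^ (δ / 4)), ← Real.rpow_mul hn0.le]
          congr 2
          push_cast; ring
    unfold c2
    calc ‖a n‖ ^ 2 / n * (n : ℝ) ^ (-δ) ≤ C ^ 2 * (n : ℝ) ^ (δ / 2) / n * (n : ℝ) ^ (-δ) := by
          apply mul_le_mul_of_nonneg_right _ (by positivity)
          exact div_le_div_of_nonneg_right h2 hn0.le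
      _ = C ^ 2 * ((n : ℝ) ^ (δ / 2) * (n : ℝ) ^ (-(1 : ℝ)) * (n : ℝ) ^ (-δ)) := by
          rw [Real.rpow_neg_one]; ring
      _ = _ := by
          rw [← Real.rpow_add hn0, ← Real.rpow_add hn0, one_div, ← Real.rpow_neg hn0.le]
          congr 2
          ring

theorem c1_adm (a : ℕ → ℂ)
    (hR : ∀ ε : ℝ, 0 < ε → ∃ C : ℝ, ∀ n : ℕ, 1 ≤ n → ‖a n‖ ≤ C * (n : ℝ) ^ ε) : Adm (c1 a) := by
  have h := c2_adm a hR
  refine ⟨c1_nonneg a, by simp [c1], ?_⟩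
  intro δ hδ
  refine Summable.of_nonneg_of_le (fun n => mul_nonneg (c1_nonneg a n) (by positivity))
    (fun n => ?_) (h.summable δ hδ)
  exact mul_le_mul_of_nonneg_right (c1_le a n) (by positivity)

theorem geo_const : (2 : ℝ) ^ (-(3 / 4) : ℝ) < 1 :=
  Real.rpow_lt_one_of_one_lt_of_neg (by norm_num) (by norm_num)

/-- the logarithm of the Dirichlet series of `‖a n‖ ^ 2` -/
theorem log_series (a : ℕ → ℂ) (ha1 : a 1 = 1)
    (hmul : ∀ m n : ℕ, Nat.Coprime m n → a (m * n) = a m * a n)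
    (hR : ∀ ε : ℝ, 0 < ε → ∃ C : ℝ, ∀ n : ℕ, 1 ≤ n → ‖a n‖ ≤ C * (n : ℝ) ^ ε) :
    ∃ K : ℝ, ∀ δ : ℝ, 0 < δ → δ ≤ 1 →
      0 < Gc (c2 a) δ ∧ |Real.log (Gc (c2 a) δ) - Gc (c1 a) δ| ≤ K := by
  have hA1 := c1_adm a hR
  have hA2 := c2_adm a hR
  obtain ⟨C, hC⟩ := hR (1 / 8) (by norm_num)
  set q : ℝ := (2 : ℝ) ^ (-(3 / 4) : ℝ) with hq
  have hq0 : 0 < q := by positivity
  have hq1 : q < 1 := geo_const
  set B : ℝ := C ^ 2 * (1 - q)⁻¹ with hB
  have hB0 : 0 ≤ B := mul_nonneg (by positivity) (inv_nonneg.mpr (by linarith))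
  set K0 : ℝ := B + (C ^ 2 + B) ^ 2 with hK0
  have hsum32 : Summable (fun p : Nat.Primes => ((p : ℕ) : ℝ) ^ (-(3 / 2) : ℝ)) :=
    Nat.Primes.summable_rpow.mpr (by norm_num)
  refine ⟨∑' p : Nat.Primes, K0 * ((p : ℕ) : ℝ) ^ (-(3 / 2) : ℝ), ?_⟩
  intro δ hδ hδ1
  set f : ℕ → ℝ := fun n => c2 a n * (n : ℝ) ^ (-δ) with hf
  have hf0 : ∀ n, 0 ≤ f n := fun n => mul_nonneg (c2_nonneg a n) (by positivity)
  have hfs : Summable f := hA2.summable δ hδ
  have hprod : HasProd (fun p : Nat.Primes => ∑' e : ℕ, f ((p : ℕ) ^ e)) (∑' n, f n) := by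
    apply EulerProduct.eulerProduct_hasProd (f := f)
    · simp [hf, c2, ha1]
    · intro m n hmn
      simp only [hf, c2]
      rw [hmul m n hmn, norm_mul, Nat.cast_mul, Real.mul_rpow (Nat.cast_nonneg _)
        (Nat.cast_nonneg _)]
      rw [mul_pow, mul_div_mul_comm]
      ring
    · exact hfs.norm
    · simp [hf, c2]
  -- bound of f at prime powers
  have hfb : ∀ (p : Nat.Primes) (e : ℕ), f ((p : ℕ) ^ e)
      ≤ C ^ 2 * (((p : ℕ) : ℝ) ^ (-(3 / 4) : ℝ)) ^ e := by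
    intro p e
    have hp0 : (0 : ℝ) < ((p : ℕ) : ℝ) := by exact_mod_cast p.prop.pos
    have hpe : (1 : ℝ) ≤ ((p : ℕ) : ℝ) ^ e := by
      apply one_le_pow₀; exact_mod_cast p.prop.one_le
    have hpe0 : (0 : ℝ) < ((p : ℕ) : ℝ) ^ e := by positivity
    have h1 := hC ((p : ℕ) ^ e) (Nat.one_le_iff_ne_zero.mpr (pow_ne_zero _ p.prop.ne_zero))
    push_cast at h1
    have h2 : ‖a ((p : ℕ) ^ e)‖ ^ 2 ≤ C ^ 2 * (((p : ℕ) : ℝ) ^ e) ^ (1 / 4 : ℝ) := by
      calc ‖a ((p : ℕ) ^ e)‖ ^ 2 ≤ (C * (((p : ℕ) : ℝ) ^ e) ^ (1 / 8 : ℝ)) ^ 2 :=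
            pow_le_pow_left₀ (norm_nonneg _) h1 2
        _ = _ := by
          rw [mul_pow, ← Real.rpow_natCast ((((p : ℕ) : ℝ) ^ e) ^ (1 / 8 : ℝ)),
            ← Real.rpow_mul hpe0.le]
          congr 2
          push_cast; ring
    have h3 : (((p : ℕ) : ℝ) ^ e) ^ (-δ) ≤ 1 := by
      apply Real.rpow_le_one_of_one_le_of_nonpos hpe (by linarith)
    simp only [hf, c2]
    push_cast
    calc ‖a ((p : ℕ) ^ e)‖ ^ 2 / ((p : ℕ) : ℝ) ^ e * (((p : ℕ) : ℝ) ^ e) ^ (-δ)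
        ≤ ‖a ((p : ℕ) ^ e)‖ ^ 2 / ((p : ℕ) : ℝ) ^ e * 1 :=
          mul_le_mul_of_nonneg_left h3 (by positivity)
      _ ≤ C ^ 2 * (((p : ℕ) : ℝ) ^ e) ^ (1 / 4 : ℝ) / ((p : ℕ) : ℝ) ^ e := by
          rw [mul_one]
          exact div_le_div_of_nonneg_right h2 hpe0.le
      _ = C ^ 2 * (((p : ℕ) : ℝ) ^ e) ^ (-(3 / 4) : ℝ) := by
          rw [mul_div_assoc]
          congr 1
          rw [div_eq_mul_inv, ← Real.rpow_neg_one (((p : ℕ) : ℝ) ^ e), ← Real.rpow_add hpe0]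
          congr 1
          norm_num
      _ = _ := by
          congr 1
          rw [← Real.rpow_natCast, ← Real.rpow_natCast, ← Real.rpow_mul hp0.le,
            ← Real.rpow_mul hp0.le]
          congr 1
          ring
  have hpq : ∀ p : Nat.Primes, ((p : ℕ) : ℝ) ^ (-(3 / 4) : ℝ) ≤ q := by
    intro p
    apply Real.rpow_le_rpow_of_nonpos (by norm_num) (by exact_mod_cast p.prop.two_le) (by norm_num)
  -- local factors
  have hloc : ∀ p : Nat.Primes, 0 < (∑' e : ℕ, f ((p : ℕ) ^ e)) ∧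
      |Real.log (∑' e : ℕ, f ((p : ℕ) ^ e)) - f p| ≤ K0 * ((p : ℕ) : ℝ) ^ (-(3 / 2) : ℝ) := by
    intro p
    set z : ℝ := ((p : ℕ) : ℝ) ^ (-(3 / 4) : ℝ) with hz
    have hp0 : (0 : ℝ) < ((p : ℕ) : ℝ) := by exact_mod_cast p.prop.pos
    have hz0 : 0 < z := by positivity
    have hzq : z ≤ q := hpq p
    have hz1 : z < 1 := lt_of_le_of_lt hzq hq1
    have hz2 : z ^ 2 = ((p : ℕ) : ℝ) ^ (-(3 / 2) : ℝ) := by
      rw [hz, ← Real.rpow_natCast, ← Real.rpow_mul hp0.le]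
      congr 1
      norm_num
    have hse : Summable (fun e : ℕ => f ((p : ℕ) ^ e)) :=
      hfs.comp_injective (Nat.pow_right_injective p.prop.two_le)
    have h1 : (∑' e : ℕ, f ((p : ℕ) ^ e)) = 1 + f p + ∑' e : ℕ, f ((p : ℕ) ^ (e + 2)) := by
      rw [← hse.sum_add_tsum_nat_add 2]
      simp only [sum_range_succ, range_zero, sum_empty, pow_zero, pow_one, zero_add]
      congr 2
      simp [hf, c2, ha1]
    set r : ℝ := ∑' e : ℕ, f ((p : ℕ) ^ (e + 2)) with hr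
    have hr0 : 0 ≤ r := tsum_nonneg (fun e => hf0 _)
    have hrle : r ≤ B * z ^ 2 := by
      have hg : HasSum (fun e : ℕ => C ^ 2 * z ^ 2 * q ^ e) (C ^ 2 * z ^ 2 * (1 - q)⁻¹) :=
        (hasSum_geometric_of_lt_one hq0.le hq1).mul_left _
      have h2 : r ≤ C ^ 2 * z ^ 2 * (1 - q)⁻¹ := by
        rw [← hg.tsum_eq]
        apply ((summable_nat_add_iff 2).mpr hse).tsum_le_tsum _ hg.summable
        intro e
        refine (hfb p (e + 2)).trans ?_
        rw [← hz, pow_add]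
        have : z ^ e ≤ q ^ e := pow_le_pow_left₀ hz0.le hzq e
        nlinarith [mul_le_mul_of_nonneg_left this (show 0 ≤ C ^ 2 * z ^ 2 by positivity)]
      rw [hB]; linarith
    have hfp : f p ≤ C ^ 2 * z := by
      have := hfb p 1
      rw [pow_one, pow_one] at this
      exact this
    have hfp0 := hf0 p
    set u : ℝ := f p + r with hu
    have hu0 : 0 ≤ u := add_nonneg hfp0 hr0
    have hule : u ≤ (C ^ 2 + B) * z := by
      have : B * z ^ 2 ≤ B * z := mul_le_mul_of_nonneg_left (by nlinarith) hB0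
      rw [hu]; linarith
    have hL : (∑' e : ℕ, f ((p : ℕ) ^ e)) = 1 + u := by rw [h1, hu]; ring
    rw [hL]
    refine ⟨by linarith, ?_⟩
    have hup : Real.log (1 + u) ≤ u := by
      have := Real.log_le_sub_one_of_pos (show 0 < 1 + u by linarith)
      linarith
    have hlow : u - u ^ 2 ≤ Real.log (1 + u) := by
      have h3 := Real.le_log_one_add_of_nonneg hu0
      have h4 : u - u ^ 2 ≤ 2 * u / (u + 2) := by
        rw [le_div_iff₀ (by linarith)]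
        nlinarith [mul_nonneg hu0 hu0, mul_nonneg (mul_nonneg hu0 hu0) hu0]
      linarith
    have hu2 : u ^ 2 ≤ (C ^ 2 + B) ^ 2 * z ^ 2 := by
      rw [← mul_pow]
      exact pow_le_pow_left₀ hu0 hule 2
    rw [← hz2, abs_le, hK0]
    have hz2p : 0 < z ^ 2 := by positivity
    have hq1 : 0 ≤ B * z ^ 2 := by positivity
    have hq2 : 0 ≤ (C ^ 2 + B) ^ 2 * z ^ 2 := by positivity
    constructor
    · rw [hu] at hlow hu2 ⊢
      nlinarith
    · rw [hu] at hup ⊢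
      nlinarith
  have hG1 : HasSum (fun p : Nat.Primes => f p) (Gc (c1 a) δ) := by
    have h1 : HasSum (fun n : ℕ => c1 a n * (n : ℝ) ^ (-δ)) (Gc (c1 a) δ) :=
      (hA1.summable δ hδ).hasSum
    have hinj : Function.Injective (fun p : Nat.Primes => (p : ℕ)) := fun p q h => Subtype.ext h
    have h2 := (Function.Injective.hasSum_iff hinj (f := fun n : ℕ => c1 a n * (n : ℝ) ^ (-δ))
      (a := Gc (c1 a) δ) (by
        intro n hn
        have : ¬ n.Prime := fun hp => hn ⟨⟨n, hp⟩, rfl⟩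
        simp [c1, this])).mpr h1
    refine h2.congr_fun ?_ |> id
    intro p
    simp only [Function.comp, c1, hf, c2, if_pos p.prop]
  have hK0s : Summable (fun p : Nat.Primes => K0 * ((p : ℕ) : ℝ) ^ (-(3 / 2) : ℝ)) :=
    hsum32.mul_left _
  have hdiff : Summable (fun p : Nat.Primes => Real.log (∑' e : ℕ, f ((p : ℕ) ^ e)) - f p) :=
    Summable.of_norm_bounded hK0s (fun p => by rw [Real.norm_eq_abs]; exact (hloc p).2)
  have hlogs : HasSum (fun p : Nat.Primes => Real.log (∑' e : ℕ, f ((p : ℕ) ^ e)))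
      ((∑' p : Nat.Primes, (Real.log (∑' e : ℕ, f ((p : ℕ) ^ e)) - f p)) + Gc (c1 a) δ) := by
    have := hdiff.hasSum.add hG1
    simpa using this
  have hexp := hlogs.rexp
  have hfun : (Real.exp ∘ fun p : Nat.Primes => Real.log (∑' e : ℕ, f ((p : ℕ) ^ e)))
      = fun p : Nat.Primes => ∑' e : ℕ, f ((p : ℕ) ^ e) := by
    funext p
    simp only [Function.comp]
    rw [Real.exp_log (hloc p).1]
  rw [hfun] at hexp
  have heq : Gc (c2 a) δ = Real.exp ((∑' p : Nat.Primes,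
      (Real.log (∑' e : ℕ, f ((p : ℕ) ^ e)) - f p)) + Gc (c1 a) δ) := hprod.unique hexp
  rw [heq]
  refine ⟨Real.exp_pos _, ?_⟩
  rw [Real.log_exp, add_sub_cancel_right, ← Real.norm_eq_abs]
  exact tsum_of_norm_bounded hK0s.hasSum (fun p => by rw [Real.norm_eq_abs]; exact (hloc p).2)

end Pool.Agent.H11.Selberg
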