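import Mathlib
import Pool.Agent.H11.Selberg.Arith

set_option autoImplicit false

namespace Pool.Agent.H11.Selberg

open Finset Classical

/-- bound for the coefficients of the logarithm at prime powers of bounded exponent -/
theorem b_small (a b : ℕ → ℂ) (ha1 : a 1 = 1)
    (hrec : ∀ n : ℕ, n ≠ 0 → (Real.log n : ℂ) * a n =
      ∑ q ∈ n.divisors, a (n / q) * ((Real.log q : ℂ) * bb b q))
    (C : ℝ) (hC : ∀ n : ℕ, 1 ≤ n → ‖a n‖ ≤ C * (n : ℝ) ^ (1 / 8 : ℝ)) :
    ∀ e : ℕ, ∃ D : ℝ, 0 ≤ D ∧ ∀ p : ℕ, p.Prime → ∀ j : ℕ, 1 ≤ j → j ≤ e →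
      ‖b (p ^ j)‖ ≤ D * ((p : ℝ) ^ j) ^ (1 / 8 : ℝ) := by
  have hC0 : 0 ≤ C := by
    have := hC 1 le_rfl
    rw [ha1] at this
    simp at this
    linarith
  have key : ∀ p : ℕ, p.Prime → ∀ e : ℕ, (e : ℂ) * b (p ^ e) * (if e = 0 then 0 else 1)
      = (e : ℂ) * a (p ^ e)
        - ∑ j ∈ range e, a (p ^ (e - j)) * ((j : ℂ) * (if j = 0 then 0 else b (p ^ j))) := by
    intro p hp e
    have h1 := hrec (p ^ e) (pow_ne_zero _ hp.ne_zero)
    rw [Nat.sum_divisors_prime_pow hp] at h1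
    have hl : (Real.log p : ℂ) ≠ 0 := by
      exact_mod_cast (Real.log_pos (by exact_mod_cast hp.one_lt)).ne'
    have h2 : ∀ j : ℕ, (Real.log ((p ^ j : ℕ) : ℝ) : ℂ) = (j : ℂ) * (Real.log p : ℂ) := by
      intro j
      rw [Nat.cast_pow, Real.log_pow]
      push_cast
      ring
    rw [h2] at h1
    have h3 : ∀ j ∈ range (e + 1), a (p ^ e / p ^ j) * ((Real.log ((p ^ j : ℕ) : ℝ) : ℂ) *
        bb b (p ^ j)) = (Real.log p : ℂ) * (a (p ^ (e - j)) * ((j : ℂ) *
          (if j = 0 then 0 else b (p ^ j)))) := by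
      intro j hj
      rw [mem_range] at hj
      rw [Nat.pow_div (by omega) hp.pos, h2]
      rcases Nat.eq_zero_or_pos j with rfl | hj0
      · simp
      · have hpp : IsPrimePow (p ^ j) := hp.isPrimePow.pow (by omega)
        simp only [bb, if_pos hpp, if_neg (by omega : j ≠ 0)]
        ring
    rw [sum_congr rfl h3, ← mul_sum] at h1
    have h4 : (e : ℂ) * a (p ^ e) = ∑ j ∈ range (e + 1), a (p ^ (e - j)) * ((j : ℂ) *
          (if j = 0 then 0 else b (p ^ j))) := by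
      apply mul_left_cancel₀ hl
      rw [← h1]; ring
    rw [sum_range_succ, Nat.sub_self, pow_zero, ha1] at h4
    rw [h4]
    split_ifs with h5
    · simp
    · ring
  intro e
  induction e with
  | zero => exact ⟨0, le_rfl, fun p _ j h1 h2 => by omega⟩
  | succ e ih =>
    obtain ⟨D, hD0, hD⟩ := ih
    refine ⟨max D (C + (e + 1) * (C * D)), le_max_of_le_left hD0, ?_⟩
    intro p hp j hj1 hj2
    have hp0 : (0 : ℝ) < p := by exact_mod_cast hp.pos
    rcases Nat.lt_or_ge j (e + 1) with h | h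
    · refine (hD p hp j hj1 (by omega)).trans ?_
      exact mul_le_mul_of_nonneg_right (le_max_left _ _) (by positivity)
    · have hje : j = e + 1 := by omega
      subst hje
      have h1 := key p hp (e + 1)
      rw [if_neg (by omega), mul_one] at h1
      set X : ℝ := ((p : ℝ) ^ (e + 1)) ^ (1 / 8 : ℝ) with hX
      have hX0 : 0 < X := by positivity
      have he : (0 : ℝ) < ((e + 1 : ℕ) : ℝ) := by positivity
      have hn1 : ‖((e + 1 : ℕ) : ℂ) * b (p ^ (e + 1))‖ = ((e + 1 : ℕ) : ℝ) * ‖b (p ^ (e + 1))‖ := by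
        rw [norm_mul, Complex.norm_natCast]
      have hn2 : ‖((e + 1 : ℕ) : ℂ) * a (p ^ (e + 1))‖ ≤ ((e + 1 : ℕ) : ℝ) * (C * X) := by
        rw [norm_mul, Complex.norm_natCast]
        apply mul_le_mul_of_nonneg_left _ he.le
        have := hC (p ^ (e + 1)) (Nat.one_le_iff_ne_zero.mpr (pow_ne_zero _ hp.ne_zero))
        push_cast at this
        exact this
      have hn3 : ∀ j ∈ range (e + 1), ‖a (p ^ (e + 1 - j)) * ((j : ℂ) *
          (if j = 0 then 0 else b (p ^ j)))‖ ≤ ((e + 1 : ℕ) : ℝ) * (C * D * X) := by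
        intro j hj
        rw [mem_range] at hj
        split_ifs with h0
        · rw [mul_zero, mul_zero, norm_zero]; positivity
        · rw [norm_mul, norm_mul, Complex.norm_natCast]
          have e1 := hC (p ^ (e + 1 - j)) (Nat.one_le_iff_ne_zero.mpr (pow_ne_zero _ hp.ne_zero))
          have e2 := hD p hp j (by omega) (by omega)
          push_cast at e1
          have e3 : (j : ℝ) ≤ ((e + 1 : ℕ) : ℝ) := by exact_mod_cast hj.le
          have e4 : ((p : ℝ) ^ (e + 1 - j)) ^ (1 / 8 : ℝ) * ((p : ℝ) ^ j) ^ (1 / 8 : ℝ) = X := by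
            rw [← Real.mul_rpow (by positivity) (by positivity), ← pow_add, hX,
              Nat.sub_add_cancel (by omega : j ≤ e + 1)]
          calc ‖a (p ^ (e + 1 - j))‖ * ((j : ℝ) * ‖b (p ^ j)‖)
              ≤ (C * ((p : ℝ) ^ (e + 1 - j)) ^ (1 / 8 : ℝ)) * (((e + 1 : ℕ) : ℝ) *
                (D * ((p : ℝ) ^ j) ^ (1 / 8 : ℝ))) := by
                apply mul_le_mul e1 _ (by positivity) (by positivity)
                exact mul_le_mul e3 e2 (norm_nonneg _) (by positivity)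
            _ = ((e + 1 : ℕ) : ℝ) * (C * D * (((p : ℝ) ^ (e + 1 - j)) ^ (1 / 8 : ℝ) *
                ((p : ℝ) ^ j) ^ (1 / 8 : ℝ))) := by ring
            _ = _ := by rw [e4]
      have hn4 : ‖∑ j ∈ range (e + 1), a (p ^ (e + 1 - j)) * ((j : ℂ) *
          (if j = 0 then 0 else b (p ^ j)))‖ ≤ ((e + 1 : ℕ) : ℝ) *
            (((e + 1 : ℕ) : ℝ) * (C * D * X)) := by
        refine (norm_sum_le _ _).trans ?_
        refine (sum_le_sum hn3).trans ?_
        rw [sum_const, card_range, nsmul_eq_mul]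
      have h5 : ((e + 1 : ℕ) : ℝ) * ‖b (p ^ (e + 1))‖ ≤ ((e + 1 : ℕ) : ℝ) * (C * X) +
          ((e + 1 : ℕ) : ℝ) * (((e + 1 : ℕ) : ℝ) * (C * D * X)) := by
        rw [← hn1, h1]
        exact (norm_sub_le _ _).trans (add_le_add hn2 hn4)
      have h6 : ‖b (p ^ (e + 1))‖ ≤ (C + ((e : ℝ) + 1) * (C * D)) * X := by
        have : ((e + 1 : ℕ) : ℝ) * ‖b (p ^ (e + 1))‖ ≤ ((e + 1 : ℕ) : ℝ) *
            ((C + ((e : ℝ) + 1) * (C * D)) * X) := by
          refine h5.trans (le_of_eq ?_)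
          push_cast
          ring
        exact le_of_mul_le_mul_left this he
      refine h6.trans ?_
      exact mul_le_mul_of_nonneg_right (le_max_right _ _) hX0.le

/-- a summable majorant for the higher prime powers in the Rankin-Selberg type series -/
theorem high_bound (b : ℕ → ℂ) (θ C : ℝ) (hθ : θ < 1 / 2)
    (hb : ∀ p : ℕ, p.Prime → ∀ l : ℕ, 1 ≤ l → ‖b (p ^ l)‖ ≤ C * ((p : ℝ) ^ l) ^ θ)
    (hsmall : ∀ e : ℕ, ∃ D : ℝ, 0 ≤ D ∧ ∀ p : ℕ, p.Prime → ∀ j : ℕ, 1 ≤ j → j ≤ e →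
      ‖b (p ^ j)‖ ≤ D * ((p : ℝ) ^ j) ^ (1 / 8 : ℝ)) :
    ∃ B : ℕ → ℝ, Summable B ∧ (∀ l, 0 ≤ B l) ∧ ∀ p : ℕ, p.Prime → ∀ l : ℕ,
      ((l : ℝ) + 2) * ‖b (p ^ (l + 2))‖ ^ 2 / (p : ℝ) ^ (l + 2)
        ≤ B l * (p : ℝ) ^ (-(3 / 2) : ℝ) := by
  set ρ : ℝ := 1 - 2 * θ with hρ
  have hρ0 : 0 < ρ := by rw [hρ]; linarith
  obtain ⟨e0, he0⟩ := exists_nat_ge (3 / ρ)
  rw [div_le_iff₀ hρ0] at he0
  obtain ⟨D, hD0, hD⟩ := hsmall e0
  set g : ℝ := (2 : ℝ) ^ (-(ρ / 2)) with hg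
  have hg0 : 0 < g := by positivity
  have hg1 : g < 1 := Real.rpow_lt_one_of_one_lt_of_neg (by norm_num) (by linarith)
  refine ⟨fun l => C ^ 2 * (((l : ℝ) + 2) * g ^ (l + 2))
    + (if l + 2 ≤ e0 then ((l : ℝ) + 2) * D ^ 2 else 0), ?_, ?_, ?_⟩
  · apply Summable.add
    · apply Summable.mul_left
      have h1 : Summable (fun n : ℕ => (n : ℝ) ^ 1 * g ^ n) :=
        summable_pow_mul_geometric_of_norm_lt_one 1 (by
          rw [Real.norm_eq_abs, abs_of_pos hg0]; exact hg1)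
      have h2 := (summable_nat_add_iff 2).mpr h1
      refine h2.congr (fun l => ?_)
      push_cast
      rw [pow_one]
    · apply summable_of_hasFiniteSupport
      apply (Set.finite_le_nat e0).subset
      intro l hl
      simp only [Function.mem_support, ne_eq, ite_eq_right_iff, not_forall] at hl
      obtain ⟨h1, _⟩ := hl
      show l ≤ e0
      omega
  · intro l
    apply add_nonneg (by positivity)
    split_ifs
    · positivity
    · exact le_rfl
  · intro p hp l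
    have hp0 : (0 : ℝ) < p := by exact_mod_cast hp.pos
    have hp1 : (1 : ℝ) ≤ p := by exact_mod_cast hp.one_le
    have hp2 : (2 : ℝ) ≤ p := by exact_mod_cast hp.two_le
    have hP : (0 : ℝ) < (p : ℝ) ^ (l + 2) := by positivity
    have hl2 : (0 : ℝ) ≤ (l : ℝ) + 2 := by positivity
    have hsq : ∀ (c s : ℝ), ‖b (p ^ (l + 2))‖ ≤ c * ((p : ℝ) ^ (l + 2)) ^ s →
        ((l : ℝ) + 2) * ‖b (p ^ (l + 2))‖ ^ 2 / (p : ℝ) ^ (l + 2)
          ≤ ((l : ℝ) + 2) * c ^ 2 * (p : ℝ) ^ (((l : ℝ) + 2) * (2 * s - 1)) := by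
      intro c s h
      have h1 : ‖b (p ^ (l + 2))‖ ^ 2 ≤ c ^ 2 * ((p : ℝ) ^ (l + 2)) ^ (2 * s) := by
        calc ‖b (p ^ (l + 2))‖ ^ 2 ≤ (c * ((p : ℝ) ^ (l + 2)) ^ s) ^ 2 :=
              pow_le_pow_left₀ (norm_nonneg _) h 2
          _ = _ := by
            rw [mul_pow]
            congr 1
            rw [← Real.rpow_natCast (((p : ℝ) ^ (l + 2)) ^ s), ← Real.rpow_mul hP.le]
            congr 1
            push_cast; ring
      calc ((l : ℝ) + 2) * ‖b (p ^ (l + 2))‖ ^ 2 / (p : ℝ) ^ (l + 2)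
          ≤ ((l : ℝ) + 2) * (c ^ 2 * ((p : ℝ) ^ (l + 2)) ^ (2 * s)) / (p : ℝ) ^ (l + 2) := by
            apply div_le_div_of_nonneg_right _ hP.le
            exact mul_le_mul_of_nonneg_left h1 hl2
        _ = ((l : ℝ) + 2) * c ^ 2 * (((p : ℝ) ^ (l + 2)) ^ (2 * s) *
              ((p : ℝ) ^ (l + 2)) ^ (-1 : ℝ)) := by
            rw [Real.rpow_neg_one]; ring
        _ = _ := by
            congr 1
            rw [← Real.rpow_add hP, ← Real.rpow_natCast, ← Real.rpow_mul hp0.le]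
            congr 1
            push_cast; ring
    have hpos32 : (0 : ℝ) < (p : ℝ) ^ (-(3 / 2) : ℝ) := by positivity
    rcases Nat.lt_or_ge e0 (l + 2) with h | h
    · have h1 := hsq C θ (hb p hp (l + 2) (by omega))
      refine h1.trans ?_
      beta_reduce
      rw [if_neg (by omega), add_zero]
      have h2 : (p : ℝ) ^ (((l : ℝ) + 2) * (2 * θ - 1)) ≤ g ^ (l + 2) * (p : ℝ) ^ (-(3 / 2) : ℝ) := by
        have e1 : ((l : ℝ) + 2) * (2 * θ - 1)
            = -(ρ / 2) * ((l : ℝ) + 2) + -(ρ / 2) * ((l : ℝ) + 2) := by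
          rw [hρ]; ring
        rw [e1, Real.rpow_add hp0]
        apply mul_le_mul _ _ (by positivity) (by positivity)
        · rw [Real.rpow_mul hp0.le]
          have : ((l : ℝ) + 2) = ((l + 2 : ℕ) : ℝ) := by push_cast; ring
          rw [this, Real.rpow_natCast]
          apply pow_le_pow_left₀ (by positivity)
          exact Real.rpow_le_rpow_of_nonpos (by norm_num) hp2 (by linarith)
        · apply Real.rpow_le_rpow_of_exponent_le hp1
          have : (e0 : ℝ) ≤ (l : ℝ) + 2 := by exact_mod_cast h.le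
          nlinarith
      calc ((l : ℝ) + 2) * C ^ 2 * (p : ℝ) ^ (((l : ℝ) + 2) * (2 * θ - 1))
          ≤ ((l : ℝ) + 2) * C ^ 2 * (g ^ (l + 2) * (p : ℝ) ^ (-(3 / 2) : ℝ)) :=
            mul_le_mul_of_nonneg_left h2 (by positivity)
        _ = _ := by ring
    · have h1 := hsq D (1 / 8) (hD p hp (l + 2) (by omega) h)
      refine h1.trans ?_
      beta_reduce
      rw [if_pos h]
      have h2 : (p : ℝ) ^ (((l : ℝ) + 2) * (2 * (1 / 8) - 1)) ≤ (p : ℝ) ^ (-(3 / 2) : ℝ) := by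
        apply Real.rpow_le_rpow_of_exponent_le hp1
        have : (0 : ℝ) ≤ l := Nat.cast_nonneg l
        linarith
      have h3 : 0 ≤ C ^ 2 * (((l : ℝ) + 2) * g ^ (l + 2)) := by positivity
      calc ((l : ℝ) + 2) * D ^ 2 * (p : ℝ) ^ (((l : ℝ) + 2) * (2 * (1 / 8) - 1))
          ≤ ((l : ℝ) + 2) * D ^ 2 * (p : ℝ) ^ (-(3 / 2) : ℝ) :=
            mul_le_mul_of_nonneg_left h2 (by positivity)
        _ ≤ _ := by
            apply mul_le_mul_of_nonneg_right _ hpos32.le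
            linarith

end Pool.Agent.H11.Selberg
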