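import Mathlib
import Pool.Agent.H11.Selberg.Defs2
import Pool.Agent.H11.Selberg.Arith2

set_option autoImplicit false

namespace Pool.Agent.H11.Selberg

open Finset Classical

theorem Sc_c1 (a : ℕ → ℂ) (x : ℝ) : Sc (c1 a) x = S a x := by
  unfold Sc S c1
  rw [sum_filter]

theorem Gc_c2 (a : ℕ → ℂ) (δ : ℝ) (hδ : 0 < δ) :
    Gc (c2 a) δ = ∑' n : ℕ, ‖a n‖ ^ 2 / (n : ℝ) ^ (1 + δ) := by
  unfold Gc c2
  congr 1
  funext n
  rcases Nat.eq_zero_or_pos n with rfl | hn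
  · rw [Nat.cast_zero, Real.zero_rpow (by linarith : (1 : ℝ) + δ ≠ 0)]
    simp
  · have hn0 : (0 : ℝ) < n := by exact_mod_cast hn
    rw [Real.rpow_add hn0, Real.rpow_one, Real.rpow_neg hn0.le]
    field_simp

/-- the tensor square and the prime sum -/
theorem tensor_log (a b : ℕ → ℂ)
    (hR : ∀ ε : ℝ, 0 < ε → ∃ C : ℝ, ∀ n : ℕ, 1 ≤ n → ‖a n‖ ≤ C * (n : ℝ) ^ ε)
    (hbp : ∀ p : ℕ, p.Prime → b p = a p)
    (B : ℕ → ℝ) (hBs : Summable B) (hB0 : ∀ l, 0 ≤ B l)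
    (hB : ∀ p : ℕ, p.Prime → ∀ l : ℕ,
      ((l : ℝ) + 2) * ‖b (p ^ (l + 2))‖ ^ 2 / (p : ℝ) ^ (l + 2)
        ≤ B l * (p : ℝ) ^ (-(3 / 2) : ℝ)) :
    ∃ K : ℝ, ∀ δ : ℝ, 0 < δ → δ ≤ 1 →
      0 < tensorSquare b (1 + δ) ∧
        |Real.log (tensorSquare b (1 + δ)) - Gc (c1 a) δ| ≤ K := by
  have hA1 := c1_adm a hR
  have hsum32 : Summable (fun p : Nat.Primes => ((p : ℕ) : ℝ) ^ (-(3 / 2) : ℝ)) :=
    Nat.Primes.summable_rpow.mpr (by norm_num)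
  refine ⟨∑' p : Nat.Primes, (∑' l, B l) * ((p : ℕ) : ℝ) ^ (-(3 / 2) : ℝ), ?_⟩
  intro δ hδ hδ1
  set h : Nat.Primes → ℕ → ℝ := fun p l => ((l : ℝ) + 1) * ‖b ((p : ℕ) ^ (l + 1))‖ ^ 2 *
    ((p : ℕ) : ℝ) ^ (-((l : ℝ) + 1) * (1 + δ)) with hh
  have hh0 : ∀ p l, 0 ≤ h p l := fun p l => by
    simp only [hh]; positivity
  have htail : ∀ (p : Nat.Primes) (l : ℕ), h p (l + 1) ≤ B l * ((p : ℕ) : ℝ) ^ (-(3 / 2) : ℝ) := by
    intro p l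
    refine le_trans ?_ (hB p p.prop l)
    have hp0 : (0 : ℝ) < ((p : ℕ) : ℝ) := by exact_mod_cast p.prop.pos
    have hp1 : (1 : ℝ) ≤ ((p : ℕ) : ℝ) := by exact_mod_cast p.prop.one_le
    simp only [hh]
    have e1 : ((p : ℕ) : ℝ) ^ (-(((l + 1 : ℕ) : ℝ) + 1) * (1 + δ))
        ≤ (((p : ℕ) : ℝ) ^ (l + 2))⁻¹ := by
      rw [← Real.rpow_natCast, ← Real.rpow_neg hp0.le]
      apply Real.rpow_le_rpow_of_exponent_le hp1
      push_cast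
      have : (0 : ℝ) ≤ l := Nat.cast_nonneg l
      nlinarith
    have e2 : (((l + 1 : ℕ) : ℝ) + 1) = (l : ℝ) + 2 := by push_cast; ring
    rw [e2] at e1 ⊢
    rw [div_eq_mul_inv]
    exact mul_le_mul_of_nonneg_left e1 (by positivity)
  have hsp : ∀ p : Nat.Primes, Summable (h p) := by
    intro p
    rw [← summable_nat_add_iff 1]
    exact Summable.of_nonneg_of_le (fun l => hh0 p _) (htail p) (hBs.mul_right _)
  have hsplit : ∀ p : Nat.Primes, ∑' l, h p l = h p 0 + ∑' l, h p (l + 1) := fun p =>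
    (hsp p).tsum_eq_zero_add
  have hr0 : ∀ p : Nat.Primes, 0 ≤ ∑' l, h p (l + 1) := fun p => tsum_nonneg (fun l => hh0 p _)
  have hr : ∀ p : Nat.Primes, ∑' l, h p (l + 1) ≤ (∑' l, B l) * ((p : ℕ) : ℝ) ^ (-(3 / 2) : ℝ) := by
    intro p
    rw [← tsum_mul_right]
    exact ((summable_nat_add_iff 1).mpr (hsp p)).tsum_le_tsum (htail p) (hBs.mul_right _)
  have hh1 : ∀ p : Nat.Primes, h p 0 = c1 a p * ((p : ℕ) : ℝ) ^ (-δ) := by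
    intro p
    have hp0 : (0 : ℝ) < ((p : ℕ) : ℝ) := by exact_mod_cast p.prop.pos
    simp only [hh, c1, if_pos p.prop]
    rw [zero_add, pow_one, hbp p p.prop, Nat.cast_zero, zero_add, one_mul,
      show (-1 : ℝ) * (1 + δ) = -1 + -δ by ring, Real.rpow_add hp0, Real.rpow_neg_one]
    ring
  have hG1 : HasSum (fun p : Nat.Primes => h p 0) (Gc (c1 a) δ) := by
    have h1 : HasSum (fun n : ℕ => c1 a n * (n : ℝ) ^ (-δ)) (Gc (c1 a) δ) :=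
      (hA1.summable δ hδ).hasSum
    have hinj : Function.Injective (fun p : Nat.Primes => (p : ℕ)) := fun p q h => Subtype.ext h
    have h2 := (Function.Injective.hasSum_iff hinj (f := fun n : ℕ => c1 a n * (n : ℝ) ^ (-δ))
      (a := Gc (c1 a) δ) (by
        intro n hn
        have : ¬ n.Prime := fun hp => hn ⟨⟨n, hp⟩, rfl⟩
        simp [c1, this])).mpr h1
    have h3 : (fun p : Nat.Primes => h p 0) =
        (fun n : ℕ => c1 a n * (n : ℝ) ^ (-δ)) ∘ (fun p : Nat.Primes => (p : ℕ)) := by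
      funext p
      exact hh1 p
    rw [h3]
    exact h2
  have hKs : Summable (fun p : Nat.Primes => (∑' l, B l) * ((p : ℕ) : ℝ) ^ (-(3 / 2) : ℝ)) :=
    hsum32.mul_left _
  have hrs : Summable (fun p : Nat.Primes => ∑' l, h p (l + 1)) :=
    Summable.of_nonneg_of_le hr0 hr hKs
  have htot : HasSum (fun p : Nat.Primes => ∑' l, h p l)
      (Gc (c1 a) δ + ∑' p : Nat.Primes, ∑' l, h p (l + 1)) := by
    have h4 := hG1.add hrs.hasSum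
    have h5 : (fun p : Nat.Primes => ∑' l, h p l) = fun p => h p 0 + ∑' l, h p (l + 1) :=
      funext hsplit
    rw [h5]
    exact h4
  have hexp := htot.rexp
  have heq : tensorSquare b (1 + δ) = Real.exp (Gc (c1 a) δ +
      ∑' p : Nat.Primes, ∑' l, h p (l + 1)) := by
    unfold tensorSquare
    exact hexp.tprod_eq
  rw [heq]
  refine ⟨Real.exp_pos _, ?_⟩
  rw [Real.log_exp, add_sub_cancel_left, abs_of_nonneg (tsum_nonneg hr0)]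
  exact hrs.tsum_le_tsum hr hKs

/-- boundedness of a logarithm and two-sided power bounds -/
theorem log_iff_pow (f g : ℝ → ℝ) (κ K : ℝ)
    (hf : ∀ δ : ℝ, 0 < δ → δ ≤ 1 → 0 < f δ ∧ |Real.log (f δ) - g δ| ≤ K) :
    (∃ C : ℝ, ∀ δ : ℝ, 0 < δ → δ ≤ 1 → |g δ + κ * Real.log δ| ≤ C) ↔
    (∃ c0 C : ℝ, 0 < c0 ∧ ∀ δ : ℝ, 0 < δ → δ ≤ 1 →
      c0 * δ ^ (-κ) ≤ f δ ∧ f δ ≤ C * δ ^ (-κ)) := by
  have hK0 : 0 ≤ K := (abs_nonneg _).trans (hf 1 one_pos le_rfl).2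
  constructor
  · rintro ⟨C, hC⟩
    refine ⟨Real.exp (-(C + K)), Real.exp (C + K), Real.exp_pos _, ?_⟩
    intro δ hδ hδ1
    obtain ⟨h1, h2⟩ := hf δ hδ hδ1
    have h3 := abs_le.mp h2
    have h4 := abs_le.mp (hC δ hδ hδ1)
    have h5 : δ ^ (-κ) = Real.exp (-(κ * Real.log δ)) := by
      rw [Real.rpow_def_of_pos hδ]
      congr 1
      ring
    have h6 : f δ = Real.exp (Real.log (f δ)) := (Real.exp_log h1).symm
    rw [h5, ← Real.exp_add, ← Real.exp_add]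
    constructor
    · rw [h6]
      apply Real.exp_le_exp.mpr
      linarith [h3.1, h4.1]
    · rw [h6]
      apply Real.exp_le_exp.mpr
      linarith [h3.2, h4.2]
  · rintro ⟨c0, C, hc0, hC⟩
    have hC0 : 0 < C := by
      have h1 := hC 1 one_pos le_rfl
      rw [Real.one_rpow] at h1
      linarith [h1.1, h1.2]
    refine ⟨|Real.log c0| + |Real.log C| + K, ?_⟩
    intro δ hδ hδ1
    obtain ⟨h1, h2⟩ := hf δ hδ hδ1
    have h3 := abs_le.mp h2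
    obtain ⟨h4, h5⟩ := hC δ hδ hδ1
    have hp : 0 < δ ^ (-κ) := Real.rpow_pos_of_pos hδ _
    have h6 := Real.log_le_log (by positivity) h4
    have h7 := Real.log_le_log h1 h5
    rw [Real.log_mul hc0.ne' hp.ne', Real.log_rpow hδ] at h6
    rw [Real.log_mul hC0.ne' hp.ne', Real.log_rpow hδ] at h7
    have h8 := neg_abs_le (Real.log c0)
    have h9 := le_abs_self (Real.log C)
    have h10 := abs_nonneg (Real.log c0)
    have h11 := abs_nonneg (Real.log C)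
    rw [abs_le]
    constructor <;> linarith [h3.1, h3.2]

theorem equivalence (a : ℕ → ℂ) (F : ℂ → ℂ) (b : ℕ → ℂ) (κ : ℝ) (h : IsSelberg a F)
    (hb : EulerCoeff b F) (hκ : 0 ≤ κ) :
    List.TFAE [
      ∃ C : ℝ, ∀ x : ℝ, 2 ≤ x → |S a x - κ * Real.log (Real.log x)| ≤ C,
      ∃ c C : ℝ, 0 < c ∧ ∀ x : ℝ, 2 ≤ x →
        c * (Real.log x) ^ κ ≤ ∑ n ∈ Finset.Icc 1 ⌊x⌋₊, ‖a n‖ ^ 2 / (n : ℝ) ∧
        ∑ n ∈ Finset.Icc 1 ⌊x⌋₊, ‖a n‖ ^ 2 / (n : ℝ) ≤ C * (Real.log x) ^ κ,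
      ∃ c C : ℝ, 0 < c ∧ ∀ σ : ℝ, 1 < σ → σ ≤ 2 →
        c * (σ - 1) ^ (-κ) ≤ ∑' n : ℕ, ‖a n‖ ^ 2 / (n : ℝ) ^ σ ∧
        ∑' n : ℕ, ‖a n‖ ^ 2 / (n : ℝ) ^ σ ≤ C * (σ - 1) ^ (-κ),
      ∃ c C : ℝ, 0 < c ∧ ∀ σ : ℝ, 1 < σ → σ ≤ 2 →
        c * (σ - 1) ^ (-κ) ≤ tensorSquare b σ ∧
        tensorSquare b σ ≤ C * (σ - 1) ^ (-κ)] := by
  obtain ⟨θ, Cb, hθ, hbb, hE⟩ := hb
  have hE' : ∀ s : ℂ, 1 < s.re → HasProd
      (fun p : Nat.Primes => Complex.exp (∑' l : ℕ, b ((p : ℕ) ^ (l + 1)) *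
        ((p : ℕ) : ℂ) ^ (-((l : ℂ) + 1) * s))) (LSeries a s) := fun s hs => by
    rw [← h.eq_LSeries s hs]; exact hE s hs
  have hrec := conv_rec a h.summable b θ Cb hθ hbb hE'
  have hbp := b_prime a h.one h.summable b θ Cb hθ hbb hE'
  have hmul : ∀ m n : ℕ, Nat.Coprime m n → a (m * n) = a m * a n := by
    -- the value at 0 does not matter for coprime arguments except `(0, 1)`
    intro m n hmn
    by_cases h0 : m * n = 0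
    · rcases Nat.mul_eq_zero.mp h0 with rfl | rfl
      · rw [Nat.coprime_zero_left] at hmn
        subst hmn
        rw [mul_one, h.one, mul_one]
      · rw [Nat.coprime_zero_right] at hmn
        subst hmn
        rw [one_mul, h.one, one_mul]
    · exact mult_of_rec a (fun q => (Real.log q : ℂ) * bb b q) h.one
        (fun q hq => by simp [bb, hq]) hrec (m * n) m n rfl h0 hmn
  obtain ⟨C8, hC8⟩ := h.ramanujan (1 / 8) (by norm_num)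
  obtain ⟨B, hBs, hB0, hB⟩ := high_bound b θ Cb hθ hbb (b_small a b h.one hrec C8 hC8)
  obtain ⟨K1, hK1⟩ := log_series a h.one hmul h.ramanujan
  obtain ⟨K2, hK2⟩ := tensor_log a b h.ramanujan hbp B hBs hB0 hB
  have hA1 := c1_adm a h.ramanujan
  have hA2 := c2_adm a h.ramanujan
  have hc21 : c2 a 1 = 1 := by simp [c2, h.one]
  -- the central statement
  have e1 : (∃ C : ℝ, ∀ x : ℝ, 2 ≤ x → |S a x - κ * Real.log (Real.log x)| ≤ C) ↔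
      (∃ C : ℝ, ∀ δ : ℝ, 0 < δ → δ ≤ 1 → |Gc (c1 a) δ + κ * Real.log δ| ≤ C) := by
    simp_rw [← Sc_c1]
    exact ⟨taub_log_mp _ hA1 κ hκ, taub_log_mpr _ hA1 κ hκ⟩
  have e2 := log_iff_pow (Gc (c2 a)) (Gc (c1 a)) κ K1 hK1
  have e3 := log_iff_pow (fun δ => tensorSquare b (1 + δ)) (Gc (c1 a)) κ K2 hK2
  have e4 : (∃ c C : ℝ, 0 < c ∧ ∀ x : ℝ, 2 ≤ x →
        c * (Real.log x) ^ κ ≤ ∑ n ∈ Finset.Icc 1 ⌊x⌋₊, ‖a n‖ ^ 2 / (n : ℝ) ∧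
        ∑ n ∈ Finset.Icc 1 ⌊x⌋₊, ‖a n‖ ^ 2 / (n : ℝ) ≤ C * (Real.log x) ^ κ) ↔
      (∃ c0 C : ℝ, 0 < c0 ∧ ∀ δ : ℝ, 0 < δ → δ ≤ 1 →
      c0 * δ ^ (-κ) ≤ Gc (c2 a) δ ∧ Gc (c2 a) δ ≤ C * δ ^ (-κ)) :=
    ⟨taub_pow_mp _ hA2 κ hκ, taub_pow_mpr _ hA2 hc21 κ hκ⟩
  have shift : ∀ f : ℝ → ℝ, (∃ c C : ℝ, 0 < c ∧ ∀ σ : ℝ, 1 < σ → σ ≤ 2 →
        c * (σ - 1) ^ (-κ) ≤ f σ ∧ f σ ≤ C * (σ - 1) ^ (-κ)) ↔
      (∃ c0 C : ℝ, 0 < c0 ∧ ∀ δ : ℝ, 0 < δ → δ ≤ 1 →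
      c0 * δ ^ (-κ) ≤ f (1 + δ) ∧ f (1 + δ) ≤ C * δ ^ (-κ)) := by
    intro f
    constructor
    · rintro ⟨c, C, hc, hC⟩
      refine ⟨c, C, hc, fun δ hδ hδ1 => ?_⟩
      have := hC (1 + δ) (by linarith) (by linarith)
      rwa [add_sub_cancel_left] at this
    · rintro ⟨c, C, hc, hC⟩
      refine ⟨c, C, hc, fun σ hσ hσ2 => ?_⟩
      have := hC (σ - 1) (by linarith) (by linarith)
      rwa [add_sub_cancel] at this
  have e5 : (∃ c C : ℝ, 0 < c ∧ ∀ σ : ℝ, 1 < σ → σ ≤ 2 →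
        c * (σ - 1) ^ (-κ) ≤ ∑' n : ℕ, ‖a n‖ ^ 2 / (n : ℝ) ^ σ ∧
        ∑' n : ℕ, ‖a n‖ ^ 2 / (n : ℝ) ^ σ ≤ C * (σ - 1) ^ (-κ)) ↔
      (∃ c0 C : ℝ, 0 < c0 ∧ ∀ δ : ℝ, 0 < δ → δ ≤ 1 →
      c0 * δ ^ (-κ) ≤ Gc (c2 a) δ ∧ Gc (c2 a) δ ≤ C * δ ^ (-κ)) := by
    rw [shift]
    constructor
    · rintro ⟨c, C, hc, hC⟩
      exact ⟨c, C, hc, fun δ hδ hδ1 => by rw [Gc_c2 a δ hδ]; exact hC δ hδ hδ1⟩
    · rintro ⟨c, C, hc, hC⟩
      exact ⟨c, C, hc, fun δ hδ hδ1 => by rw [← Gc_c2 a δ hδ]; exact hC δ hδ hδ1⟩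
  have e6 := shift (tensorSquare b)
  tfae_have 1 ↔ 2 := by rw [e1, e4, e2]
  tfae_have 1 ↔ 3 := by rw [e1, e5, e2]
  tfae_have 1 ↔ 4 := by rw [e1, e6, e3]
  tfae_finish

end Pool.Agent.H11.Selberg
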